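import Pool.Agent.R347.LW.Pow

/-!
# Explicit numbers with approximations better than any tower
-/

set_option autoImplicit false

namespace Pool.Agent.R347.LW

open Complex

/-- the sequence of exponents -/
def eT : ℕ → ℕ
  | 0 => 1
  | k + 1 => tow (k + 2) (eT k)

theorem eT_succ (k : ℕ) : eT (k + 1) = tow (k + 2) (eT k) := rfl

theorem eT_step (k : ℕ) : eT k + 2 ≤ eT (k + 1) := by
  rw [eT_succ]
  have := le_tow (k + 2) (eT k)
  omega

theorem eT_pos (k : ℕ) : 1 ≤ eT k := by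
  cases k with
  | zero => exact le_rfl
  | succ k =>
    have := eT_step k
    omega

theorem eT_add (k j : ℕ) : eT k + j ≤ eT (k + j) := by
  induction j with
  | zero => simp
  | succ j ih =>
    have h1 := eT_step (k + j)
    have h2 : k + (j + 1) = k + j + 1 := rfl
    rw [h2]
    omega

/-- the sequence of denominators -/
def qT (k : ℕ) : ℕ := 2 ^ eT k

theorem two_le_qT (k : ℕ) : 2 ≤ qT k := by
  rw [qT]
  calc 2 = 2 ^ 1 := by norm_num
    _ ≤ 2 ^ eT k := Nat.pow_le_pow_right (by norm_num) (eT_pos k)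

/-- the terms of the series -/
noncomputable def trT (A : Set ℕ) (k : ℕ) : ℝ := by
  classical exact if k ∈ A then (1 / 2 : ℝ) ^ eT k else 0

theorem trT_of_mem {A : Set ℕ} {k : ℕ} (h : k ∈ A) : trT A k = (1 / 2 : ℝ) ^ eT k := by
  rw [trT, if_pos h]

theorem trT_of_notMem {A : Set ℕ} {k : ℕ} (h : k ∉ A) : trT A k = 0 := by
  rw [trT, if_neg h]

theorem trT_nonneg (A : Set ℕ) (k : ℕ) : 0 ≤ trT A k := by
  by_cases h : k ∈ A
  · rw [trT_of_mem h]; positivity
  · rw [trT_of_notMem h]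

theorem trT_le (A : Set ℕ) (k : ℕ) : trT A k ≤ (1 / 2 : ℝ) ^ eT k := by
  by_cases h : k ∈ A
  · rw [trT_of_mem h]
  · rw [trT_of_notMem h]; positivity

theorem trT_le' (A : Set ℕ) (k j : ℕ) : trT A (j + k) ≤ (1 / 2 : ℝ) ^ eT k * (1 / 2) ^ j := by
  refine (trT_le A _).trans ?_
  rw [← pow_add, add_comm j k]
  exact pow_le_pow_of_le_one (by norm_num) (by norm_num) (eT_add k j)

theorem trT_summable' (A : Set ℕ) (k : ℕ) : Summable (fun j => trT A (j + k)) :=
  Summable.of_nonneg_of_le (fun j => trT_nonneg A _) (fun j => trT_le' A k j)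
    (summable_geometric_two.mul_left _)

theorem trT_summable (A : Set ℕ) : Summable (trT A) := trT_summable' A 0

theorem tailT_le (A : Set ℕ) (k : ℕ) : ∑' j, trT A (j + k) ≤ 2 * (1 / 2 : ℝ) ^ eT k := by
  have h1 := (trT_summable' A k).tsum_le_tsum (trT_le' A k)
    (summable_geometric_two.mul_left _)
  rw [tsum_mul_left, tsum_geometric_two] at h1
  linarith

theorem tailT_nonneg (A : Set ℕ) (k : ℕ) : 0 ≤ ∑' j, trT A (j + k) :=
  tsum_nonneg fun _ => trT_nonneg A _

/-- the sum of the numbers `1 / qT k` over `k` in `A` -/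
noncomputable def xiT (A : Set ℕ) : ℝ := ∑' k, trT A k

theorem xiT_split (A : Set ℕ) (k : ℕ) :
    xiT A = ∑ j ∈ Finset.range k, trT A j + ∑' j, trT A (j + k) :=
  ((trT_summable A).sum_add_tsum_nat_add k).symm

theorem xiT_lt {A B : Set ℕ} (k : ℕ) (hk : ∀ j < k, j ∈ A ↔ j ∈ B) (hA : k ∈ A) (hB : k ∉ B) :
    xiT B < xiT A := by
  rw [xiT_split A (k + 1), xiT_split B (k + 1), Finset.sum_range_succ, Finset.sum_range_succ]
  have h1 : ∑ j ∈ Finset.range k, trT A j = ∑ j ∈ Finset.range k, trT B j := by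
    refine Finset.sum_congr rfl fun j hj => ?_
    have hj' := hk j (Finset.mem_range.1 hj)
    by_cases h : j ∈ A
    · rw [trT_of_mem h, trT_of_mem (hj'.1 h)]
    · rw [trT_of_notMem h, trT_of_notMem (fun hb => h (hj'.2 hb))]
  rw [h1, trT_of_mem hA, trT_of_notMem hB]
  have h2 := tailT_le B (k + 1)
  have h3 := tailT_nonneg A (k + 1)
  have h4 : (1 / 2 : ℝ) ^ eT (k + 1) ≤ (1 / 2 : ℝ) ^ (eT k + 2) :=
    pow_le_pow_of_le_one (by norm_num) (by norm_num) (eT_step k)
  have h5 : (1 / 2 : ℝ) ^ (eT k + 2) = (1 / 2 : ℝ) ^ eT k * (1 / 4) := by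
    rw [pow_add]; norm_num
  have h6 : (0 : ℝ) < (1 / 2 : ℝ) ^ eT k := by positivity
  linarith

theorem xiT_injective : Function.Injective xiT := by
  classical
  intro A B hAB
  by_contra hne
  have hex : ∃ k, ¬ (k ∈ A ↔ k ∈ B) := by
    by_contra hcon
    push Not at hcon
    exact hne (Set.ext hcon)
  set k := Nat.find hex with hk
  have h1 := Nat.find_spec hex
  have h2 : ∀ j < k, j ∈ A ↔ j ∈ B := fun j hj => by
    have := Nat.find_min hex hj
    push Not at this
    exact this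
  rw [← hk] at h1
  by_cases hA : k ∈ A
  · have hB : k ∉ B := fun hB => h1 ⟨fun _ => hB, fun _ => hA⟩
    exact absurd hAB (xiT_lt k h2 hA hB).ne'
  · have hB : k ∈ B := by
      by_contra hB
      exact h1 ⟨fun h => absurd h hA, fun h => absurd h hB⟩
    exact absurd hAB (xiT_lt k (fun j hj => (h2 j hj).symm) hB hA).ne

theorem xiT_rappr (A : Set ℕ) : RAppr qT (xiT A) := by
  classical
  refine ⟨0, fun κ => ⟨κ, fun k hk => ?_⟩⟩
  refine ⟨∑ j ∈ (Finset.range (k + 1)).filter (· ∈ A), 2 ^ (eT k - eT j), qT k, ?_, le_rfl, ?_⟩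
  · have := two_le_qT k
    omega
  have hEm : ∀ j ≤ k, eT j ≤ eT k := by
    intro j hj
    obtain ⟨i, rfl⟩ := Nat.exists_eq_add_of_le hj
    exact (Nat.le_add_right _ _).trans (eT_add j i)
  have h1 : ((∑ j ∈ (Finset.range (k + 1)).filter (· ∈ A), (2 : ℤ) ^ (eT k - eT j) : ℤ) : ℝ) /
      ((qT k : ℕ) : ℝ) = ∑ j ∈ Finset.range (k + 1), trT A j := by
    rw [qT]
    push_cast
    rw [Finset.sum_filter, Finset.sum_div]
    refine Finset.sum_congr rfl fun j hj => ?_
    have hj' : eT j ≤ eT k := hEm j (Nat.lt_succ_iff.1 (Finset.mem_range.1 hj))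
    by_cases h : j ∈ A
    · rw [if_pos h, trT_of_mem h, one_div, inv_pow, div_eq_iff (by positivity),
        inv_mul_eq_div, eq_div_iff (by positivity), ← pow_add, Nat.sub_add_cancel hj']
    · rw [if_neg h, trT_of_notMem h, zero_div]
  rw [h1, xiT_split A (k + 1), add_sub_cancel_left, abs_of_nonneg (tailT_nonneg A _)]
  refine (tailT_le A (k + 1)).trans ?_
  -- the denominators
  have h2 : tow κ (qT k) ≤ tow (k + 1) (eT k) := by
    have e1 : qT k = tow 1 (eT k) := rfl
    rw [e1, tow_tow]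
    exact tow_mono_left (by omega) _
  have h3 : 2 * tow κ (qT k) ≤ 2 ^ eT (k + 1) := by
    have e1 : 2 * tow (k + 1) (eT k) ≤ tow (k + 2) (eT k) := two_mul_le_pow _
    have e2 : tow (k + 2) (eT k) < 2 ^ eT (k + 1) := by
      rw [eT_succ]
      exact Nat.lt_two_pow_self
    omega
  have h4 : (0 : ℝ) < ((tow κ (qT k) : ℕ) : ℝ) := by
    have e1 := le_tow κ (qT k)
    have e2 := two_le_qT k
    exact_mod_cast (by omega : 0 < tow κ (qT k))
  have h5 : 2 * ((tow κ (qT k) : ℕ) : ℝ) ≤ (2 : ℝ) ^ eT (k + 1) := by exact_mod_cast h3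
  rw [one_div, inv_pow, ← div_eq_mul_inv, div_le_iff₀ (by positivity), inv_mul_eq_div,
    le_div_iff₀ h4]
  exact h5

theorem algIndU {q : ℕ → ℕ} (hq : ∀ k, 2 ≤ q k) (n : ℕ) (z : Fin n → UK hq)
    (hz : LinearIndependent ℚ z) :
    AlgebraicIndependent (UK hq) (fun i => Complex.exp (z i : ℂ)) := by
  classical
  rw [algebraicIndependent_iff]
  intro P hP
  rw [MvPolynomial.aeval_def, MvPolynomial.eval₂_eq'] at hP
  have hexp : ∀ m : Fin n →₀ ℕ, ∏ i, Complex.exp (z i : ℂ) ^ m i =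
      Complex.exp ((∑ i, (m i : UK hq) * z i : UK hq) : ℂ) := by
    intro m
    push_cast
    rw [Complex.exp_sum]
    refine Finset.prod_congr rfl fun i _ => ?_
    rw [← Complex.exp_nat_mul]
  have hP' : ∑ m ∈ P.support, ((P.coeff m : UK hq) : ℂ) *
      Complex.exp ((∑ i, (m i : UK hq) * z i : UK hq) : ℂ) = 0 := by
    rw [← hP]
    refine Finset.sum_congr rfl fun m _ => ?_
    rw [hexp]
    rfl
  have hinj : Function.Injective (fun m : Fin n →₀ ℕ =>
      ((∑ i, (m i : UK hq) * z i : UK hq) : ℂ)) := by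
    intro m m' hmm
    have h1 : (∑ i, (m i : UK hq) * z i : UK hq) = ∑ i, (m' i : UK hq) * z i := Subtype.ext hmm
    have h2 : ∑ i, ((m i : ℚ) - (m' i : ℚ)) • z i = 0 := by
      have h3 : ∀ i, ((m i : ℚ) - (m' i : ℚ)) • z i =
          (m i : UK hq) * z i - (m' i : UK hq) * z i := by
        intro i
        rw [Algebra.smul_def, map_sub, map_natCast, map_natCast, sub_mul]
      simp only [h3]
      rw [Finset.sum_sub_distrib, h1, sub_self]
    ext i
    have h4 := Fintype.linearIndependent_iff.1 hz _ h2 i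
    have h5 : (m i : ℚ) = m' i := by linarith
    exact_mod_cast h5
  have h1 : ∀ m ∈ P.support, ((P.coeff m : UK hq) : ℂ) = 0 := by
    intro m hm
    have e := P.support.equivFin
    have h2 := lwU hq P.support.card
      (fun k => ((∑ i, (((e.symm k) : Fin n →₀ ℕ) i : UK hq) * z i : UK hq) : ℂ))
      (fun k => ((P.coeff (e.symm k : Fin n →₀ ℕ) : UK hq) : ℂ))
      (fun k => (∑ i, (((e.symm k) : Fin n →₀ ℕ) i : UK hq) * z i : UK hq).2)
      (fun k => (P.coeff (e.symm k : Fin n →₀ ℕ)).2)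
      (fun a b hab => e.symm.injective (Subtype.ext (hinj hab))) (by
        rw [← hP', ← Finset.sum_coe_sort P.support (fun m : Fin n →₀ ℕ =>
          ((P.coeff m : UK hq) : ℂ) * Complex.exp ((∑ i, (m i : UK hq) * z i : UK hq) : ℂ))]
        exact Equiv.sum_comp e.symm (fun m : P.support =>
          ((P.coeff (m : Fin n →₀ ℕ) : UK hq) : ℂ) *
            Complex.exp ((∑ i, ((m : Fin n →₀ ℕ) i : UK hq) * z i : UK hq) : ℂ)))
    have h3 := h2 (e ⟨m, hm⟩)
    simpa using h3
  ext m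
  rw [MvPolynomial.coeff_zero]
  by_cases hm : m ∈ P.support
  · exact congrArg _ (Subtype.ext (h1 m hm))
  · rw [MvPolynomial.notMem_support_iff.1 hm]

theorem UK_trdeg (hq : ∀ k, 2 ≤ qT k) : Algebra.trdeg ℚ (UK hq) = Cardinal.continuum := by
  have hcl := UK_closed hq
  have h1 : Cardinal.mk (UK hq) = Cardinal.continuum := by
    apply le_antisymm
    · rw [← Cardinal.mk_complex]
      exact Cardinal.mk_le_of_injective Subtype.val_injective
    · have h2 : Cardinal.mk (Set ℕ) = Cardinal.continuum := by simp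
      rw [← h2]
      have hmem : ∀ A : Set ℕ, ((xiT A : ℝ) : ℂ) ∈ UK hq := fun A => (xiT_rappr A).appr hq
      refine Cardinal.mk_le_of_injective (f := fun A => ⟨_, hmem A⟩) fun A B hst => ?_
      have h4 : ((xiT A : ℝ) : ℂ) = ((xiT B : ℝ) : ℂ) := congrArg Subtype.val hst
      exact xiT_injective (Complex.ofReal_injective h4)
  obtain ⟨ι, x, hx⟩ := exists_isTranscendenceBasis' ℚ (UK hq)
  rw [← hx.cardinalMk_eq_trdeg, ← h1]
  refine (IsAlgClosed.cardinal_eq_cardinal_transcendence_basis_of_aleph0_lt' x hx ?_ ?_).symm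
  · exact (Cardinal.mk_denumerable ℚ).le
  · rw [h1]
    exact Cardinal.aleph0_lt_continuum

end Pool.Agent.R347.LW
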