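import Pool.Agent.R347.LW.GRoot2
import Pool.Agent.R347.LW.Ex2

/-!
# The field of the rationally approximable numbers, and powers with exponents in this field
-/

set_option autoImplicit false

namespace Pool.Agent.R347.LW

open Polynomial Complex
open scoped Nat NNReal

section

variable {q : ℕ → ℕ} (hq : ∀ k, 2 ≤ q k)

include hq

theorem inv_tow_small (A : ℝ) (hA : 0 ≤ A) (κ : ℕ) : ∃ κ' : ℕ, ∀ k, A * ((tow κ' (q k) : ℕ) : ℝ)⁻¹ ≤ ((tow κ (q k) : ℕ) : ℝ)⁻¹ := by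
  let Ω : Type := {Y : ℕ // 2 ≤ Y}
  let Yf : Ω → ℕ := fun ω => ω.1
  have pE : EL Yf (fun ω => A * ((tow κ (Yf ω) : ℕ) : ℝ)) :=
    (EL.const A hA).mul ⟨κ, fun ω => ⟨by positivity, le_rfl⟩⟩
  obtain ⟨κ', hκ'⟩ := pE
  refine ⟨κ', fun k => ?_⟩
  have h1 := (hκ' (⟨q k, hq k⟩ : Ω)).2
  change A * ((tow κ (q k) : ℕ) : ℝ) ≤ tow κ' (q k) at h1
  have htpos : ∀ m, 0 < ((tow m (q k) : ℕ) : ℝ) := fun m => by
    have := le_tow m (q k)
    have := hq k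
    exact_mod_cast (by omega : 0 < tow m (q k))
  rw [← div_eq_mul_inv, div_le_iff₀ (htpos κ'), inv_mul_eq_div, le_div_iff₀ (htpos κ)]
  exact h1

theorem tow_mul_le (h₁ h₂ A : ℕ) : ∃ h : ℕ, ∀ k, ∀ v₁ ≤ tow h₁ (q k), ∀ v₂ ≤ tow h₂ (q k), A * (v₁ * v₂) ≤ tow h (q k) := by
  let Ω : Type := {Y : ℕ // 2 ≤ Y}
  let Yf : Ω → ℕ := fun ω => ω.1
  have pE : EL Yf (fun ω => (A : ℝ) * (((tow h₁ (Yf ω) : ℕ) : ℝ) * ((tow h₂ (Yf ω) : ℕ) : ℝ))) :=
    (EL.const (A : ℝ) (by positivity)).mul (EL.mul ⟨h₁, fun ω => ⟨by positivity, le_rfl⟩⟩ ⟨h₂, fun ω => ⟨by positivity, le_rfl⟩⟩)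
  obtain ⟨h, hh⟩ := pE
  refine ⟨h, fun k v₁ hv₁ v₂ hv₂ => ?_⟩
  have h1 := (hh (⟨q k, hq k⟩ : Ω)).2
  change (A : ℝ) * (((tow h₁ (q k) : ℕ) : ℝ) * ((tow h₂ (q k) : ℕ) : ℝ)) ≤ tow h (q k) at h1
  have h2 : A * (tow h₁ (q k) * tow h₂ (q k)) ≤ tow h (q k) := by exact_mod_cast h1
  exact (Nat.mul_le_mul_left A (Nat.mul_le_mul hv₁ hv₂)).trans h2

theorem RAppr.add {x y : ℝ} (hx : RAppr q x) (hy : RAppr q y) : RAppr q (x + y) := by
  obtain ⟨h₁, hh₁⟩ := hx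
  obtain ⟨h₂, hh₂⟩ := hy
  obtain ⟨h, hh⟩ := tow_mul_le hq h₁ h₂ 1
  refine ⟨h, fun κ => ?_⟩
  obtain ⟨κ', hκ'⟩ := inv_tow_small hq 2 (by norm_num) κ
  obtain ⟨k₁, hk₁⟩ := hh₁ κ'
  obtain ⟨k₂, hk₂⟩ := hh₂ κ'
  refine ⟨max k₁ k₂, fun k hk => ?_⟩
  obtain ⟨u₁, v₁, hv₁, hv₁', hu₁⟩ := hk₁ k ((le_max_left _ _).trans hk)
  obtain ⟨u₂, v₂, hv₂, hv₂', hu₂⟩ := hk₂ k ((le_max_right _ _).trans hk)
  have hv₁0 : (v₁ : ℝ) ≠ 0 := by exact_mod_cast (by omega : v₁ ≠ 0)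
  have hv₂0 : (v₂ : ℝ) ≠ 0 := by exact_mod_cast (by omega : v₂ ≠ 0)
  refine ⟨u₁ * v₂ + u₂ * v₁, v₁ * v₂, Nat.mul_pos hv₁ hv₂, ?_, ?_⟩
  · have := hh k v₁ hv₁' v₂ hv₂'
    rwa [one_mul] at this
  · have h1 : x + y - ((u₁ * v₂ + u₂ * v₁ : ℤ) : ℝ) / ((v₁ * v₂ : ℕ) : ℝ) = (x - u₁ / v₁) + (y - u₂ / v₂) := by
      push_cast
      field_simp
      ring
    rw [h1]
    refine (abs_add_le _ _).trans ?_
    refine le_trans ?_ (hκ' k)
    linarith

omit hq in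
theorem RAppr.neg {x : ℝ} (hx : RAppr q x) : RAppr q (-x) := by
  obtain ⟨h, hh⟩ := hx
  refine ⟨h, fun κ => ?_⟩
  obtain ⟨k₀, hk₀⟩ := hh κ
  refine ⟨k₀, fun k hk => ?_⟩
  obtain ⟨u, v, hv, hv', hu⟩ := hk₀ k hk
  refine ⟨-u, v, hv, hv', ?_⟩
  have h1 : -x - ((-u : ℤ) : ℝ) / v = -(x - u / v) := by push_cast; ring
  rw [h1, abs_neg]
  exact hu

theorem RAppr.mul {x y : ℝ} (hx : RAppr q x) (hy : RAppr q y) : RAppr q (x * y) := by
  obtain ⟨h₁, hh₁⟩ := hx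
  obtain ⟨h₂, hh₂⟩ := hy
  obtain ⟨h, hh⟩ := tow_mul_le hq h₁ h₂ 1
  refine ⟨h, fun κ => ?_⟩
  obtain ⟨κ', hκ'⟩ := inv_tow_small hq (|x| + |y| + 1) (by positivity) κ
  obtain ⟨k₁, hk₁⟩ := hh₁ κ'
  obtain ⟨k₂, hk₂⟩ := hh₂ κ'
  refine ⟨max k₁ k₂, fun k hk => ?_⟩
  obtain ⟨u₁, v₁, hv₁, hv₁', hu₁⟩ := hk₁ k ((le_max_left _ _).trans hk)
  obtain ⟨u₂, v₂, hv₂, hv₂', hu₂⟩ := hk₂ k ((le_max_right _ _).trans hk)
  have hv₁0 : (v₁ : ℝ) ≠ 0 := by exact_mod_cast (by omega : v₁ ≠ 0)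
  have hv₂0 : (v₂ : ℝ) ≠ 0 := by exact_mod_cast (by omega : v₂ ≠ 0)
  set ε : ℝ := ((tow κ' (q k) : ℕ) : ℝ)⁻¹ with hε
  have hε0 : 0 ≤ ε := by positivity
  have hε1 : ε ≤ 1 := by
    refine inv_le_one_of_one_le₀ ?_
    have := le_tow κ' (q k)
    have := hq k
    exact_mod_cast (by omega : 1 ≤ tow κ' (q k))
  refine ⟨u₁ * u₂, v₁ * v₂, Nat.mul_pos hv₁ hv₂, ?_, ?_⟩
  · have := hh k v₁ hv₁' v₂ hv₂'
    rwa [one_mul] at this
  · have h1 : x * y - ((u₁ * u₂ : ℤ) : ℝ) / ((v₁ * v₂ : ℕ) : ℝ) =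
        (x - u₁ / v₁) * y + x * (y - u₂ / v₂) - (x - u₁ / v₁) * (y - u₂ / v₂) := by
      push_cast
      field_simp
      ring
    rw [h1]
    refine le_trans ?_ (hκ' k)
    refine (abs_sub _ _).trans ?_
    have h2 := abs_add_le ((x - u₁ / v₁) * y) (x * (y - u₂ / v₂))
    rw [abs_mul, abs_mul] at h2
    rw [abs_mul (x - u₁ / v₁)]
    have h3 : |x - u₁ / v₁| * |y| ≤ ε * |y| := mul_le_mul_of_nonneg_right hu₁ (abs_nonneg _)
    have h4 : |x| * |y - u₂ / v₂| ≤ |x| * ε := mul_le_mul_of_nonneg_left hu₂ (abs_nonneg _)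
    have h5 : |x - u₁ / v₁| * |y - u₂ / v₂| ≤ ε * 1 :=
      mul_le_mul hu₁ (hu₂.trans hε1) (abs_nonneg _) hε0
    linarith

theorem RAppr.inv {x : ℝ} (hx : RAppr q x) : RAppr q x⁻¹ := by
  by_cases hx0 : x = 0
  · rw [hx0, inv_zero, ← hx0]
    exact hx
  obtain ⟨h₁, hh₁⟩ := hx
  obtain ⟨h, hh⟩ := tow_mul_le hq h₁ 0 (⌈|x| + 1⌉₊)
  refine ⟨h, fun κ => ?_⟩
  have hx1 : 0 < |x| := abs_pos.2 hx0
  obtain ⟨κ', hκ'⟩ := inv_tow_small hq (2 / |x| ^ 2 + 2 / |x| + 1) (by positivity) κ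
  obtain ⟨k₁, hk₁⟩ := hh₁ κ'
  refine ⟨k₁, fun k hk => ?_⟩
  obtain ⟨u, v, hv, hv', hu⟩ := hk₁ k hk
  have hv0 : (0 : ℝ) < v := by exact_mod_cast hv
  set ε : ℝ := ((tow κ' (q k) : ℕ) : ℝ)⁻¹ with hε
  have hε0 : 0 ≤ ε := by positivity
  have hε1 : ε ≤ 1 := by
    refine inv_le_one_of_one_le₀ ?_
    have := le_tow κ' (q k)
    have := hq k
    exact_mod_cast (by omega : 1 ≤ tow κ' (q k))
  have hκ1 : ((tow κ (q k) : ℕ) : ℝ)⁻¹ ≤ 1 := by
    refine inv_le_one_of_one_le₀ ?_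
    have := le_tow κ (q k)
    have := hq k
    exact_mod_cast (by omega : 1 ≤ tow κ (q k))
  have hs := hκ' k
  have h1 : 2 / |x| * ε ≤ 1 := by
    have h2 : 0 ≤ 2 / |x| ^ 2 * ε := by positivity
    have h3 : (2 / |x| ^ 2 + 2 / |x| + 1) * ε = 2 / |x| ^ 2 * ε + 2 / |x| * ε + ε := by ring
    rw [h3] at hs
    linarith
  rw [div_mul_eq_mul_div, div_le_one hx1] at h1
  have h2 : |x| / 2 ≤ |(u : ℝ) / v| := by
    have h3 := abs_sub_abs_le_abs_sub x (u / v)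
    linarith
  have hu0 : (u : ℝ) ≠ 0 := by
    intro h0
    rw [h0, zero_div, abs_zero] at h2
    linarith
  have huZ : u ≠ 0 := by exact_mod_cast hu0
  have hnat : 1 ≤ u.natAbs := Int.natAbs_pos.2 huZ
  refine ⟨u.sign * v, u.natAbs, hnat, ?_, ?_⟩
  · have h3 := num_le hε1 hv hu
    refine h3.trans ?_
    have h4 := hh k v hv' 1 (by rw [tow_zero]; have := hq k; omega)
    rwa [mul_one] at h4
  · have h3 : ((u.sign * v : ℤ) : ℝ) / (u.natAbs : ℝ) = v / u := by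
      have h4 : (u : ℝ) = u.sign * (u.natAbs : ℝ) := by
        have := Int.sign_mul_abs u
        rw [Nat.cast_natAbs]
        exact_mod_cast this.symm
      have h5 : (u.sign : ℝ) * u.sign = 1 := by
        have : u.sign * u.sign = 1 := by
          rcases lt_or_gt_of_ne huZ with h | h
          · rw [Int.sign_eq_neg_one_of_neg h]; norm_num
          · rw [Int.sign_eq_one_of_pos h]; norm_num
        exact_mod_cast this
      have h6 : (u.natAbs : ℝ) ≠ 0 := by exact_mod_cast (by omega : u.natAbs ≠ 0)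
      have h7 : (u.sign : ℝ) ≠ 0 := by
        intro h0
        rw [h0] at h5
        norm_num at h5
      rw [h4]
      push_cast
      rw [div_eq_div_iff h6 (mul_ne_zero h7 h6)]
      linear_combination (v : ℝ) * (u.natAbs : ℝ) * h5
    rw [h3]
    have h4 : x⁻¹ - v / u = -((x - u / v) / (x * (u / v))) := by
      field_simp
      ring
    rw [h4, abs_neg, abs_div, abs_mul]
    have h5 : |x| * (|x| / 2) ≤ |x| * |(u : ℝ) / v| := mul_le_mul_of_nonneg_left h2 hx1.le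
    have h6 : |x - u / v| / (|x| * |(u : ℝ) / v|) ≤ ε / (|x| * (|x| / 2)) :=
      div_le_div₀ hε0 hu (by positivity) h5
    refine h6.trans (le_trans ?_ hs)
    have h7 : ε / (|x| * (|x| / 2)) = 2 / |x| ^ 2 * ε := by field_simp
    rw [h7]
    refine mul_le_mul_of_nonneg_right ?_ hε0
    have : 0 ≤ 2 / |x| := by positivity
    linarith

omit hq in
theorem RAppr.rat (r : ℚ) : RAppr q (r : ℝ) := by
  refine ⟨r.den, fun κ => ⟨0, fun k _ => ⟨r.num, r.den, r.den_pos, ?_, ?_⟩⟩⟩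
  · have := le_tow r.den (q k)
    omega
  · have h1 : ((r : ℚ) : ℝ) = ((r.num : ℤ) : ℝ) / ((r.den : ℕ) : ℝ) := by
      exact_mod_cast (Rat.num_div_den r).symm
    rw [← h1, sub_self, abs_zero]
    positivity

/-- the field of the rationally approximable numbers -/
def UR : IntermediateField ℚ ℝ where
  carrier := {x | RAppr q x}
  mul_mem' := fun ha hb => RAppr.mul hq ha hb
  one_mem' := by
    have := RAppr.rat (q := q) 1
    simpa using this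
  add_mem' := fun ha hb => RAppr.add hq ha hb
  zero_mem' := by
    have := RAppr.rat (q := q) 0
    simpa using this
  algebraMap_mem' := fun r => RAppr.rat r
  inv_mem' := fun _ ha => RAppr.inv hq ha

omit hq in
theorem mem_UR (hq : ∀ k, 2 ≤ q k) {x : ℝ} : x ∈ UR hq ↔ RAppr q x := Iff.rfl

/-- **The dichotomy** -/
theorem dich (l : ℂ) (hl : ¬ Appr q (exp l)) (n : ℕ) (x : Fin n → UR hq) (hx : LinearIndependent ℚ x) :
    AlgebraicIndependent (UK hq) (fun i => exp (((x i : ℝ) : ℂ) * l)) := by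
  classical
  rw [algebraicIndependent_iff]
  intro P hP
  by_contra hP0
  have hne : P.support.Nonempty := MvPolynomial.support_nonempty.2 hP0
  rw [MvPolynomial.aeval_def, MvPolynomial.eval₂_eq'] at hP
  have hexp : ∀ m : Fin n →₀ ℕ, ∏ i, exp (((x i : ℝ) : ℂ) * l) ^ m i =
      exp (((∑ i, (m i : UR hq) * x i : UR hq) : ℝ) * l) := by
    intro m
    push_cast
    rw [Finset.sum_mul, Complex.exp_sum]
    refine Finset.prod_congr rfl fun i _ => ?_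
    rw [← Complex.exp_nat_mul]
    congr 1
    ring
  have hP' : ∑ m ∈ P.support, ((P.coeff m : UK hq) : ℂ) *
      exp (((∑ i, (m i : UR hq) * x i : UR hq) : ℝ) * l) = 0 := by
    rw [← hP]
    refine Finset.sum_congr rfl fun m _ => ?_
    rw [hexp]
    rfl
  have hinj : Function.Injective (fun m : Fin n →₀ ℕ => ((∑ i, (m i : UR hq) * x i : UR hq) : ℝ)) := by
    intro m m' hmm
    have h1 : (∑ i, (m i : UR hq) * x i : UR hq) = ∑ i, (m' i : UR hq) * x i := Subtype.ext hmm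
    have h2 : ∑ i, ((m i : ℚ) - (m' i : ℚ)) • x i = 0 := by
      have h3 : ∀ i, ((m i : ℚ) - (m' i : ℚ)) • x i =
          (m i : UR hq) * x i - (m' i : UR hq) * x i := by
        intro i
        rw [Algebra.smul_def, map_sub, map_natCast, map_natCast, sub_mul]
      simp only [h3]
      rw [Finset.sum_sub_distrib, h1, sub_self]
    ext i
    have h4 := Fintype.linearIndependent_iff.1 hx _ h2 i
    have h5 : (m i : ℚ) = m' i := by linarith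
    exact_mod_cast h5
  have : Nonempty P.support := hne.to_subtype
  refine hl (gen_root hq (ι := P.support) l (fun m => ((P.coeff (m : Fin n →₀ ℕ) : UK hq) : ℂ))
    (fun m => ((∑ i, ((m : Fin n →₀ ℕ) i : UR hq) * x i : UR hq) : ℝ)) (fun m => (P.coeff (m : Fin n →₀ ℕ)).2)
    (fun m => (∑ i, ((m : Fin n →₀ ℕ) i : UR hq) * x i : UR hq).2) (fun m => ?_)
    (fun a b hab => Subtype.ext (hinj hab)) ?_)
  · intro h0
    have h1 := MvPolynomial.mem_support_iff.1 m.2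
    exact h1 (Subtype.ext h0)
  · rw [← hP', ← Finset.sum_coe_sort P.support (fun m : Fin n →₀ ℕ =>
      ((P.coeff m : UK hq) : ℂ) * exp (((∑ i, (m i : UR hq) * x i : UR hq) : ℝ) * l))]

omit hq in
theorem UR_unit (hq : ∀ k, 2 ≤ q k) (x : UR hq) : (x : ℝ) ∈ UR hq := x.2

/-- `π` is not in the field -/
theorem pi_notMem : ¬ Appr q ((Real.pi : ℝ) : ℂ) := by
  intro h
  have hI : Appr q I := by
    have := UK_closed hq
    refine Appr.ofAlg hq (X ^ 2 + 1) ?_ ?_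
    · intro h0
      have h1 := congrArg (fun P : ℤ[X] => P.eval 0) h0
      simp at h1
    · simp
  have h1 : Appr q ((Real.pi : ℝ) * I) := h.mul hq hI
  have h2 := algIndU hq 1 (fun _ => ⟨_, h1⟩) (by
    rw [linearIndependent_unique_iff]
    intro h0
    have h3 := congrArg Subtype.val h0
    simp at h3)
  have h3 := h2.transcendental 0
  refine h3 ?_
  have h4 : exp (((⟨_, h1⟩ : UK hq) : ℂ)) = algebraMap (UK hq) ℂ (-1) := by
    rw [map_neg, map_one]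
    exact Complex.exp_pi_mul_I
  rw [h4]
  exact isAlgebraic_algebraMap _

end

end Pool.Agent.R347.LW
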