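import Pool.Agent.R347.LW.Quant

/-!
# Approximation of algebraic functions of well approximable numbers by algebraic numbers
-/

set_option autoImplicit false

namespace Pool.Agent.R347.LW

open Polynomial Complex
open scoped Nat NNReal

variable {ι : Type*}

theorem lip (ξ : ι → ℂ) (G : MvPolynomial ι ℤ) :
    ∃ (T : Finset ι) (C : ℝ), 0 ≤ C ∧ ∀ (a : ι → ℂ) (ε : ℝ), 0 ≤ ε → ε ≤ 1 →
      (∀ i ∈ T, ‖ξ i - a i‖ ≤ ε) →
      ‖MvPolynomial.aeval ξ G - MvPolynomial.aeval a G‖ ≤ C * ε := by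
  classical
  induction G using MvPolynomial.induction_on with
  | C c => exact ⟨∅, 0, le_rfl, fun a ε _ _ _ => by simp⟩
  | add G H hG hH =>
    obtain ⟨T, C, hC, h⟩ := hG
    obtain ⟨T', C', hC', h'⟩ := hH
    refine ⟨T ∪ T', C + C', add_nonneg hC hC', fun a ε hε hε1 ha => ?_⟩
    have h1 := h a ε hε hε1 fun i hi => ha i (Finset.mem_union_left _ hi)
    have h2 := h' a ε hε hε1 fun i hi => ha i (Finset.mem_union_right _ hi)
    rw [map_add, map_add, add_sub_add_comm, add_mul]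
    exact (norm_add_le _ _).trans (add_le_add h1 h2)
  | mul_X G i hG =>
    obtain ⟨T, C, hC, h⟩ := hG
    refine ⟨insert i T, C * (‖ξ i‖ + 1) + ‖MvPolynomial.aeval ξ G‖, by positivity,
      fun a ε hε hε1 ha => ?_⟩
    have h1 := h a ε hε hε1 fun j hj => ha j (Finset.mem_insert_of_mem hj)
    have h2 := ha i (Finset.mem_insert_self _ _)
    have h3 : ‖a i‖ ≤ ‖ξ i‖ + 1 := by
      have : a i = ξ i - (ξ i - a i) := by ring
      rw [this]
      exact (norm_sub_le _ _).trans (by linarith)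
    rw [map_mul, map_mul, MvPolynomial.aeval_X, MvPolynomial.aeval_X]
    have h4 : MvPolynomial.aeval ξ G * ξ i - MvPolynomial.aeval a G * a i =
        (MvPolynomial.aeval ξ G - MvPolynomial.aeval a G) * a i +
          MvPolynomial.aeval ξ G * (ξ i - a i) := by ring
    rw [h4]
    refine (norm_add_le _ _).trans ?_
    rw [norm_mul, norm_mul]
    have h5 : ‖MvPolynomial.aeval ξ G - MvPolynomial.aeval a G‖ * ‖a i‖ ≤
        (C * ε) * (‖ξ i‖ + 1) := mul_le_mul h1 h3 (norm_nonneg _) (by positivity)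
    have h6 : ‖MvPolynomial.aeval ξ G‖ * ‖ξ i - a i‖ ≤ ‖MvPolynomial.aeval ξ G‖ * ε :=
      mul_le_mul_of_nonneg_left h2 (norm_nonneg _)
    nlinarith

theorem lips (ξ : ι → ℂ) (n : ℕ) (G : ℕ → MvPolynomial ι ℤ) :
    ∃ (T : Finset ι) (C : ℝ), 0 ≤ C ∧ ∀ (a : ι → ℂ) (ε : ℝ), 0 ≤ ε → ε ≤ 1 →
      (∀ i ∈ T, ‖ξ i - a i‖ ≤ ε) → ∀ j ≤ n,
      ‖MvPolynomial.aeval ξ (G j) - MvPolynomial.aeval a (G j)‖ ≤ C * ε := by
  classical
  choose T C hC h using fun j => lip ξ (G j)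
  refine ⟨(Finset.range (n + 1)).biUnion T, ∑ j ∈ Finset.range (n + 1), C j,
    Finset.sum_nonneg fun j _ => hC j, fun a ε hε hε1 ha j hj => ?_⟩
  have hj' : j ∈ Finset.range (n + 1) := Finset.mem_range.2 (Nat.lt_succ_iff.2 hj)
  refine (h j a ε hε hε1 fun i hi => ha i (Finset.mem_biUnion.2 ⟨j, hj', hi⟩)).trans ?_
  exact mul_le_mul_of_nonneg_right (Finset.single_le_sum (f := C) (fun j _ => hC j) hj') hε

theorem clear_one (G : MvPolynomial ι ℤ) : ∃ D : ℕ, ∀ D' ≥ D, ∀ q : ℕ, 1 ≤ q → ∀ p : ι → ℤ,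
    ∃ m : ℤ, (m : ℂ) = (q : ℂ) ^ D' * MvPolynomial.aeval (fun i => (p i : ℂ) / q) G := by
  induction G using MvPolynomial.induction_on with
  | C c => exact ⟨0, fun D' _ q _ p => ⟨q ^ D' * c, by simp⟩⟩
  | add G H hG hH =>
    obtain ⟨D, h⟩ := hG
    obtain ⟨D₂, h₂⟩ := hH
    refine ⟨max D D₂, fun D' hD' q hq p => ?_⟩
    obtain ⟨m, hm⟩ := h D' (le_trans (le_max_left _ _) hD') q hq p
    obtain ⟨m₂, hm₂⟩ := h₂ D' (le_trans (le_max_right _ _) hD') q hq p
    exact ⟨m + m₂, by rw [map_add, mul_add, ← hm, ← hm₂]; push_cast; ring⟩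
  | mul_X G i hG =>
    obtain ⟨D, h⟩ := hG
    refine ⟨D + 1, fun D' hD' q hq p => ?_⟩
    obtain ⟨D'', rfl⟩ : ∃ D'', D' = D'' + 1 := ⟨D' - 1, by omega⟩
    obtain ⟨m, hm⟩ := h D'' (by omega) q hq p
    refine ⟨m * p i, ?_⟩
    have hq0 : (q : ℂ) ≠ 0 := by exact_mod_cast (by omega : q ≠ 0)
    rw [map_mul, MvPolynomial.aeval_X]
    push_cast
    rw [hm, pow_succ]
    field_simp

theorem clear_all (n : ℕ) (G : ℕ → MvPolynomial ι ℤ) : ∃ D : ℕ, ∀ q : ℕ, 1 ≤ q →
    ∀ p : ι → ℤ, ∀ j ≤ n,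
    ∃ m : ℤ, (m : ℂ) = (q : ℂ) ^ D * MvPolynomial.aeval (fun i => (p i : ℂ) / q) (G j) := by
  choose D hD using fun j => clear_one (G j)
  refine ⟨∑ j ∈ Finset.range (n + 1), D j, fun q hq p j hj => ?_⟩
  exact hD j _ (Finset.single_le_sum (f := D) (fun _ _ => Nat.zero_le _)
    (Finset.mem_range.2 (Nat.lt_succ_iff.2 hj))) q hq p

/-- a root near a point where the polynomial is small -/
theorem near_root (f : ℂ[X]) (n : ℕ) (hn : f.natDegree = n) (hn1 : 1 ≤ n) (α : ℂ) :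
    ∃ r : ℂ, f.eval r = 0 ∧ ‖f.leadingCoeff‖ * ‖α - r‖ ^ n ≤ ‖f.eval α‖ := by
  classical
  have hf0 : f ≠ 0 := by rintro rfl; simp at hn; omega
  have hsp : f.Splits := IsAlgClosed.splits f
  have hcard : f.roots.card = n := by
    rw [← hn]; exact hsp.natDegree_eq_card_roots.symm
  have hne : f.roots.toFinset.Nonempty := by
    rw [Multiset.toFinset_nonempty]
    intro h0
    rw [h0] at hcard
    simp at hcard
    omega
  obtain ⟨r, hr, hmin⟩ := Finset.exists_min_image f.roots.toFinset (fun r => ‖α - r‖) hne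
  refine ⟨r, ?_, ?_⟩
  · rw [Multiset.mem_toFinset, mem_roots hf0] at hr
    exact hr
  · rw [hsp.eval_eq_prod_roots, norm_mul]
    refine mul_le_mul_of_nonneg_left ?_ (norm_nonneg _)
    have h1 : ∀ s : Multiset ℂ, (∀ x ∈ s, ‖α - r‖ ≤ ‖α - x‖) →
        ‖α - r‖ ^ s.card ≤ ‖(s.map (fun x => α - x)).prod‖ := by
      intro s
      induction s using Multiset.induction_on with
      | empty => intro _; simp
      | cons a s ih =>
        intro h
        rw [Multiset.card_cons, Multiset.map_cons, Multiset.prod_cons, norm_mul, pow_succ']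
        exact mul_le_mul (h a (Multiset.mem_cons_self _ _))
          (ih fun x hx => h x (Multiset.mem_cons_of_mem hx)) (by positivity) (norm_nonneg _)
    have h2 := h1 f.roots fun x hx => hmin x (Multiset.mem_toFinset.2 hx)
    rwa [hcard] at h2

theorem clear_rat (R : MvPolynomial ι ℚ) : ∃ (d : ℕ), d ≠ 0 ∧ ∃ R' : MvPolynomial ι ℤ,
    ∀ ξ : ι → ℂ, MvPolynomial.aeval ξ R' = (d : ℂ) * MvPolynomial.aeval ξ R := by
  induction R using MvPolynomial.induction_on with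
  | C c =>
    refine ⟨c.den, c.den_ne_zero, MvPolynomial.C c.num, fun ξ => ?_⟩
    rw [MvPolynomial.aeval_C, MvPolynomial.aeval_C, eq_intCast, eq_ratCast]
    have h1 : ((c.den : ℚ) : ℂ) * (c : ℂ) = ((c.num : ℚ) : ℂ) := by
      rw [← Rat.cast_mul, mul_comm, Rat.mul_den_eq_num]
    push_cast at h1
    exact h1.symm
  | add R S hR hS =>
    obtain ⟨d, hd, R', h⟩ := hR
    obtain ⟨e, he, S', h'⟩ := hS
    refine ⟨d * e, mul_ne_zero hd he, MvPolynomial.C (e : ℤ) * R' + MvPolynomial.C (d : ℤ) * S',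
      fun ξ => ?_⟩
    rw [map_add, map_mul, map_mul, h, h', MvPolynomial.aeval_C, MvPolynomial.aeval_C, map_add]
    simp only [eq_intCast, Int.cast_natCast]
    push_cast
    ring
  | mul_X R i hR =>
    obtain ⟨d, hd, R', h⟩ := hR
    refine ⟨d, hd, R' * MvPolynomial.X i, fun ξ => ?_⟩
    rw [map_mul, map_mul, h, MvPolynomial.aeval_X, MvPolynomial.aeval_X]
    ring

theorem exists_den_one (ξ : ι → ℂ) (x : ℂ)
    (hx : x ∈ IntermediateField.adjoin ℚ (Set.range ξ)) :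
    ∃ a b : MvPolynomial ι ℤ, MvPolynomial.aeval ξ b ≠ 0 ∧
      MvPolynomial.aeval ξ b * x = MvPolynomial.aeval ξ a := by
  obtain ⟨r, s, hrs⟩ := (IntermediateField.mem_adjoin_range_iff ℚ ξ x).1 hx
  by_cases hs : MvPolynomial.aeval ξ s = 0
  · refine ⟨0, 1, by simp, ?_⟩
    rw [hrs, hs]; simp
  · obtain ⟨d, hd, r', hr'⟩ := clear_rat r
    obtain ⟨e, he, s', hs'⟩ := clear_rat s
    have hdC : (d : ℂ) ≠ 0 := by exact_mod_cast hd
    have heC : (e : ℂ) ≠ 0 := by exact_mod_cast he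
    refine ⟨MvPolynomial.C (e : ℤ) * r', MvPolynomial.C (d : ℤ) * s', ?_, ?_⟩
    · rw [map_mul, hs', MvPolynomial.aeval_C]
      simp only [eq_intCast, Int.cast_natCast]
      exact mul_ne_zero hdC (mul_ne_zero heC hs)
    · rw [map_mul, map_mul, hs', hr', hrs, MvPolynomial.aeval_C, MvPolynomial.aeval_C]
      simp only [eq_intCast, Int.cast_natCast]
      field_simp

theorem exists_den (ξ : ι → ℂ) (n : ℕ) (x : ℕ → ℂ)
    (hx : ∀ j, x j ∈ IntermediateField.adjoin ℚ (Set.range ξ)) :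
    ∃ (b : MvPolynomial ι ℤ) (a : ℕ → MvPolynomial ι ℤ), MvPolynomial.aeval ξ b ≠ 0 ∧
      ∀ j < n, MvPolynomial.aeval ξ b * x j = MvPolynomial.aeval ξ (a j) := by
  classical
  choose a b hb h using fun j => exists_den_one ξ (x j) (hx j)
  refine ⟨∏ j ∈ Finset.range n, b j, fun j => (∏ k ∈ (Finset.range n).erase j, b k) * a j, ?_, ?_⟩
  · rw [map_prod]
    exact Finset.prod_ne_zero_iff.2 fun j _ => hb j
  · intro j hj
    rw [← Finset.prod_erase_mul _ _ (Finset.mem_range.2 hj), map_mul, map_mul, mul_assoc, h]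

theorem exists_eq (ξ : ι → ℂ) (α : ℂ)
    (hα : IsAlgebraic (IntermediateField.adjoin ℚ (Set.range ξ)) α) :
    ∃ (n : ℕ) (G : ℕ → MvPolynomial ι ℤ), 1 ≤ n ∧ MvPolynomial.aeval ξ (G n) ≠ 0 ∧
      ∑ j ∈ Finset.range (n + 1), MvPolynomial.aeval ξ (G j) * α ^ j = 0 := by
  classical
  have hint := hα.isIntegral
  set P := minpoly (IntermediateField.adjoin ℚ (Set.range ξ)) α with hP
  have hmon : P.Monic := minpoly.monic hint
  set n := P.natDegree with hn
  have hn1 : 1 ≤ n := minpoly.natDegree_pos hint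
  obtain ⟨b, a, hb, hab⟩ := exists_den ξ n (fun j => (P.coeff j : ℂ)) (fun j => (P.coeff j).2)
  refine ⟨n, fun j => if j = n then b else a j, hn1, by simpa using hb, ?_⟩
  have h1 : ∑ j ∈ Finset.range (n + 1), (P.coeff j : ℂ) * α ^ j = 0 := by
    have h2 : aeval α P = 0 := minpoly.aeval _ _
    rw [aeval_eq_sum_range] at h2
    rw [← h2]
    refine Finset.sum_congr rfl fun j _ => ?_
    rw [Algebra.smul_def]
    rfl
  have h2 : ∀ j ∈ Finset.range (n + 1), MvPolynomial.aeval ξ (if j = n then b else a j) * α ^ j =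
      MvPolynomial.aeval ξ b * ((P.coeff j : ℂ) * α ^ j) := by
    intro j hj
    by_cases hjn : j = n
    · rw [if_pos hjn, hjn]
      have h3 : P.coeff n = 1 := hmon.coeff_natDegree
      rw [h3]
      simp
    · rw [if_neg hjn, ← hab j (by have := Finset.mem_range.1 hj; omega)]
      ring
  rw [Finset.sum_congr rfl h2, ← Finset.mul_sum, h1, mul_zero]

end Pool.Agent.R347.LW
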