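import Pool.Agent.R347.LW.App

/-!
# The Lindemann-Weierstrass theorem over the algebraic closure of an ultra-Liouville field
-/

set_option autoImplicit false

namespace Pool.Agent.R347.LW

open Polynomial Complex
open scoped Nat NNReal

variable {ι : Type*}

theorem RB.mono {d N d' N' : ℕ} {a : ℂ} (h : RB d N a) (hd : d ≤ d') (hN : N ≤ N') :
    RB d' N' a := by
  obtain ⟨P, h1, h2, h3, h4⟩ := h
  exact ⟨P, h1, h2.trans hd, fun n => (h3 n).trans (by exact_mod_cast hN), h4⟩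

theorem exp_neg_le {x y : ℝ} (hx : 0 < x) (h : x⁻¹ ≤ y) : Real.exp (-y) ≤ x := by
  rw [Real.exp_neg]
  rw [inv_le_comm₀ (Real.exp_pos _) hx]
  have := Real.add_one_le_exp y
  linarith

theorem approx_alg (ξ : ι → ℝ) (α : ℂ)
    (hα : IsAlgebraic (IntermediateField.adjoin ℚ (Set.range (fun i => (ξ i : ℂ)))) α) :
    ∃ (T : Finset ι) (n N₀ : ℕ), ∀ κ' : ℕ, ∃ κ : ℕ, ∀ q : ℕ, 2 ≤ q → ∀ p : ι → ℤ,
      (∀ i ∈ T, |ξ i - p i / q| ≤ Real.exp (-((q : ℝ) ^ κ))) →
      ∃ α' : ℂ, RB n (q ^ N₀) α' ∧ ‖α - α'‖ ≤ Real.exp (-((q : ℝ) ^ κ')) := by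
  classical
  obtain ⟨n, G, hn1, hGn, hsum⟩ := exists_eq _ α hα
  obtain ⟨T, C, hC, hlip⟩ := lips (fun i => (ξ i : ℂ)) n G
  obtain ⟨D, hD⟩ := clear_all n G
  set ξC : ι → ℂ := fun i => (ξ i : ℂ) with hξC
  set c : ℝ := ‖MvPolynomial.aeval ξC (G n)‖ with hc
  have hc0 : 0 < c := norm_pos_iff.2 hGn
  set A : ℝ := ∑ j ∈ Finset.range (n + 1), ‖α‖ ^ j with hA
  have hA0 : 0 ≤ A := Finset.sum_nonneg fun j _ => by positivity
  set M : ℝ := ∑ j ∈ Finset.range (n + 1), ‖MvPolynomial.aeval ξC (G j)‖ + C with hM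
  obtain ⟨c₀, hc₀⟩ := pow_unbounded_of_one_lt M (one_lt_two : (1 : ℝ) < 2)
  set c₃ : ℕ := ⌈C * A * 2 / c⌉₊ with hc₃
  set c₄ : ℕ := ⌈2 * C / c⌉₊ with hc₄
  refine ⟨T, n, D + c₀, fun κ' => ⟨κ' + (n + c₃ + c₄), fun q hq p hp => ?_⟩⟩
  have hqR : (2 : ℝ) ≤ q := by exact_mod_cast hq
  have hq1 : (1 : ℝ) ≤ q := by linarith
  have hq0 : (0 : ℝ) < q := by linarith
  have hqC : (q : ℂ) ≠ 0 := by exact_mod_cast (by omega : q ≠ 0)
  set κ : ℕ := κ' + (n + c₃ + c₄) with hκ
  set ε : ℝ := Real.exp (-((q : ℝ) ^ κ)) with hε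
  have hε0 : 0 < ε := Real.exp_pos _
  have hε1 : ε ≤ 1 := by
    rw [hε]
    apply Real.exp_le_one_iff.2
    have : 0 ≤ (q : ℝ) ^ κ := by positivity
    linarith
  set a : ι → ℂ := fun i => (p i : ℂ) / q with ha
  have haξ : ∀ i ∈ T, ‖ξC i - a i‖ ≤ ε := by
    intro i hi
    have h1 : ξC i - a i = ((ξ i - p i / q : ℝ) : ℂ) := by
      rw [hξC, ha]; push_cast; rfl
    rw [h1, Complex.norm_real]
    exact hp i hi
  have hl := hlip a ε hε0.le hε1 haξ
  -- powers
  have hpow : ∀ m : ℕ, ((m : ℝ) + 1) ≤ (q : ℝ) ^ m := by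
    intro m
    have h1 : m + 1 ≤ 2 ^ m := Nat.lt_two_pow_self
    have h2 : ((m : ℝ) + 1) ≤ 2 ^ m := by exact_mod_cast h1
    exact h2.trans (pow_le_pow_left₀ (by norm_num) hqR m)
  have hκ1 : (n : ℝ) * (q : ℝ) ^ κ' + c₃ ≤ (q : ℝ) ^ κ := by
    rw [hκ, pow_add]
    have h1 := hpow (n + c₃ + c₄)
    have h2 : (1 : ℝ) ≤ (q : ℝ) ^ κ' := one_le_pow₀ hq1
    push_cast at h1
    have h3 : (0 : ℝ) ≤ c₄ := by positivity
    have h4 : (0 : ℝ) ≤ c₃ := by positivity
    have h5 : (q : ℝ) ^ κ' * ((n : ℝ) + c₃ + c₄ + 1) ≤ (q : ℝ) ^ κ' * (q : ℝ) ^ (n + c₃ + c₄) :=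
      mul_le_mul_of_nonneg_left h1 (by positivity)
    nlinarith
  have hCε : C * ε ≤ c / 2 := by
    have h1 : 2 * C / c ≤ c₄ := Nat.le_ceil _
    have h2 : (c₄ : ℝ) ≤ (q : ℝ) ^ κ := by
      have h3 := hpow κ
      have h4 : (c₄ : ℝ) ≤ κ := by exact_mod_cast (by omega : c₄ ≤ κ)
      linarith
    have h3 := Real.add_one_le_exp ((q : ℝ) ^ κ)
    have h4 : 2 * C / c ≤ Real.exp ((q : ℝ) ^ κ) := by linarith
    rw [div_le_iff₀ hc0] at h4
    rw [hε, Real.exp_neg]
    rw [← div_eq_mul_inv, div_le_iff₀ (Real.exp_pos _)]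
    linarith
  -- the polynomial
  set f : ℂ[X] := ∑ j ∈ Finset.range (n + 1), Polynomial.C (MvPolynomial.aeval a (G j)) * X ^ j
    with hf
  have hfc : ∀ k, f.coeff k = if k ≤ n then MvPolynomial.aeval a (G k) else 0 := by
    intro k
    rw [hf, finsetSum_coeff]
    simp only [coeff_C_mul_X_pow]
    rw [Finset.sum_ite_eq]
    simp [Nat.lt_succ_iff]
  have hGa : c / 2 ≤ ‖MvPolynomial.aeval a (G n)‖ := by
    have h1 := hl n le_rfl
    have h2 := norm_sub_norm_le (MvPolynomial.aeval ξC (G n)) (MvPolynomial.aeval a (G n))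
    linarith
  have hGa0 : MvPolynomial.aeval a (G n) ≠ 0 := by
    intro h0
    rw [h0, norm_zero] at hGa
    linarith
  have hdeg : f.natDegree = n := by
    refine natDegree_eq_of_le_of_coeff_ne_zero ?_ ?_
    · rw [natDegree_le_iff_coeff_eq_zero]
      intro k hk
      rw [hfc, if_neg (by omega)]
    · rw [hfc, if_pos le_rfl]
      exact hGa0
  have hlead : f.leadingCoeff = MvPolynomial.aeval a (G n) := by
    rw [Polynomial.leadingCoeff, hdeg, hfc, if_pos le_rfl]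
  obtain ⟨r, hr, hrα⟩ := near_root f n hdeg hn1 α
  rw [hlead] at hrα
  have hfα : ‖f.eval α‖ ≤ C * ε * A := by
    have h1 : f.eval α = ∑ j ∈ Finset.range (n + 1),
        -((MvPolynomial.aeval ξC (G j) - MvPolynomial.aeval a (G j)) * α ^ j) := by
      rw [hf, eval_finsetSum]
      simp only [eval_mul, eval_C, eval_pow, eval_X]
      rw [← sub_zero (∑ j ∈ Finset.range (n + 1), MvPolynomial.aeval a (G j) * α ^ j), ← hsum,
        ← Finset.sum_sub_distrib]
      refine Finset.sum_congr rfl fun j _ => ?_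
      ring
    rw [h1, hA, Finset.mul_sum]
    refine norm_sum_le_of_le _ fun j hj => ?_
    rw [norm_neg, norm_mul, norm_pow]
    exact mul_le_mul_of_nonneg_right (hl j (Nat.lt_succ_iff.1 (Finset.mem_range.1 hj)))
      (by positivity)
  refine ⟨r, ?_, ?_⟩
  · choose! m hm using fun j (hj : j ≤ n) => hD q (by omega) p j hj
    set P : ℤ[X] := ∑ j ∈ Finset.range (n + 1), Polynomial.C (m j) * X ^ j with hP
    have hPc : ∀ k, P.coeff k = if k ≤ n then m k else 0 := by
      intro k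
      rw [hP, finsetSum_coeff]
      simp only [coeff_C_mul_X_pow]
      rw [Finset.sum_ite_eq]
      simp [Nat.lt_succ_iff]
    refine ⟨P, ?_, ?_, ?_, ?_⟩
    · intro h0
      have h1 := hPc n
      rw [h0, if_pos le_rfl, coeff_zero] at h1
      have h2 := hm n le_rfl
      rw [← h1, Int.cast_zero] at h2
      exact mul_ne_zero (pow_ne_zero D hqC) hGa0 h2.symm
    · rw [natDegree_le_iff_coeff_eq_zero]
      intro k hk
      rw [hPc, if_neg (by omega)]
    · intro k
      rw [hPc]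
      split_ifs with hk
      · have h1 : ((|m k| : ℤ) : ℝ) ≤ (q : ℝ) ^ (D + c₀) := by
          have h2 : ((|m k| : ℤ) : ℝ) = ‖((m k : ℤ) : ℂ)‖ := by
            rw [Complex.norm_intCast, Int.cast_abs]
          rw [h2, hm k hk, norm_mul, norm_pow, Complex.norm_natCast, pow_add]
          refine mul_le_mul_of_nonneg_left ?_ (by positivity)
          have h3 : ‖MvPolynomial.aeval a (G k)‖ ≤ M := by
            have h4 := hl k hk
            have h5 := norm_sub_norm_le (MvPolynomial.aeval a (G k)) (MvPolynomial.aeval ξC (G k))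
            rw [norm_sub_rev] at h5
            have h6 : ‖MvPolynomial.aeval ξC (G k)‖ ≤
                ∑ j ∈ Finset.range (n + 1), ‖MvPolynomial.aeval ξC (G j)‖ :=
              Finset.single_le_sum (f := fun j => ‖MvPolynomial.aeval ξC (G j)‖)
                (fun j _ => norm_nonneg _) (Finset.mem_range.2 (Nat.lt_succ_iff.2 hk))
            have h7 : C * ε ≤ C := mul_le_of_le_one_right hC hε1
            rw [hM]
            linarith
          exact h3.trans (hc₀.le.trans (pow_le_pow_left₀ (by norm_num) hqR c₀))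
        exact_mod_cast h1
      · simp
    · have h1 : aeval r P = (q : ℂ) ^ D * f.eval r := by
        rw [hP, hf, map_sum, eval_finsetSum, Finset.mul_sum]
        refine Finset.sum_congr rfl fun j hj => ?_
        simp only [eval_mul, eval_C, eval_pow, eval_X]
        rw [map_mul, map_pow, aeval_X, aeval_C, eq_intCast,
          hm j (Nat.lt_succ_iff.1 (Finset.mem_range.1 hj))]
        ring
      rw [h1, hr, mul_zero]
  · have h1 : c / 2 * ‖α - r‖ ^ n ≤ C * ε * A :=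
      (mul_le_mul_of_nonneg_right hGa (by positivity)).trans (hrα.trans hfα)
    have h2 : ‖α - r‖ ^ n ≤ (C * A * 2 / c) * ε := by
      rw [div_mul_eq_mul_div, le_div_iff₀ hc0]
      linarith
    have h3 : C * A * 2 / c ≤ Real.exp c₃ := by
      have h4 : C * A * 2 / c ≤ c₃ := Nat.le_ceil _
      have h5 := Real.add_one_le_exp (c₃ : ℝ)
      linarith
    have h4 : ‖α - r‖ ^ n ≤ Real.exp (-((q : ℝ) ^ κ')) ^ n := by
      refine h2.trans ((mul_le_mul_of_nonneg_right h3 hε0.le).trans ?_)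
      rw [hε, ← Real.exp_add, ← Real.exp_nat_mul]
      apply Real.exp_le_exp.2
      linarith
    exact le_of_pow_le_pow_left₀ (by omega) (Real.exp_pos _).le h4

/-- A set of real numbers is ultra-Liouville if finitely many of its elements always have
simultaneous rational approximations which are closer than the exponential of minus an arbitrarily
large power of the common denominator. -/
def UltraLiouville (S : Set ℝ) : Prop :=
  ∀ T : Finset ℝ, (T : Set ℝ) ⊆ S → ∀ κ : ℕ, ∃ q : ℕ, 2 ≤ q ∧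
    ∀ ξ ∈ T, ∃ p : ℤ, |ξ - p / q| ≤ Real.exp (-((q : ℝ) ^ κ))

theorem lw_main (S : Set ℝ) (hS : UltraLiouville S) (M : ℕ) (w c : Fin M → ℂ)
    (hw : ∀ i, IsAlgebraic (IntermediateField.adjoin ℚ (Complex.ofReal '' S)) (w i))
    (hc : ∀ i, IsAlgebraic (IntermediateField.adjoin ℚ (Complex.ofReal '' S)) (c i))
    (hinj : Function.Injective w) (h : ∑ i, c i * Complex.exp (w i) = 0) : ∀ i, c i = 0 := by
  classical
  by_contra hcon
  push Not at hcon
  obtain ⟨i₀, hi₀⟩ := hcon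
  have hrange : Complex.ofReal '' S = Set.range (fun s : S => ((s : ℝ) : ℂ)) :=
    Set.image_eq_range _ _
  rw [hrange] at hw hc
  choose Tw nw Nw hw' using fun i => approx_alg (fun s : S => (s : ℝ)) (w i) (hw i)
  choose Tc nc Nc hc' using fun i => approx_alg (fun s : S => (s : ℝ)) (c i) (hc i)
  set d : ℕ := ∑ i, (nw i + nc i) with hd
  set N : ℕ := 1 + ∑ i, (Nw i + Nc i) with hN
  have hdw : ∀ i, nw i ≤ d := fun i => (Nat.le_add_right _ _).trans
    (Finset.single_le_sum (f := fun i => nw i + nc i) (fun _ _ => Nat.zero_le _)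
      (Finset.mem_univ i))
  have hdc : ∀ i, nc i ≤ d := fun i => (Nat.le_add_left _ _).trans
    (Finset.single_le_sum (f := fun i => nw i + nc i) (fun _ _ => Nat.zero_le _)
      (Finset.mem_univ i))
  have hNw : ∀ i, Nw i ≤ N := fun i => by
    have := Finset.single_le_sum (f := fun i => Nw i + Nc i) (fun _ _ => Nat.zero_le _)
      (Finset.mem_univ i)
    omega
  have hNc : ∀ i, Nc i ≤ N := fun i => by
    have := Finset.single_le_sum (f := fun i => Nw i + Nc i) (fun _ _ => Nat.zero_le _)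
      (Finset.mem_univ i)
    omega
  obtain ⟨κ₂, hκ₂⟩ := quant M d
  -- the distances
  obtain ⟨δ, hδ0, hδ1, hδc, hδw⟩ : ∃ δ : ℝ, 0 < δ ∧ δ ≤ 1 ∧ δ < ‖c i₀‖ ∧
      ∀ i j, i ≠ j → 2 * δ < ‖w i - w j‖ := by
    have h1 : ∀ P : Finset (Fin M × Fin M), ∃ δ : ℝ, 0 < δ ∧ δ ≤ 1 ∧ δ < ‖c i₀‖ ∧
        ∀ x ∈ P, x.1 ≠ x.2 → 2 * δ < ‖w x.1 - w x.2‖ := by
      intro P
      induction P using Finset.induction_on with
      | empty =>
        have : 0 < ‖c i₀‖ := norm_pos_iff.2 hi₀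
        refine ⟨min 1 (‖c i₀‖ / 2), by positivity, min_le_left _ _, ?_, by simp⟩
        exact (min_le_right _ _).trans_lt (by linarith)
      | insert x P hx ih =>
        obtain ⟨δ, h0, h1, h2, h3⟩ := ih
        by_cases hx2 : x.1 = x.2
        · refine ⟨δ, h0, h1, h2, fun y hy hne => ?_⟩
          rcases Finset.mem_insert.1 hy with rfl | hy
          · exact absurd hx2 hne
          · exact h3 y hy hne
        · have h4 : 0 < ‖w x.1 - w x.2‖ := norm_pos_iff.2 (sub_ne_zero.2 fun h => hx2 (hinj h))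
          refine ⟨min δ (‖w x.1 - w x.2‖ / 4), by positivity, (min_le_left _ _).trans h1,
            (min_le_left _ _).trans_lt h2, fun y hy hne => ?_⟩
          rcases Finset.mem_insert.1 hy with rfl | hy
          · have := min_le_right δ (‖w y.1 - w y.2‖ / 4)
            linarith
          · have := min_le_left δ (‖w x.1 - w x.2‖ / 4)
            have := h3 y hy hne
            linarith
    obtain ⟨δ, h0, h1, h2, h3⟩ := h1 Finset.univ
    exact ⟨δ, h0, h1, h2, fun i j hij => h3 (i, j) (Finset.mem_univ _) hij⟩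
  set B : ℝ := ∑ i, (Real.exp (‖w i‖ + 1) + ‖c i‖ * (Real.exp ‖w i‖ * 2)) with hB
  set b : ℕ := ⌈B⌉₊ with hb
  set b' : ℕ := ⌈δ⁻¹⌉₊ with hb'
  set κ' : ℕ := N * κ₂ + (1 + b + b') with hκ'
  choose κw hκw using fun i => hw' i κ'
  choose κc hκc using fun i => hc' i κ'
  set κ : ℕ := ∑ i, (κw i + κc i) with hκ
  have hκwle : ∀ i, κw i ≤ κ := fun i => (Nat.le_add_right _ _).trans
    (Finset.single_le_sum (f := fun i => κw i + κc i) (fun _ _ => Nat.zero_le _)
      (Finset.mem_univ i))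
  have hκcle : ∀ i, κc i ≤ κ := fun i => (Nat.le_add_left _ _).trans
    (Finset.single_le_sum (f := fun i => κw i + κc i) (fun _ _ => Nat.zero_le _)
      (Finset.mem_univ i))
  set T : Finset ℝ := (Finset.univ.biUnion fun i => Tw i ∪ Tc i).image (fun s : S => (s : ℝ))
    with hT
  have hTS : (T : Set ℝ) ⊆ S := by
    intro x hx
    rw [Finset.mem_coe, hT, Finset.mem_image] at hx
    obtain ⟨s, _, rfl⟩ := hx
    exact s.2
  obtain ⟨q, hq, hp⟩ := hS T hTS κ
  choose! p hp using hp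
  have hqR : (2 : ℝ) ≤ q := by exact_mod_cast hq
  have hq1 : (1 : ℝ) ≤ q := by linarith
  have hmemw : ∀ i, ∀ s ∈ Tw i, (s : ℝ) ∈ T := fun i s hs =>
    Finset.mem_image_of_mem _ (Finset.mem_biUnion.2 ⟨i, Finset.mem_univ _,
      Finset.mem_union_left _ hs⟩)
  have hmemc : ∀ i, ∀ s ∈ Tc i, (s : ℝ) ∈ T := fun i s hs =>
    Finset.mem_image_of_mem _ (Finset.mem_biUnion.2 ⟨i, Finset.mem_univ _,
      Finset.mem_union_right _ hs⟩)
  have hexpm : ∀ k ≤ κ, Real.exp (-((q : ℝ) ^ κ)) ≤ Real.exp (-((q : ℝ) ^ k)) := by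
    intro k hk
    apply Real.exp_le_exp.2
    exact neg_le_neg (pow_le_pow_right₀ hq1 hk)
  choose w' hw'1 hw'2 using fun i => hκw i q hq (fun s : S => p s) fun s hs =>
    (hp s (hmemw i s hs)).trans (hexpm _ (hκwle i))
  choose c' hc'1 hc'2 using fun i => hκc i q hq (fun s : S => p s) fun s hs =>
    (hp s (hmemc i s hs)).trans (hexpm _ (hκcle i))
  set e : ℝ := Real.exp (-((q : ℝ) ^ κ')) with he
  have he0 : 0 < e := Real.exp_pos _
  have hpow : ∀ m : ℕ, ((m : ℝ) + 1) ≤ (q : ℝ) ^ m := by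
    intro m
    have h1 : m + 1 ≤ 2 ^ m := Nat.lt_two_pow_self
    have h2 : ((m : ℝ) + 1) ≤ 2 ^ m := by exact_mod_cast h1
    exact h2.trans (pow_le_pow_left₀ (by norm_num) hqR m)
  have heδ : e ≤ δ := by
    refine exp_neg_le hδ0 ?_
    have h1 : δ⁻¹ ≤ b' := Nat.le_ceil _
    have h2 := hpow κ'
    have h3 : (b' : ℝ) ≤ κ' := by exact_mod_cast (by omega : b' ≤ κ')
    linarith
  have hinj' : Function.Injective w' := by
    intro i j hij
    by_contra hne
    have h1 := hδw i j hne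
    have h2 : w i - w j = (w i - w' i) - (w j - w' j) := by rw [hij]; ring
    have h3 : ‖w i - w j‖ ≤ e + e := by
      rw [h2]
      exact (norm_sub_le _ _).trans (add_le_add (hw'2 i) (hw'2 j))
    linarith
  have hc'0 : c' i₀ ≠ 0 := by
    intro h0
    have h1 := hc'2 i₀
    rw [h0, sub_zero] at h1
    linarith
  have hqN : 2 ≤ q ^ N := by
    calc 2 ≤ q ^ 1 := by simpa using hq
      _ ≤ q ^ N := Nat.pow_le_pow_right (by omega) (by omega)
  have hlow := hκ₂ (q ^ N) hqN w' c' hinj' ⟨i₀, hc'0⟩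
    (fun i => (hw'1 i).mono (hdw i) (Nat.pow_le_pow_right (by omega) (hNw i)))
    (fun i => (hc'1 i).mono (hdc i) (Nat.pow_le_pow_right (by omega) (hNc i)))
  have hup : ‖∑ i, c' i * Complex.exp (w' i)‖ ≤ e * B := by
    have h1 : ∑ i, c' i * Complex.exp (w' i) =
        ∑ i, (c' i * Complex.exp (w' i) - c i * Complex.exp (w i)) := by
      rw [Finset.sum_sub_distrib, h, sub_zero]
    rw [h1, hB, Finset.mul_sum]
    refine norm_sum_le_of_le _ fun i _ => ?_
    have h2 : c' i * Complex.exp (w' i) - c i * Complex.exp (w i) =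
        -((c i - c' i) * Complex.exp (w' i)) +
          c i * (Complex.exp (w i) * (Complex.exp (w' i - w i) - 1)) := by
      rw [mul_sub, ← Complex.exp_add]
      have : w i + (w' i - w i) = w' i := by ring
      rw [this]
      ring
    rw [h2]
    have h3 : ‖w' i - w i‖ ≤ e := by rw [norm_sub_rev]; exact hw'2 i
    have h4 : ‖w' i‖ ≤ ‖w i‖ + 1 := by
      have : w' i = w i + (w' i - w i) := by ring
      rw [this]
      exact (norm_add_le _ _).trans (by linarith)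
    have h5 : ‖Complex.exp (w' i)‖ ≤ Real.exp (‖w i‖ + 1) :=
      (Complex.norm_exp_le_exp_norm _).trans (Real.exp_le_exp.2 h4)
    have h6 : ‖Complex.exp (w' i - w i) - 1‖ ≤ 2 * e :=
      (Complex.norm_exp_sub_one_le (by linarith)).trans (by linarith)
    have h7 : ‖Complex.exp (w i)‖ ≤ Real.exp ‖w i‖ := Complex.norm_exp_le_exp_norm _
    refine (norm_add_le _ _).trans ?_
    rw [norm_neg, norm_mul, norm_mul, norm_mul]
    have h8 : ‖c i - c' i‖ * ‖Complex.exp (w' i)‖ ≤ e * Real.exp (‖w i‖ + 1) :=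
      mul_le_mul (hc'2 i) h5 (norm_nonneg _) he0.le
    have h9 : ‖c i‖ * (‖Complex.exp (w i)‖ * ‖Complex.exp (w' i - w i) - 1‖) ≤
        ‖c i‖ * (Real.exp ‖w i‖ * (2 * e)) :=
      mul_le_mul_of_nonneg_left (mul_le_mul h7 h6 (norm_nonneg _) (Real.exp_pos _).le)
        (norm_nonneg _)
    calc _ ≤ e * Real.exp (‖w i‖ + 1) + ‖c i‖ * (Real.exp ‖w i‖ * (2 * e)) := add_le_add h8 h9
      _ = _ := by ring
  have hfin := hlow.trans hup
  push_cast at hfin
  rw [← pow_mul] at hfin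
  have h1 : B < Real.exp ((q : ℝ) ^ κ' - (q : ℝ) ^ (N * κ₂)) := by
    have h2 : B ≤ b := Nat.le_ceil _
    have h3 : (b : ℝ) + 1 ≤ (q : ℝ) ^ κ' - (q : ℝ) ^ (N * κ₂) := by
      rw [hκ', pow_add]
      have h4 := hpow (1 + b + b')
      have h5 : (1 : ℝ) ≤ (q : ℝ) ^ (N * κ₂) := one_le_pow₀ hq1
      push_cast at h4
      have h6 : (0 : ℝ) ≤ b' := by positivity
      have h7 : (0 : ℝ) ≤ b := by positivity
      nlinarith
    have h4 := Real.add_one_le_exp ((q : ℝ) ^ κ' - (q : ℝ) ^ (N * κ₂))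
    linarith
  rw [he, Real.exp_sub, lt_div_iff₀ (Real.exp_pos _)] at *
  have h2 : Real.exp (-(q : ℝ) ^ κ') * B * (Real.exp ((q : ℝ) ^ κ') * Real.exp ((q : ℝ) ^ (N * κ₂)))
      = B * Real.exp ((q : ℝ) ^ (N * κ₂)) := by
    rw [Real.exp_neg]
    field_simp
  have h3 := mul_le_mul_of_nonneg_right hfin
    (mul_pos (Real.exp_pos ((q : ℝ) ^ κ')) (Real.exp_pos ((q : ℝ) ^ (N * κ₂)))).le
  rw [h2] at h3
  have h4 : Real.exp (-(q : ℝ) ^ (N * κ₂)) * (Real.exp ((q : ℝ) ^ κ') *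
      Real.exp ((q : ℝ) ^ (N * κ₂))) = Real.exp ((q : ℝ) ^ κ') := by
    rw [Real.exp_neg]
    field_simp
  rw [h4] at h3
  linarith

end Pool.Agent.R347.LW
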