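import Pool.Agent.R347.LW.QuantE
import Pool.Agent.R347.LW.App2

/-!
# The field of the numbers which are very well approximable by algebraic numbers
-/

set_option autoImplicit false

namespace Pool.Agent.R347.LW

open Polynomial Complex
open scoped Nat NNReal

/-- `z` has algebraic approximations with an error which is smaller than the inverse of any tower in
`q k`, and with degrees and coefficients bounded by a fixed tower in `q k`, for all large `k` -/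
def Appr (q : ℕ → ℕ) (z : ℂ) : Prop :=
  ∃ h : ℕ, ∀ κ : ℕ, ∃ k₀ : ℕ, ∀ k ≥ k₀, ∃ a : ℂ, RB (tow h (q k)) (tow h (q k)) a ∧
    ‖z - a‖ ≤ ((tow κ (q k) : ℕ) : ℝ)⁻¹

theorem tow_sq_lt (h q : ℕ) : tow h q * tow h q < tow (h + 2) q := by
  have h1 : tow h q < 2 ^ tow h q := Nat.lt_two_pow_self
  have h2 : tow h q * tow h q < 2 ^ tow h q * 2 ^ tow h q := by
    exact Nat.mul_lt_mul'' h1 h1
  have h3 : 2 ^ tow h q * 2 ^ tow h q = 2 ^ (2 * tow h q) := by rw [← pow_add]; ring_nf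
  have h4 : 2 ^ (2 * tow h q) ≤ tow (h + 2) q := by
    rw [tow_succ, tow_succ]
    exact Nat.pow_le_pow_right (by norm_num) (two_mul_le_pow _)
  omega

variable {ι : Type*} [Fintype ι]

omit [Fintype ι] in
theorem near_alg (ξ : ι → ℂ) (n : ℕ) (G : ℕ → MvPolynomial ι ℤ)
    (hGn : MvPolynomial.aeval ξ (G n) ≠ 0) (α : ℂ)
    (hα : ∑ j ∈ Finset.range (n + 1), MvPolynomial.aeval ξ (G j) * α ^ j = 0) :
    1 ≤ n ∧ ∃ C' : ℝ, 0 < C' ∧ ∀ (a : ι → ℂ) (ε : ℝ), 0 ≤ ε → C' * ε ≤ 1 →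
      (∀ i, ‖ξ i - a i‖ ≤ ε) → MvPolynomial.aeval a (G n) ≠ 0 ∧
      ∃ r : ℂ, ∑ j ∈ Finset.range (n + 1), MvPolynomial.aeval a (G j) * r ^ j = 0 ∧
        ‖α - r‖ ^ n ≤ C' * ε := by
  classical
  have hn1 : 1 ≤ n := by
    by_contra hn
    have hn0 : n = 0 := by omega
    subst hn0
    simp at hα
    exact hGn hα
  refine ⟨hn1, ?_⟩
  obtain ⟨T, C₀, hC, hlip⟩ := lips ξ n G
  set c : ℝ := ‖MvPolynomial.aeval ξ (G n)‖ with hc
  have hc0 : 0 < c := norm_pos_iff.2 hGn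
  set A : ℝ := ∑ j ∈ Finset.range (n + 1), ‖α‖ ^ j with hA
  have hA0 : 0 ≤ A := Finset.sum_nonneg fun j _ => by positivity
  have t1 : 0 ≤ 2 * C₀ / c := by positivity
  have t2 : 0 ≤ 2 * C₀ * A / c := by positivity
  refine ⟨1 + 2 * C₀ / c + 2 * C₀ * A / c, by linarith, fun a ε hε hε1 ha => ?_⟩
  have e1 : ε ≤ 1 := by nlinarith
  have e2 : C₀ * ε ≤ c / 2 := by
    have h1 : 2 * C₀ / c * ε ≤ 1 := by nlinarith
    rw [div_mul_eq_mul_div, div_le_one hc0] at h1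
    linarith
  have hl := hlip a ε hε e1 (fun i _ => ha i)
  have hGa : c / 2 ≤ ‖MvPolynomial.aeval a (G n)‖ := by
    have h1 := hl n le_rfl
    have h2 := norm_sub_norm_le (MvPolynomial.aeval ξ (G n)) (MvPolynomial.aeval a (G n))
    linarith
  have hGa0 : MvPolynomial.aeval a (G n) ≠ 0 := by
    intro h0
    rw [h0, norm_zero] at hGa
    linarith
  refine ⟨hGa0, ?_⟩
  set f : ℂ[X] := ∑ j ∈ Finset.range (n + 1), Polynomial.C (MvPolynomial.aeval a (G j)) * X ^ j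
    with hf
  have hfc : ∀ k, f.coeff k = if k ∈ Finset.range (n + 1) then MvPolynomial.aeval a (G k)
      else 0 := by
    intro k
    rw [hf, finsetSum_coeff]
    simp only [coeff_C_mul_X_pow]
    rw [Finset.sum_ite_eq]
  have hdeg : f.natDegree = n := by
    refine natDegree_eq_of_le_of_coeff_ne_zero ?_ ?_
    · rw [natDegree_le_iff_coeff_eq_zero]
      intro k hk
      rw [hfc, if_neg]
      rw [Finset.mem_range]
      omega
    · rw [hfc, if_pos (Finset.self_mem_range_succ n)]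
      exact hGa0
  have hlead : f.leadingCoeff = MvPolynomial.aeval a (G n) := by
    rw [Polynomial.leadingCoeff, hdeg, hfc, if_pos (Finset.self_mem_range_succ n)]
  obtain ⟨r, hr, hrα⟩ := near_root f n hdeg hn1 α
  rw [hlead] at hrα
  have hev : ∀ x : ℂ, f.eval x = ∑ j ∈ Finset.range (n + 1), MvPolynomial.aeval a (G j) * x ^ j := by
    intro x
    rw [hf, eval_finsetSum]
    simp only [eval_mul, eval_C, eval_pow, eval_X]
  have hfα : ‖f.eval α‖ ≤ C₀ * ε * A := by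
    have h1 : f.eval α = ∑ j ∈ Finset.range (n + 1),
        -((MvPolynomial.aeval ξ (G j) - MvPolynomial.aeval a (G j)) * α ^ j) := by
      rw [hev, ← sub_zero (∑ j ∈ Finset.range (n + 1), MvPolynomial.aeval a (G j) * α ^ j), ← hα,
        ← Finset.sum_sub_distrib]
      refine Finset.sum_congr rfl fun j _ => ?_
      ring
    rw [h1, hA, Finset.mul_sum]
    refine norm_sum_le_of_le _ fun j hj => ?_
    rw [norm_neg, norm_mul, norm_pow]
    exact mul_le_mul_of_nonneg_right (hl j (Nat.lt_succ_iff.1 (Finset.mem_range.1 hj)))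
      (by positivity)
  refine ⟨r, by rw [← hev]; exact hr, ?_⟩
  have h1 : c / 2 * ‖α - r‖ ^ n ≤ C₀ * ε * A :=
    (mul_le_mul_of_nonneg_right hGa (by positivity)).trans (hrα.trans hfα)
  have h2 : ‖α - r‖ ^ n ≤ (2 * C₀ * A / c) * ε := by
    rw [div_mul_eq_mul_div, le_div_iff₀ hc0]
    linarith
  nlinarith [mul_nonneg t1 hε]

omit [Fintype ι] in
theorem int_one (G : MvPolynomial ι ℤ) : ∃ E : ℕ, ∀ E' ≥ E, ∀ (L : IntermediateField ℚ ℂ)
    (D : ℕ) (A : ι → L), (∀ i, IsIntegral ℤ ((D : L) * A i)) →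
    IsIntegral ℤ ((D : L) ^ E' * MvPolynomial.aeval A G) := by
  have hDi : ∀ (L : IntermediateField ℚ ℂ) (D e : ℕ), IsIntegral ℤ ((D : L) ^ e) := by
    intro L D e
    have h2 : IsIntegral ℤ (algebraMap ℤ L ((D : ℤ) ^ e)) := isIntegral_algebraMap
    simpa using h2
  induction G using MvPolynomial.induction_on with
  | C c =>
    refine ⟨0, fun E' _ L D A _ => ?_⟩
    rw [MvPolynomial.aeval_C]
    exact (hDi L D E').mul isIntegral_algebraMap
  | add G H hG hH =>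
    obtain ⟨E, h⟩ := hG
    obtain ⟨E₂, h₂⟩ := hH
    refine ⟨max E E₂, fun E' hE' L D A hA => ?_⟩
    rw [map_add, mul_add]
    exact (h E' (le_trans (le_max_left _ _) hE') L D A hA).add
      (h₂ E' (le_trans (le_max_right _ _) hE') L D A hA)
  | mul_X G i hG =>
    obtain ⟨E, h⟩ := hG
    refine ⟨E + 1, fun E' hE' L D A hA => ?_⟩
    obtain ⟨e, rfl⟩ : ∃ e, E' = e + 1 := ⟨E' - 1, by omega⟩
    rw [map_mul, MvPolynomial.aeval_X, pow_succ]
    have h1 : (D : L) ^ e * D * (MvPolynomial.aeval A G * A i) =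
        ((D : L) ^ e * MvPolynomial.aeval A G) * (D * A i) := by ring
    rw [h1]
    exact (h e (by omega) L D A hA).mul (hA i)

omit [Fintype ι] in
theorem norm_one_le (G : MvPolynomial ι ℤ) : ∃ (E : ℕ) (C : ℝ), 0 ≤ C ∧ ∀ (a : ι → ℂ) (R : ℝ),
    1 ≤ R → (∀ i, ‖a i‖ ≤ R) → ∀ E' ≥ E, ‖MvPolynomial.aeval a G‖ ≤ C * R ^ E' := by
  induction G using MvPolynomial.induction_on with
  | C c =>
    refine ⟨0, |(c : ℝ)|, abs_nonneg _, fun a R hR _ E' _ => ?_⟩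
    rw [MvPolynomial.aeval_C, eq_intCast, Complex.norm_intCast]
    exact le_mul_of_one_le_right (abs_nonneg _) (one_le_pow₀ hR)
  | add G H hG hH =>
    obtain ⟨E, C, hC, h⟩ := hG
    obtain ⟨E₂, C₂, hC₂, h₂⟩ := hH
    refine ⟨max E E₂, C + C₂, add_nonneg hC hC₂, fun a R hR ha E' hE' => ?_⟩
    rw [map_add, add_mul]
    exact (norm_add_le _ _).trans (add_le_add (h a R hR ha E' (le_trans (le_max_left _ _) hE'))
      (h₂ a R hR ha E' (le_trans (le_max_right _ _) hE')))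
  | mul_X G i hG =>
    obtain ⟨E, C, hC, h⟩ := hG
    refine ⟨E + 1, C, hC, fun a R hR ha E' hE' => ?_⟩
    obtain ⟨e, rfl⟩ : ∃ e, E' = e + 1 := ⟨E' - 1, by omega⟩
    rw [map_mul, MvPolynomial.aeval_X, norm_mul, pow_succ, ← mul_assoc]
    exact mul_le_mul (h a R hR ha e (by omega)) (ha i) (norm_nonneg _) (by positivity)

theorem closure_main (q : ℕ → ℕ) (hq : ∀ k, 2 ≤ q k) (ξ : ι → ℂ) (hξ : ∀ i, Appr q (ξ i))
    (n : ℕ) (G : ℕ → MvPolynomial ι ℤ) (hGn : MvPolynomial.aeval ξ (G n) ≠ 0) (α : ℂ)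
    (hα : ∑ j ∈ Finset.range (n + 1), MvPolynomial.aeval ξ (G j) * α ^ j = 0) : Appr q α := by
  classical
  obtain ⟨hn1, C', hC', hnear⟩ := near_alg ξ n G hGn α hα
  choose h hh using hξ
  choose EI hEI using fun j => int_one (G j)
  choose EN CN hCN hEN using fun j => norm_one_le (G j)
  set H : ℕ := ∑ i, h i with hH
  set e₀ : ℕ := ∑ j ∈ Finset.range (n + 1), (EI j + EN j) with he₀
  set C₀ : ℝ := 1 + ∑ j ∈ Finset.range (n + 1), CN j with hC₀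
  have hC₀' : ∀ j ∈ Finset.range (n + 1), CN j ≤ C₀ := fun j hj => by
    have := Finset.single_le_sum (f := CN) (fun j _ => hCN j) hj
    linarith
  have hC₀0 : 0 ≤ C₀ := by
    have : 0 ≤ ∑ j ∈ Finset.range (n + 1), CN j := Finset.sum_nonneg fun j _ => hCN j
    linarith
  have hEIle : ∀ j ∈ Finset.range (n + 1), EI j ≤ e₀ := fun j hj => by
    have := Finset.single_le_sum (f := fun j => EI j + EN j) (fun _ _ => Nat.zero_le _) hj
    omega
  have hENle : ∀ j ∈ Finset.range (n + 1), EN j ≤ e₀ := fun j hj => by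
    have := Finset.single_le_sum (f := fun j => EI j + EN j) (fun _ _ => Nat.zero_le _) hj
    omega
  -- bounds by towers
  let Ω : Type := {Y : ℕ // 2 ≤ Y}
  let Yf : Ω → ℕ := fun ω => ω.1
  have pY : EL Yf (fun ω => (Yf ω : ℝ)) := EL.base
  have pN : ∀ m : ℕ, EL Yf (fun _ => (m : ℝ)) := fun m => EL.const (m : ℝ) (by positivity)
  have p1 : EL Yf (fun _ => (1 : ℝ)) := EL.const 1 (by norm_num)
  have p2 : EL Yf (fun _ => (2 : ℝ)) := EL.const 2 (by norm_num)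
  set r : ℕ := Fintype.card ι with hr
  have pr : EL Yf (fun ω => ((r * Yf ω + 1 : ℕ) : ℝ)) :=
    (((pN r).mul pY).add p1).of_le (fun ω => by positivity) (fun ω => by push_cast; rfl)
  have pG : EL Yf (fun ω => (((r * Yf ω + 1) ^ (r * Yf ω + 1) : ℕ) : ℝ)) :=
    (pr.npow _ pr).of_le (fun ω => by positivity) (fun ω => by push_cast; rfl)
  have pnG : EL Yf (fun ω => ((n * (r * Yf ω + 1) ^ (r * Yf ω + 1) : ℕ) : ℝ)) :=
    ((pN n).mul pG).of_le (fun ω => by positivity) (fun ω => by push_cast; rfl)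
  have pB : EL Yf (fun ω => ((n : ℝ) + 1) * (((Yf ω : ℝ) ^ r) ^ e₀ *
      (C₀ * ((Yf ω : ℝ) + 1) ^ e₀))) :=
    ((pN n).add p1).mul ((((pY.npow (fun _ => r) (pN r)).npow (fun _ => e₀) (pN e₀))).mul
      ((EL.const C₀ hC₀0).mul ((pY.add p1).npow (fun _ => e₀) (pN e₀))))
  have pAll : EL Yf (fun ω => ((2 : ℝ) ^ (n * (r * Yf ω + 1) ^ (r * Yf ω + 1)) *
      (((n : ℝ) + 1) * (((Yf ω : ℝ) ^ r) ^ e₀ * (C₀ * ((Yf ω : ℝ) + 1) ^ e₀))) ^
        ((r * Yf ω + 1) ^ (r * Yf ω + 1))) +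
      ((n * (r * Yf ω + 1) ^ (r * Yf ω + 1) : ℕ) : ℝ)) :=
    ((p2.npow _ pnG).mul (pB.npow _ pG)).add pnG
  obtain ⟨h', hh'⟩ := pAll
  refine ⟨h' + H, fun κ => ?_⟩
  -- the error
  have pE : EL Yf (fun ω => C' * ((tow κ (Yf ω) : ℕ) : ℝ) ^ n) :=
    (EL.const C' hC'.le).mul (EL.npow ⟨κ, fun ω => ⟨by positivity, le_rfl⟩⟩ (fun _ => n) (pN n))
  obtain ⟨κ', hκ'⟩ := pE
  choose k₀ hk₀ using fun i => hh i κ'
  refine ⟨∑ i, k₀ i, fun k hk => ?_⟩
  have hki : ∀ i, k₀ i ≤ k := fun i =>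
    (Finset.single_le_sum (f := k₀) (fun _ _ => Nat.zero_le _) (Finset.mem_univ i)).trans hk
  choose a haR haε using fun i => hk₀ i k (hki i)
  set ε : ℝ := ((tow κ' (q k) : ℕ) : ℝ)⁻¹ with hε
  have hq2 := hq k
  have htpos : ∀ m, 0 < ((tow m (q k) : ℕ) : ℝ) := fun m => by
    have := le_tow m (q k)
    exact_mod_cast (by omega : 0 < tow m (q k))
  have htone : ∀ m, 1 ≤ ((tow m (q k) : ℕ) : ℝ) := fun m => by
    have := le_tow m (q k)
    exact_mod_cast (by omega : 1 ≤ tow m (q k))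
  have hε0 : 0 ≤ ε := by rw [hε]; exact (inv_pos.2 (htpos κ')).le
  have hCε : C' * ε ≤ (((tow κ (q k) : ℕ) : ℝ)⁻¹) ^ n := by
    have h1 := (hκ' (⟨q k, hq2⟩ : Ω)).2
    change C' * ((tow κ (q k) : ℕ) : ℝ) ^ n ≤ tow κ' (q k) at h1
    rw [hε, inv_pow, ← div_eq_mul_inv, div_le_iff₀ (htpos κ'), inv_mul_eq_div,
      le_div_iff₀ (pow_pos (htpos κ) n)]
    exact h1
  have hCε1 : C' * ε ≤ 1 := hCε.trans (pow_le_one₀ (inv_pos.2 (htpos κ)).le
    (inv_le_one_of_one_le₀ (htone κ)))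
  obtain ⟨hGa0, ρ, hρ, hρα⟩ := hnear a ε hε0 hCε1 haε
  refine ⟨ρ, ?_, ?_⟩
  · -- the field
    set Y₀ : ℕ := tow H (q k) with hY₀
    have hY₀2 : 2 ≤ Y₀ := by
      have := le_tow H (q k)
      omega
    have haR' : ∀ i, RB Y₀ Y₀ (a i) := fun i => by
      have h1 : tow (h i) (q k) ≤ Y₀ := tow_mono_left
        (Finset.single_le_sum (f := h) (fun _ _ => Nat.zero_le _) (Finset.mem_univ i)) _
      exact (haR i).mono h1 h1
    obtain ⟨L, hL1, hL2, hL4, A, D, hA, hD1, hDN, hAI, hAR⟩ := common_field Y₀ Y₀ a haR'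
    rw [← hr] at hL4 hDN
    set g : ℕ := Fintype.card (L ≃ₐ[ℚ] L) with hg
    have hY1 : (1 : ℝ) ≤ Y₀ := by exact_mod_cast (by omega : 1 ≤ Y₀)
    set bb : ℕ → L := fun j => MvPolynomial.aeval A (G j) with hbb
    have hbbC : ∀ j, ((bb j : L) : ℂ) = MvPolynomial.aeval a (G j) := by
      intro j
      have h1 := MvPolynomial.aeval_algebraMap_apply ℂ A (G j)
      have h2 : (fun i => algebraMap L ℂ (A i)) = a := by
        funext i
        exact hA i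
      have h3 : (algebraMap L ℂ ∘ A) = a := h2
      rw [h3] at h1
      rw [h1]
      rfl
    have hσ : ∀ j (σ : L ≃ₐ[ℚ] L), ((σ (bb j) : L) : ℂ) =
        MvPolynomial.aeval (fun i => ((σ (A i) : L) : ℂ)) (G j) := by
      intro j σ
      have h1 := MvPolynomial.aeval_algebraMap_apply ℂ (fun i => σ (A i)) (G j)
      have h2 : MvPolynomial.aeval (fun i => σ (A i)) (G j) = σ (bb j) := by
        have h3 := MvPolynomial.comp_aeval_apply (R := ℤ) (f := A)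
          (σ.toAlgHom.restrictScalars ℤ : L →ₐ[ℤ] L) (G j)
        exact h3.symm
      rw [h2] at h1
      exact h1.symm
    have hmain := poly_prod L n bb (D ^ e₀) (Nat.one_le_pow _ _ hD1)
      (C₀ * ((Y₀ : ℝ) + 1) ^ e₀) ?_ ?_ ?_ ρ ?_ (tow (h' + H) (q k)) ?_
    · refine hmain.mono ?_ le_rfl
      have h1 := (hh' (⟨Y₀, hY₀2⟩ : Ω)).2
      change ((2 : ℝ) ^ (n * (r * Y₀ + 1) ^ (r * Y₀ + 1)) *
        (((n : ℝ) + 1) * (((Y₀ : ℝ) ^ r) ^ e₀ * (C₀ * ((Y₀ : ℝ) + 1) ^ e₀))) ^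
        ((r * Y₀ + 1) ^ (r * Y₀ + 1))) + ((n * (r * Y₀ + 1) ^ (r * Y₀ + 1) : ℕ) : ℝ) ≤
        tow h' Y₀ at h1
      have h2 : (0 : ℝ) ≤ (2 : ℝ) ^ (n * (r * Y₀ + 1) ^ (r * Y₀ + 1)) *
        (((n : ℝ) + 1) * (((Y₀ : ℝ) ^ r) ^ e₀ * (C₀ * ((Y₀ : ℝ) + 1) ^ e₀))) ^
        ((r * Y₀ + 1) ^ (r * Y₀ + 1)) := by positivity
      have h3 : ((n * (r * Y₀ + 1) ^ (r * Y₀ + 1) : ℕ) : ℝ) ≤ tow h' Y₀ := by linarith
      have h4 : n * (r * Y₀ + 1) ^ (r * Y₀ + 1) ≤ tow h' Y₀ := by exact_mod_cast h3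
      rw [hY₀, tow_tow] at h4
      exact (Nat.mul_le_mul_left n hL4).trans h4
    · intro h0
      have h1 := hbbC n
      rw [h0] at h1
      exact hGa0 (by rw [← h1]; simp)
    · intro j hj
      have hj' : j ∈ Finset.range (n + 1) := Finset.mem_range.2 (Nat.lt_succ_iff.2 hj)
      have := hEI j e₀ (hEIle j hj') L D A hAI
      push_cast
      exact this
    · intro j hj σ
      have hj' : j ∈ Finset.range (n + 1) := Finset.mem_range.2 (Nat.lt_succ_iff.2 hj)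
      rw [hσ]
      refine (hEN j (fun i => ((σ (A i) : L) : ℂ)) ((Y₀ : ℝ) + 1) (by linarith)
        (fun i => hAR i σ) e₀ (hENle j hj')).trans ?_
      exact mul_le_mul_of_nonneg_right (hC₀' j hj') (by positivity)
    · rw [← hρ]
      refine Finset.sum_congr rfl fun j _ => ?_
      rw [hbbC]
    · have h1 := (hh' (⟨Y₀, hY₀2⟩ : Ω)).2
      change ((2 : ℝ) ^ (n * (r * Y₀ + 1) ^ (r * Y₀ + 1)) *
        (((n : ℝ) + 1) * (((Y₀ : ℝ) ^ r) ^ e₀ * (C₀ * ((Y₀ : ℝ) + 1) ^ e₀))) ^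
        ((r * Y₀ + 1) ^ (r * Y₀ + 1))) + ((n * (r * Y₀ + 1) ^ (r * Y₀ + 1) : ℕ) : ℝ) ≤
        tow h' Y₀ at h1
      have h2 : (0 : ℝ) ≤ ((n * (r * Y₀ + 1) ^ (r * Y₀ + 1) : ℕ) : ℝ) := by positivity
      have h3 : ((tow h' Y₀ : ℕ) : ℝ) = tow (h' + H) (q k) := by rw [hY₀, tow_tow]
      rw [← h3]
      have h5 : (2 : ℝ) ^ (n * (r * Y₀ + 1) ^ (r * Y₀ + 1)) *
        (((n : ℝ) + 1) * (((Y₀ : ℝ) ^ r) ^ e₀ * (C₀ * ((Y₀ : ℝ) + 1) ^ e₀))) ^
        ((r * Y₀ + 1) ^ (r * Y₀ + 1)) ≤ tow h' Y₀ := by linarith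
      refine le_trans ?_ h5
      have hC1 : 1 ≤ C₀ := by
        have : 0 ≤ ∑ j ∈ Finset.range (n + 1), CN j := Finset.sum_nonneg fun j _ => hCN j
        linarith
      have e1 : ((n : ℝ) + 1) * (((D ^ e₀ : ℕ) : ℝ) * (C₀ * ((Y₀ : ℝ) + 1) ^ e₀)) ≤
          ((n : ℝ) + 1) * (((Y₀ : ℝ) ^ r) ^ e₀ * (C₀ * ((Y₀ : ℝ) + 1) ^ e₀)) := by
        push_cast
        have e2 : (D : ℝ) ≤ (Y₀ : ℝ) ^ r := by exact_mod_cast hDN
        gcongr
      have e2 : 1 ≤ ((n : ℝ) + 1) * (((Y₀ : ℝ) ^ r) ^ e₀ * (C₀ * ((Y₀ : ℝ) + 1) ^ e₀)) := by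
        have f1 : (1 : ℝ) ≤ (n : ℝ) + 1 := by
          have : (0 : ℝ) ≤ n := by positivity
          linarith
        have f2 : (1 : ℝ) ≤ ((Y₀ : ℝ) ^ r) ^ e₀ := one_le_pow₀ (one_le_pow₀ hY1)
        have f3 : (1 : ℝ) ≤ C₀ * ((Y₀ : ℝ) + 1) ^ e₀ :=
          one_le_mul_of_one_le_of_one_le hC1 (one_le_pow₀ (by linarith))
        exact one_le_mul_of_one_le_of_one_le f1 (one_le_mul_of_one_le_of_one_le f2 f3)
      refine mul_le_mul ?_ ?_ (by positivity) (by positivity)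
      · exact pow_le_pow_right₀ (by norm_num) (Nat.mul_le_mul_left n hL4)
      · exact (pow_le_pow_left₀ (by positivity) e1 g).trans (pow_le_pow_right₀ e2 hL4)
  · have h1 := hρα.trans hCε
    exact le_of_pow_le_pow_left₀ (by omega) (inv_pos.2 (htpos κ)).le h1

end Pool.Agent.R347.LW
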