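import Pool.Agent.R347.LW.Herm

/-!
# A lower bound for integral combinations of exponentials which are stable under conjugation
-/

set_option autoImplicit false

namespace Pool.Agent.R347.LW

open Polynomial Complex

open scoped Nat

theorem integral_aux (D : ℕ) (a : ℂ) (hDa : IsIntegral ℤ ((D : ℂ) * a)) (g : ℤ[X]) (N : ℕ)
    (hN : g.natDegree ≤ N) : IsIntegral ℤ ((D : ℂ) ^ N * aeval a g) := by
  rw [Polynomial.aeval_eq_sum_range, Finset.mul_sum]
  refine IsIntegral.sum _ (fun k hk => ?_)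
  have hk' : k ≤ N := (Nat.lt_succ_iff.mp (Finset.mem_range.mp hk)).trans hN
  have h1 : (D : ℂ) ^ N * (g.coeff k • a ^ k) =
      (((D : ℤ) ^ (N - k) * g.coeff k : ℤ) : ℂ) * ((D : ℂ) * a) ^ k := by
    rw [zsmul_eq_mul]
    push_cast
    have : (D : ℂ) ^ N = (D : ℂ) ^ (N - k) * (D : ℂ) ^ k := by
      rw [← pow_add, Nat.sub_add_cancel hk']
    rw [this, mul_pow]; ring
  rw [h1]
  refine IsIntegral.mul ?_ (hDa.pow k)
  exact isIntegral_algebraMap (R := ℤ) (A := ℂ) (x := ((D : ℤ) ^ (N - k) * g.coeff k : ℤ))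

variable (L : IntermediateField ℚ ℂ) [FiniteDimensional ℚ L] [IsGalois ℚ L]

/-- an invariant algebraic integer is a rational integer -/
theorem exists_int (x : L) (hx : IsIntegral ℤ (x : ℂ)) (hG : ∀ σ : L ≃ₐ[ℚ] L, σ x = x) :
    ∃ m : ℤ, (m : L) = x := by
  obtain ⟨q, hq⟩ := IntermediateField.mem_bot.mp
    ((IsGalois.mem_bot_iff_fixed (F := ℚ) (E := L) x).mpr hG)
  have hqC : ((q : ℚ) : ℂ) = (x : ℂ) := by
    rw [← hq]; rfl
  have hqint : IsIntegral ℤ q := by
    rw [← hqC] at hx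
    have : IsIntegral ℤ (algebraMap ℚ ℂ q) := hx
    exact (isIntegral_algebraMap_iff (algebraMap ℚ ℂ).injective).mp this
  obtain ⟨j, hj⟩ := IsIntegrallyClosed.isIntegral_iff.mp hqint
  refine ⟨j, ?_⟩
  rw [← hq, ← hj]
  simp

omit [FiniteDimensional ℚ L] [IsGalois ℚ L] in
theorem integral_val {x : L} : IsIntegral ℤ (x : ℂ) ↔ IsIntegral ℤ x := by
  have h : algebraMap L ℂ x = (x : ℂ) := rfl
  rw [← h]
  exact isIntegral_algebraMap_iff (algebraMap L ℂ).injective

/-- the polynomial with the roots `a` in `s` -/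
theorem exists_f (s : Finset L) (hsG : ∀ σ : L ≃ₐ[ℚ] L, ∀ a ∈ s, σ a ∈ s) (D : ℕ)
    (hDs : ∀ a ∈ s, IsIntegral ℤ ((D : ℂ) * (a : ℂ))) :
    ∃ f : ℤ[X], f.map (algebraMap ℤ ℂ) = ∏ a ∈ s, (C (D : ℂ) * X + C (-((D : ℂ) * (a : ℂ)))) ∧
      f.natDegree ≤ s.card := by
  classical
  have hDs' : ∀ a ∈ s, IsIntegral ℤ ((D : L) * a) := fun a ha => by
    rw [← integral_val]
    have := hDs a ha
    push_cast
    exact this
  set P : L[X] := ∏ a ∈ s, (C (D : L) * X + C (-((D : L) * a))) with hP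
  have hcoefI : ∀ k, IsIntegral ℤ (P.coeff k) := by
    intro k
    let 𝒪 := integralClosure ℤ L
    choose! a' ha' using fun (a : L) (ha : a ∈ s) =>
      (show ∃ y : 𝒪, (y : L) = (D : L) * a from ⟨⟨_, hDs' a ha⟩, rfl⟩)
    set P' : 𝒪[X] := ∏ a ∈ s, (C (D : 𝒪) * X + C (-(a' a))) with hP'
    have h1 : P'.map (algebraMap 𝒪 L) = P := by
      rw [hP', hP, Polynomial.map_prod]
      refine Finset.prod_congr rfl fun a ha => ?_
      rw [Polynomial.map_add, Polynomial.map_mul, map_C, map_C, map_X, map_natCast, map_neg]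
      congr 3
      rw [← ha' a ha]
      rfl
    rw [← h1, coeff_map]
    exact (P'.coeff k).2
  have hG : ∀ σ : L ≃ₐ[ℚ] L, ∀ k, σ (P.coeff k) = P.coeff k := by
    intro σ k
    have himg : s.image σ = s := by
      apply Finset.eq_of_subset_of_card_le
      · intro b hb
        obtain ⟨a, ha, rfl⟩ := Finset.mem_image.mp hb
        exact hsG σ a ha
      · rw [Finset.card_image_of_injective _ σ.injective]
    have h1 : P.map (σ : L →+* L) = P := by
      conv_rhs => rw [hP, ← himg]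
      rw [Finset.prod_image (fun a _ b _ hab => σ.injective hab), hP, Polynomial.map_prod]
      refine Finset.prod_congr rfl fun a ha => ?_
      rw [Polynomial.map_add, Polynomial.map_mul, map_C, map_C, map_X]
      have e1 : (σ : L →+* L) (D : L) = D := map_natCast _ _
      have e2 : (σ : L →+* L) (-((D : L) * a)) = -((D : L) * σ a) := by
        rw [map_neg, map_mul, e1]
        rfl
      rw [e1, e2]
    conv_rhs => rw [← h1]
    rw [coeff_map]
    rfl
  have hlift : P ∈ Polynomial.lifts (algebraMap ℤ L) := by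
    rw [lifts_iff_coeff_lifts]
    intro k
    obtain ⟨m, hm⟩ := exists_int L (P.coeff k) ((integral_val L).2 (hcoefI k)) (fun σ => hG σ k)
    exact ⟨m, by rw [← hm]; simp⟩
  obtain ⟨f, hf⟩ := (mem_lifts P).1 hlift
  refine ⟨f, ?_, ?_⟩
  · have h1 : f.map (algebraMap ℤ ℂ) = P.map (algebraMap L ℂ) := by
      rw [← hf, Polynomial.map_map]
      congr 1
    rw [h1, hP, Polynomial.map_prod]
    refine Finset.prod_congr rfl fun a _ => ?_
    rw [Polynomial.map_add, Polynomial.map_mul, map_C, map_C, map_X, map_natCast, map_neg, map_mul,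
      map_natCast]
    rfl
  · have h1 : f.natDegree = P.natDegree := by
      rw [← hf, natDegree_map_eq_of_injective]
      exact (algebraMap ℤ L).injective_int
    rw [h1, hP]
    refine (natDegree_prod_le _ _).trans ?_
    refine (Finset.sum_le_card_nsmul _ _ 1 fun a _ => ?_).trans (by simp)
    exact natDegree_linear_le

theorem coreQ (s : Finset L) (hs0 : ∀ a ∈ s, a ≠ 0) (hsG : ∀ σ : L ≃ₐ[ℚ] L, ∀ a ∈ s, σ a ∈ s)
    (c : L → ℤ) (hc : ∀ σ : L ≃ₐ[ℚ] L, ∀ a, c (σ a) = c a) (w : ℤ) (hw : w ≠ 0)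
    (D : ℕ) (hD : 1 ≤ D) (hDs : ∀ a ∈ s, IsIntegral ℤ ((D : ℂ) * (a : ℂ)))
    (δ : ℕ) (hδ : s.card ≤ δ) (R : ℝ) (hR : 1 ≤ R) (hsR : ∀ a ∈ s, ‖(a : ℂ)‖ ≤ R)
    (V : ℝ) (hV : ∑ a ∈ s, |(c a : ℝ)| ≤ V) (K : ℝ) (hK : (2 * D * R) ^ δ ≤ K)
    (p : ℕ) (hp : p.Prime) (hpK : K < p) (hpw : |(w : ℝ)| < p) (hpD : D < p)
    (hsmall : 2 * ((D : ℝ) ^ (p * δ) * (V * (Real.exp R * Real.exp R * (R * K) ^ p))) ≤
      ((p - 1) ! : ℕ)) :
    ((p - 1) ! : ℕ) ≤ 2 * ((D : ℝ) ^ (p * δ) * (((p * (δ + 1)) ! : ℕ) * (2 ^ (p * (δ + 1)) * K ^ p))) *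
      ‖(w : ℂ) + ∑ a ∈ s, (c a : ℂ) * Complex.exp (a : ℂ)‖ := by
  classical
  obtain ⟨f, hfC, hfdeg⟩ := exists_f L s hsG D hDs
  have hD1 : (1 : ℝ) ≤ D := by exact_mod_cast hD
  have hDR : 1 ≤ D * R := by nlinarith
  have hDR2 : 1 ≤ 2 * D * R := by nlinarith
  have hev : ∀ z : ℂ, aeval z f = ∏ a ∈ s, ((D : ℂ) * z + -((D : ℂ) * (a : ℂ))) := by
    intro z
    rw [← eval_map_algebraMap, hfC, eval_prod]
    refine Finset.prod_congr rfl fun a _ => by simp
  have hKR : ∀ z : ℂ, ‖z‖ ≤ R → ‖aeval z f‖ ≤ K := by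
    intro z hz
    rw [hev, norm_prod]
    have h1 : ∏ a ∈ s, ‖(D : ℂ) * z + -((D : ℂ) * (a : ℂ))‖ ≤ ∏ a ∈ s, (2 * D * R) := by
      refine Finset.prod_le_prod (fun _ _ => norm_nonneg _) fun a ha => ?_
      refine (norm_add_le _ _).trans ?_
      rw [norm_neg, norm_mul, norm_mul, Complex.norm_natCast]
      have := hsR a ha
      nlinarith
    refine h1.trans ?_
    rw [Finset.prod_const]
    exact (pow_le_pow_right₀ hDR2 hδ).trans hK
  have hM : (f.map (algebraMap ℤ ℂ)).mahlerMeasure ≤ K := by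
    rw [hfC]
    have h0 : ∀ t : Finset L, t ⊆ s → (∏ a ∈ t, (C (D : ℂ) * X + C (-((D : ℂ) * (a : ℂ))))).mahlerMeasure ≤
        (2 * D * R) ^ t.card := by
      intro t
      induction t using Finset.induction_on with
      | empty => intro _; simp
      | insert a t ha ih =>
        intro ht
        rw [Finset.prod_insert ha, mahlerMeasure_mul, Finset.card_insert_of_notMem ha, pow_succ']
        refine mul_le_mul ?_ (ih ((Finset.subset_insert _ _).trans ht)) (mahlerMeasure_nonneg _)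
          (by positivity)
        have hDC : (D : ℂ) ≠ 0 := by exact_mod_cast (by omega : D ≠ 0)
        rw [mahlerMeasure_C_mul_X_add_C hDC, Complex.norm_natCast]
        rw [norm_neg, norm_mul, Complex.norm_natCast]
        have h2 := hsR a (ht (Finset.mem_insert_self _ _))
        refine max_le (by nlinarith) (by nlinarith)
    exact ((h0 s subset_rfl).trans (pow_le_pow_right₀ hDR2 hδ)).trans hK
  have hK0 : 0 ≤ K := (norm_nonneg _).trans (hKR 0 (by simp; linarith))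
  have hf00 : (f.eval 0 : ℤ) ≠ 0 := by
    intro h0
    have h1 : aeval (0 : ℂ) f = 0 := by
      have h2 : aeval (0 : ℂ) f = ((f.eval 0 : ℤ) : ℂ) := by
        have := aeval_algebraMap_apply_eq_algebraMap_eval (A := ℂ) (0 : ℤ) f
        simpa using this
      rw [h2, h0, Int.cast_zero]
    rw [hev, Finset.prod_eq_zero_iff] at h1
    obtain ⟨a, ha, h1⟩ := h1
    rw [mul_zero, zero_add, neg_eq_zero, mul_eq_zero] at h1
    rcases h1 with h1 | h1
    · have : (D : ℂ) ≠ 0 := by exact_mod_cast (by omega : D ≠ 0)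
      exact this h1
    · exact hs0 a ha (by exact_mod_cast h1)
  have hf0p : (f.eval 0 : ℤ).natAbs < p := by
    have h2 : aeval (0 : ℂ) f = ((f.eval 0 : ℤ) : ℂ) := by
      have := aeval_algebraMap_apply_eq_algebraMap_eval (A := ℂ) (0 : ℤ) f
      simpa using this
    have h3 := hKR 0 (by simp; linarith)
    rw [h2, Complex.norm_intCast] at h3
    have h4 : (((f.eval 0 : ℤ).natAbs : ℕ) : ℝ) < p := by
      rw [Nat.cast_natAbs, Int.cast_abs]
      exact h3.trans_lt hpK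
    exact_mod_cast h4
  obtain ⟨n, hpn, g, hgdeg, hnb, hg⟩ := approx f hf00 δ (hfdeg.trans hδ) K R hR hKR hM p hp hf0p
  set N : ℕ := p * δ with hN
  have hgN : g.natDegree ≤ N := by
    have h1 : p * f.natDegree ≤ p * δ := Nat.mul_le_mul_left p (hfdeg.trans hδ)
    omega
  -- the element of L
  set J : L := ∑ a ∈ s, (c a : L) * ((D : L) ^ N * aeval a g) with hJ
  have hJfix : ∀ σ : L ≃ₐ[ℚ] L, σ J = J := by
    intro σ
    have himg : s.image σ = s := by
      apply Finset.eq_of_subset_of_card_le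
      · intro b hb
        obtain ⟨a, ha, rfl⟩ := Finset.mem_image.mp hb
        exact hsG σ a ha
      · rw [Finset.card_image_of_injective _ σ.injective]
    have h1 : σ J = ∑ a ∈ s, (c (σ a) : L) * ((D : L) ^ N * aeval (σ a) g) := by
      rw [hJ, map_sum]
      refine Finset.sum_congr rfl (fun a _ => ?_)
      rw [map_mul, map_mul, map_pow, map_intCast, map_natCast, hc σ a]
      congr 2
      have := Polynomial.aeval_algHom_apply (σ.toAlgHom.restrictScalars ℤ : L →ₐ[ℤ] L) a g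
      simpa using this.symm
    rw [h1]
    conv_rhs => rw [hJ, ← himg]
    rw [Finset.sum_image (fun a _ b _ hab => σ.injective hab)]
  have hJC : (J : ℂ) = ∑ a ∈ s, (c a : ℂ) * ((D : ℂ) ^ N * aeval (a : ℂ) g) := by
    rw [hJ]
    push_cast
    refine Finset.sum_congr rfl (fun a _ => ?_)
    congr 2
    have := Polynomial.aeval_algHom_apply (L.val.restrictScalars ℤ : L →ₐ[ℤ] ℂ) a g
    simpa using this.symm
  have hJint : IsIntegral ℤ (J : ℂ) := by
    rw [hJC]
    refine IsIntegral.sum _ (fun a ha => ?_)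
    exact (isIntegral_algebraMap (R := ℤ) (A := ℂ) (x := c a)).mul
      (integral_aux D a (hDs a ha) g N hgN)
  obtain ⟨j, hj⟩ := exists_int L J hJint hJfix
  have hjC : (j : ℂ) = (J : ℂ) := by
    rw [← hj]; simp
  -- the integer
  have hI : ((D : ℤ) ^ N * n * w + p * j : ℤ) ≠ 0 := by
    intro h0
    have hdvd : (p : ℤ) ∣ (D : ℤ) ^ N * n * w := by
      have : (D : ℤ) ^ N * n * w = - (p * j) := by linarith
      rw [this]; exact (dvd_mul_right _ _).neg_right
    have hpp : Prime (p : ℤ) := Nat.prime_iff_prime_int.mp hp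
    rcases hpp.dvd_or_dvd hdvd with h1 | h1
    · rcases hpp.dvd_or_dvd h1 with h2 | h2
      · have h3 := hpp.dvd_of_dvd_pow h2
        have h4 : p ∣ D := by exact_mod_cast h3
        have := Nat.le_of_dvd (by omega) h4
        omega
      · exact hpn h2
    · have h3 := Int.natAbs_dvd_natAbs.mpr h1
      have h4 := Nat.le_of_dvd (Int.natAbs_pos.mpr hw) h3
      rw [Int.natAbs_natCast] at h4
      have h5 : ((w.natAbs : ℕ) : ℝ) < p := by
        rw [Nat.cast_natAbs, Int.cast_abs]; exact hpw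
      have h6 : w.natAbs < p := by exact_mod_cast h5
      omega
  have hI1 : (1 : ℝ) ≤ ‖(((D : ℤ) ^ N * n * w + p * j : ℤ) : ℂ)‖ := by
    rw [Complex.norm_intCast]
    exact_mod_cast Int.one_le_abs hI
  set Λ : ℂ := (w : ℂ) + ∑ a ∈ s, (c a : ℂ) * Complex.exp (a : ℂ) with hΛ
  have hkey : (((D : ℤ) ^ N * n * w + p * j : ℤ) : ℂ) =
      (D : ℂ) ^ N * (n * Λ + ∑ a ∈ s, -((c a : ℂ) * ((n : ℂ) * Complex.exp a - p * aeval (a : ℂ) g))) := by
    have h1 : (w : ℂ) = Λ - ∑ a ∈ s, (c a : ℂ) * Complex.exp (a : ℂ) := by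
      rw [hΛ]; ring
    push_cast
    rw [hjC, hJC, h1, mul_add, mul_sub]
    simp only [Finset.mul_sum]
    rw [sub_add, ← Finset.sum_sub_distrib, sub_eq_add_neg, ← Finset.sum_neg_distrib]
    congr 1
    · ring
    · refine Finset.sum_congr rfl (fun a _ => ?_)
      ring
  set F : ℝ := (((p - 1) ! : ℕ) : ℝ) with hF
  have hF0 : 0 < F := by
    rw [hF]; exact_mod_cast Nat.factorial_pos _
  set A : ℝ := (((p * (δ + 1)) ! : ℕ) : ℝ) * (2 ^ (p * (δ + 1)) * K ^ p) with hA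
  set Eb : ℝ := Real.exp R * Real.exp R * (R * K) ^ p with hEb
  have hbound : ‖(((D : ℤ) ^ N * n * w + p * j : ℤ) : ℂ)‖ ≤
      (D : ℝ) ^ N * (|(n : ℝ)| * ‖Λ‖ + V * (Eb / F)) := by
    rw [hkey, norm_mul, norm_pow, Complex.norm_natCast]
    refine mul_le_mul_of_nonneg_left ?_ (by positivity)
    refine (norm_add_le _ _).trans (add_le_add ?_ ?_)
    · rw [norm_mul, Complex.norm_intCast]
    · refine (norm_sum_le _ _).trans ?_
      have h2 : ∀ a ∈ s, ‖-((c a : ℂ) * ((n : ℂ) * Complex.exp a - p * aeval (a : ℂ) g))‖ ≤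
          |(c a : ℝ)| * (Eb / F) := by
        intro a ha
        rw [norm_neg, norm_mul, Complex.norm_intCast]
        refine mul_le_mul_of_nonneg_left ?_ (abs_nonneg _)
        refine hg a ?_ (hsR a ha)
        rw [hev]
        exact Finset.prod_eq_zero ha (by ring)
      refine (Finset.sum_le_sum h2).trans ?_
      rw [← Finset.sum_mul]
      exact mul_le_mul_of_nonneg_right hV (by positivity)
  have h3 : F ≤ (D : ℝ) ^ N * (A * ‖Λ‖ + V * Eb) := by
    have h4 : F * 1 ≤ F * ((D : ℝ) ^ N * (|(n : ℝ)| * ‖Λ‖ + V * (Eb / F))) :=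
      mul_le_mul_of_nonneg_left (hI1.trans hbound) hF0.le
    have h5 : F * ((D : ℝ) ^ N * (|(n : ℝ)| * ‖Λ‖ + V * (Eb / F))) =
        (D : ℝ) ^ N * ((|(n : ℝ)| * F) * ‖Λ‖ + V * Eb) := by
      field_simp
    rw [mul_one, h5] at h4
    refine h4.trans ?_
    have h6 : (|(n : ℝ)| * F) * ‖Λ‖ ≤ A * ‖Λ‖ := mul_le_mul_of_nonneg_right hnb (norm_nonneg _)
    gcongr
  have h7 : 2 * ((D : ℝ) ^ N * (V * Eb)) ≤ F := hsmall
  have h8 : (D : ℝ) ^ N * (A * ‖Λ‖ + V * Eb) = (D : ℝ) ^ N * (A * ‖Λ‖) + (D : ℝ) ^ N * (V * Eb) := by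
    ring
  rw [h8] at h3
  have h9 : 2 * ((D : ℝ) ^ N * A) * ‖Λ‖ = 2 * ((D : ℝ) ^ N * (A * ‖Λ‖)) := by ring
  rw [h9]
  linarith

end Pool.Agent.R347.LW
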