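import Pool.Agent.R347.LW.Cl

/-!
# The field of well approximable numbers, and the Lindemann-Weierstrass theorem for it
-/

set_option autoImplicit false

namespace Pool.Agent.R347.LW

open Polynomial Complex
open scoped Nat NNReal

variable {q : ℕ → ℕ} (hq : ∀ k, 2 ≤ q k)

include hq

theorem Appr.ofAlg {z : ℂ} (P : ℤ[X]) (hP : P ≠ 0) (hz : aeval z P = 0) : Appr q z := by
  have hlc : (P.leadingCoeff : ℂ) ≠ 0 := by exact_mod_cast leadingCoeff_ne_zero.2 hP
  refine closure_main q hq (ι := Fin 0) (fun i => i.elim0) (fun i => i.elim0) P.natDegree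
    (fun j => MvPolynomial.C (P.coeff j)) ?_ z ?_
  · rw [MvPolynomial.aeval_C, eq_intCast]
    exact hlc
  · rw [aeval_eq_sum_range] at hz
    rw [← hz]
    refine Finset.sum_congr rfl fun j _ => ?_
    rw [MvPolynomial.aeval_C, eq_intCast, zsmul_eq_mul]

theorem Appr.zero : Appr q 0 := Appr.ofAlg hq X X_ne_zero (by simp)

theorem Appr.one : Appr q 1 := Appr.ofAlg hq (X - 1) (X_sub_C_ne_zero 1) (by simp)

theorem Appr.add {z w : ℂ} (hz : Appr q z) (hw : Appr q w) : Appr q (z + w) := by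
  refine closure_main q hq (ι := Fin 2) ![z, w] (by
    intro i; fin_cases i; exacts [hz, hw]) 1
    (fun j => if j = 0 then -(MvPolynomial.X 0 + MvPolynomial.X 1) else 1) ?_ _ ?_
  · simp
  · rw [Finset.sum_range_succ, Finset.sum_range_one]
    simp

theorem Appr.mul {z w : ℂ} (hz : Appr q z) (hw : Appr q w) : Appr q (z * w) := by
  refine closure_main q hq (ι := Fin 2) ![z, w] (by
    intro i; fin_cases i; exacts [hz, hw]) 1
    (fun j => if j = 0 then -(MvPolynomial.X 0 * MvPolynomial.X 1) else 1) ?_ _ ?_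
  · simp
  · rw [Finset.sum_range_succ, Finset.sum_range_one]
    simp

theorem Appr.inv {z : ℂ} (hz : Appr q z) : Appr q z⁻¹ := by
  by_cases h0 : z = 0
  · rw [h0, inv_zero]
    exact Appr.zero hq
  refine closure_main q hq (ι := Fin 1) ![z] (by
    intro i; fin_cases i; exact hz) 1
    (fun j => if j = 0 then -1 else MvPolynomial.X 0) ?_ _ ?_
  · simpa using h0
  · rw [Finset.sum_range_succ, Finset.sum_range_one]
    simp [h0]

theorem Appr.rat (r : ℚ) : Appr q (r : ℂ) := by
  refine Appr.ofAlg hq (C (r.den : ℤ) * X - C r.num) ?_ ?_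
  · intro h0
    have h1 := congrArg (fun P : ℤ[X] => P.coeff 1) h0
    beta_reduce at h1
    rw [coeff_sub, coeff_C_mul, coeff_X_one, mul_one, coeff_C_ne_zero one_ne_zero, sub_zero,
      coeff_zero] at h1
    exact r.den_ne_zero (by exact_mod_cast h1)
  · rw [map_sub, map_mul, aeval_C, aeval_C, aeval_X, eq_intCast, eq_intCast]
    have h1 : ((r.den : ℚ) : ℂ) * (r : ℂ) = ((r.num : ℚ) : ℂ) := by
      rw [← Rat.cast_mul, mul_comm, Rat.mul_den_eq_num]
    push_cast at h1 ⊢
    rw [h1, sub_self]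

/-- the field of the well approximable numbers -/
def UK : IntermediateField ℚ ℂ where
  carrier := {z | Appr q z}
  mul_mem' := fun ha hb => Appr.mul hq ha hb
  one_mem' := Appr.one hq
  add_mem' := fun ha hb => Appr.add hq ha hb
  zero_mem' := Appr.zero hq
  algebraMap_mem' := fun r => by
    have h1 : algebraMap ℚ ℂ r = (r : ℂ) := rfl
    change Appr q (algebraMap ℚ ℂ r)
    rw [h1]
    exact Appr.rat hq r
  inv_mem' := fun z hz => Appr.inv hq hz

theorem mem_UK {z : ℂ} : z ∈ UK hq ↔ Appr q z := Iff.rfl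

theorem UK_closed : IsAlgClosed (UK hq) := by
  refine IsAlgClosed.of_exists_root _ fun p hp hirr => ?_
  set n := p.natDegree with hn
  obtain ⟨α, hα⟩ := IsAlgClosed.exists_root (p.map (algebraMap (UK hq) ℂ)) (by
    rw [degree_map_eq_of_injective (algebraMap (UK hq) ℂ).injective]
    exact hirr.degree_pos.ne')
  have hα' : ∑ j ∈ Finset.range (n + 1), ((p.coeff j : UK hq) : ℂ) * α ^ j = 0 := by
    rw [IsRoot.def, eval_map_algebraMap, aeval_eq_sum_range] at hα
    rw [← hα]
    refine Finset.sum_congr rfl fun j _ => ?_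
    rw [Algebra.smul_def]
    rfl
  have hmem : Appr q α := by
    refine closure_main q hq (ι := Fin (n + 1)) (fun i => ((p.coeff i : UK hq) : ℂ))
      (fun i => (p.coeff i).2) n (fun j => MvPolynomial.X (Fin.ofNat (n + 1) j)) ?_ α ?_
    · rw [MvPolynomial.aeval_X]
      have h1 : ((Fin.ofNat (n + 1) n : Fin (n + 1)) : ℕ) = n := by
        simp [Fin.ofNat]
      rw [h1]
      have h2 : p.coeff n = 1 := hp.coeff_natDegree
      rw [h2]
      simp
    · rw [← hα']
      refine Finset.sum_congr rfl fun j hj => ?_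
      have h1 : ((Fin.ofNat (n + 1) j : Fin (n + 1)) : ℕ) = j := by
        simp only [Fin.ofNat]
        exact Nat.mod_eq_of_lt (Finset.mem_range.1 hj)
      rw [MvPolynomial.aeval_X, h1]
  refine ⟨⟨α, hmem⟩, ?_⟩
  apply (algebraMap (UK hq) ℂ).injective
  rw [map_zero]
  rw [← aeval_algebraMap_apply_eq_algebraMap_eval, ← eval_map_algebraMap]
  exact hα

theorem lwU (M : ℕ) (w c : Fin M → ℂ) (hw : ∀ i, Appr q (w i)) (hc : ∀ i, Appr q (c i))
    (hinj : Function.Injective w) (h : ∑ i, c i * Complex.exp (w i) = 0) : ∀ i, c i = 0 := by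
  classical
  by_contra hcon
  push Not at hcon
  obtain ⟨i₀, hi₀⟩ := hcon
  choose hwh hwA using hw
  choose hch hcA using hc
  obtain ⟨κ₂, hκ₂⟩ := quantE
  set H : ℕ := ∑ i, (hwh i + hch i) + M with hH
  have hHw : ∀ i, hwh i ≤ H := fun i => by
    have := Finset.single_le_sum (f := fun i => hwh i + hch i) (fun _ _ => Nat.zero_le _)
      (Finset.mem_univ i)
    omega
  have hHc : ∀ i, hch i ≤ H := fun i => by
    have := Finset.single_le_sum (f := fun i => hwh i + hch i) (fun _ _ => Nat.zero_le _)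
      (Finset.mem_univ i)
    omega
  -- the distances
  obtain ⟨δ, hδ0, hδ1, hδc, hδw⟩ : ∃ δ : ℝ, 0 < δ ∧ δ ≤ 1 ∧ δ < ‖c i₀‖ ∧
      ∀ i j, i ≠ j → 2 * δ < ‖w i - w j‖ := by
    have h1 : ∀ P : Finset (Fin M × Fin M), ∃ δ : ℝ, 0 < δ ∧ δ ≤ 1 ∧ δ < ‖c i₀‖ ∧
        ∀ x ∈ P, x.1 ≠ x.2 → 2 * δ < ‖w x.1 - w x.2‖ := by
      intro P
      induction P using Finset.induction_on with
      | empty =>
        have : 0 < ‖c i₀‖ := norm_pos_iff.2 hi₀
        refine ⟨min 1 (‖c i₀‖ / 2), by positivity, min_le_left _ _, ?_, by simp⟩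
        exact (min_le_right _ _).trans_lt (by linarith)
      | insert x P hx ih =>
        obtain ⟨δ, h0, h1, h2, h3⟩ := ih
        by_cases hx2 : x.1 = x.2
        · refine ⟨δ, h0, h1, h2, fun y hy hne => ?_⟩
          rcases Finset.mem_insert.1 hy with rfl | hy
          · exact absurd hx2 hne
          · exact h3 y hy hne
        · have h4 : 0 < ‖w x.1 - w x.2‖ := norm_pos_iff.2 (sub_ne_zero.2 fun h => hx2 (hinj h))
          refine ⟨min δ (‖w x.1 - w x.2‖ / 4), by positivity, (min_le_left _ _).trans h1,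
            (min_le_left _ _).trans_lt h2, fun y hy hne => ?_⟩
          rcases Finset.mem_insert.1 hy with rfl | hy
          · have := min_le_right δ (‖w y.1 - w y.2‖ / 4)
            linarith
          · have := min_le_left δ (‖w x.1 - w x.2‖ / 4)
            have := h3 y hy hne
            linarith
    obtain ⟨δ, h0, h1, h2, h3⟩ := h1 Finset.univ
    exact ⟨δ, h0, h1, h2, fun i j hij => h3 (i, j) (Finset.mem_univ _) hij⟩
  set B : ℝ := ∑ i, (Real.exp (‖w i‖ + 1) + ‖c i‖ * (Real.exp ‖w i‖ * 2)) with hB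
  set b : ℕ := ⌈B⌉₊ with hb
  set b' : ℕ := ⌈δ⁻¹⌉₊ with hb'
  set κ₃ : ℕ := κ₂ + H + b + b' with hκ₃
  set κ : ℕ := κ₃ + 2 with hκ
  choose kw hkw using fun i => hwA i κ
  choose kc hkc using fun i => hcA i κ
  set k : ℕ := ∑ i, (kw i + kc i) with hk
  have hkwk : ∀ i, kw i ≤ k := fun i => by
    have := Finset.single_le_sum (f := fun i => kw i + kc i) (fun _ _ => Nat.zero_le _)
      (Finset.mem_univ i)
    omega
  have hkck : ∀ i, kc i ≤ k := fun i => by
    have := Finset.single_le_sum (f := fun i => kw i + kc i) (fun _ _ => Nat.zero_le _)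
      (Finset.mem_univ i)
    omega
  choose w' hw'1 hw'2 using fun i => hkw i k (hkwk i)
  choose c' hc'1 hc'2 using fun i => hkc i k (hkck i)
  have hq2 := hq k
  have htpos : ∀ m, 0 < ((tow m (q k) : ℕ) : ℝ) := fun m => by
    have := le_tow m (q k)
    exact_mod_cast (by omega : 0 < tow m (q k))
  set e : ℝ := ((tow κ (q k) : ℕ) : ℝ)⁻¹ with he
  have he0 : 0 < e := inv_pos.2 (htpos κ)
  have heδ : e ≤ δ := by
    rw [he, inv_le_comm₀ (htpos κ) hδ0]
    have h1 : δ⁻¹ ≤ b' := Nat.le_ceil _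
    have h2 := le_tow κ (q k)
    exact h1.trans (by exact_mod_cast (by omega : b' ≤ tow κ (q k)))
  have hinj' : Function.Injective w' := by
    intro i j hij
    by_contra hne
    have h1 := hδw i j hne
    have h2 : w i - w j = (w i - w' i) - (w j - w' j) := by rw [hij]; ring
    have h3 : ‖w i - w j‖ ≤ e + e := by
      rw [h2]
      exact (norm_sub_le _ _).trans (add_le_add (hw'2 i) (hw'2 j))
    linarith
  have hc'0 : c' i₀ ≠ 0 := by
    intro h0
    have h1 := hc'2 i₀
    rw [h0, sub_zero] at h1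
    linarith
  have hHq := le_tow H (q k)
  have hlow := hκ₂ (tow H (q k)) (by omega) M (tow H (q k)) (tow H (q k)) (by omega) le_rfl le_rfl
    w' c' hinj' ⟨i₀, hc'0⟩
    (fun i => (hw'1 i).mono (tow_mono_left (hHw i) _) (tow_mono_left (hHw i) _))
    (fun i => (hc'1 i).mono (tow_mono_left (hHc i) _) (tow_mono_left (hHc i) _))
  rw [tow_tow] at hlow
  have hup : ‖∑ i, c' i * Complex.exp (w' i)‖ ≤ e * B := by
    have h1 : ∑ i, c' i * Complex.exp (w' i) =
        ∑ i, (c' i * Complex.exp (w' i) - c i * Complex.exp (w i)) := by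
      rw [Finset.sum_sub_distrib, h, sub_zero]
    rw [h1, hB, Finset.mul_sum]
    refine norm_sum_le_of_le _ fun i _ => ?_
    have h2 : c' i * Complex.exp (w' i) - c i * Complex.exp (w i) =
        -((c i - c' i) * Complex.exp (w' i)) +
          c i * (Complex.exp (w i) * (Complex.exp (w' i - w i) - 1)) := by
      rw [mul_sub, ← Complex.exp_add]
      have : w i + (w' i - w i) = w' i := by ring
      rw [this]
      ring
    rw [h2]
    have h3 : ‖w' i - w i‖ ≤ e := by rw [norm_sub_rev]; exact hw'2 i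
    have h4 : ‖w' i‖ ≤ ‖w i‖ + 1 := by
      have : w' i = w i + (w' i - w i) := by ring
      rw [this]
      exact (norm_add_le _ _).trans (by linarith)
    have h5 : ‖Complex.exp (w' i)‖ ≤ Real.exp (‖w i‖ + 1) :=
      (Complex.norm_exp_le_exp_norm _).trans (Real.exp_le_exp.2 h4)
    have h6 : ‖Complex.exp (w' i - w i) - 1‖ ≤ 2 * e :=
      (Complex.norm_exp_sub_one_le (by linarith)).trans (by linarith)
    have h7 : ‖Complex.exp (w i)‖ ≤ Real.exp ‖w i‖ := Complex.norm_exp_le_exp_norm _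
    refine (norm_add_le _ _).trans ?_
    rw [norm_neg, norm_mul, norm_mul, norm_mul]
    have h8 : ‖c i - c' i‖ * ‖Complex.exp (w' i)‖ ≤ e * Real.exp (‖w i‖ + 1) :=
      mul_le_mul (hc'2 i) h5 (norm_nonneg _) he0.le
    have h9 : ‖c i‖ * (‖Complex.exp (w i)‖ * ‖Complex.exp (w' i - w i) - 1‖) ≤
        ‖c i‖ * (Real.exp ‖w i‖ * (2 * e)) :=
      mul_le_mul_of_nonneg_left (mul_le_mul h7 h6 (norm_nonneg _) (Real.exp_pos _).le)
        (norm_nonneg _)
    calc _ ≤ e * Real.exp (‖w i‖ + 1) + ‖c i‖ * (Real.exp ‖w i‖ * (2 * e)) := add_le_add h8 h9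
      _ = _ := by ring
  have hfin := hlow.trans hup
  -- contradiction
  have hBb : B ≤ b := Nat.le_ceil _
  have h1 : ((tow κ (q k) : ℕ) : ℝ) ≤ B * tow (κ₂ + H) (q k) := by
    rw [he, inv_mul_eq_div, le_div_iff₀ (htpos κ), inv_mul_le_iff₀ (htpos (κ₂ + H))] at hfin
    linarith
  have h2 : b * tow (κ₂ + H) (q k) < tow κ (q k) := by
    have e1 : b ≤ tow κ₃ (q k) := by
      have := le_tow κ₃ (q k)
      omega
    have e2 : tow (κ₂ + H) (q k) ≤ tow κ₃ (q k) := tow_mono_left (by omega) _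
    exact (Nat.mul_le_mul e1 e2).trans_lt (tow_sq_lt κ₃ (q k))
  have h3 : (b : ℝ) * tow (κ₂ + H) (q k) < tow κ (q k) := by exact_mod_cast h2
  have h4 : B * tow (κ₂ + H) (q k) ≤ (b : ℝ) * tow (κ₂ + H) (q k) :=
    mul_le_mul_of_nonneg_right hBb (htpos _).le
  linarith

end Pool.Agent.R347.LW
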