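import Pool.Agent.R347.LW.Pow

/-!
# Zeros of generalized polynomials with well approximable coefficients and exponents
-/

set_option autoImplicit false

namespace Pool.Agent.R347.LW

open Polynomial Complex
open scoped Nat NNReal

/-- the algebraic numbers which occur -/
theorem root_tow {ι : Type} [Fintype ι] [Nonempty ι] : ∃ h' : ℕ, ∀ (Y : ℕ), 2 ≤ Y → ∀ (a : ι → ℂ) (e : ι → ℕ) (v : ℕ) (ρ : ℂ),
    (∀ j, RB Y Y (a j)) → Function.Injective e → (∀ j, e j ≤ Y) → (∀ j, a j ≠ 0) → 1 ≤ v → v ≤ Y →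
    ∑ j, a j * ρ ^ e j = 0 → RB (tow h' Y) (tow h' Y) (ρ ^ v) := by
  classical
  let Ω : Type := {Y : ℕ // 2 ≤ Y}
  let Yf : Ω → ℕ := fun ω => ω.1
  have pY : EL Yf (fun ω => (Yf ω : ℝ)) := EL.base
  have pN : ∀ m : ℕ, EL Yf (fun _ => (m : ℝ)) := fun m => EL.const (m : ℝ) (by positivity)
  have p1 : EL Yf (fun _ => (1 : ℝ)) := EL.const 1 (by norm_num)
  have p2 : EL Yf (fun _ => (2 : ℝ)) := EL.const 2 (by norm_num)
  set r : ℕ := Fintype.card ι with hr
  -- the first bounds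
  let fG : Ω → ℕ := fun ω => (r * Yf ω + 1) ^ (r * Yf ω + 1)
  let fN : Ω → ℕ := fun ω => Yf ω * fG ω + 2 ^ (Yf ω * fG ω) * ((Yf ω + 1) * (Yf ω ^ r * (Yf ω + 1))) ^ fG ω
  let fG' : Ω → ℕ := fun ω => (fN ω + 1) ^ (fN ω + 1)
  let fM : Ω → ℕ := fun ω => fG' ω + 2 ^ (fG' ω) * (2 * (fN ω ^ Yf ω * (fN ω + 1) ^ Yf ω)) ^ fG' ω
  have pr : EL Yf (fun ω => ((r * Yf ω + 1 : ℕ) : ℝ)) :=
    (((pN r).mul pY).add p1).of_le (fun ω => by positivity) (fun ω => by push_cast; rfl)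
  have pG : EL Yf (fun ω => ((fG ω : ℕ) : ℝ)) :=
    (pr.npow _ pr).of_le (fun ω => by positivity) (fun ω => by simp only [fG]; push_cast; rfl)
  have pYG : EL Yf (fun ω => ((Yf ω * fG ω : ℕ) : ℝ)) :=
    (pY.mul pG).of_le (fun ω => by positivity) (fun ω => by push_cast; rfl)
  have pfN : EL Yf (fun ω => ((fN ω : ℕ) : ℝ)) :=
    (pYG.add ((p2.npow _ pYG).mul ((((pY.add p1).mul ((pY.npow (fun _ => r) (pN r)).mul (pY.add p1)))).npow _ pG))).of_le
      (fun ω => by positivity) (fun ω => by simp only [fN]; push_cast; rfl)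
  have pfN1 : EL Yf (fun ω => ((fN ω + 1 : ℕ) : ℝ)) :=
    (pfN.add p1).of_le (fun ω => by positivity) (fun ω => by push_cast; rfl)
  have pG' : EL Yf (fun ω => ((fG' ω : ℕ) : ℝ)) :=
    (pfN1.npow _ pfN1).of_le (fun ω => by positivity) (fun ω => by simp only [fG']; push_cast; rfl)
  have pM : EL Yf (fun ω => ((fM ω : ℕ) : ℝ)) :=
    (pG'.add ((p2.npow _ pG').mul (((p2.mul ((pfN.npow _ pY).mul (pfN1.npow _ pY)))).npow _ pG'))).of_le
      (fun ω => by positivity) (fun ω => by simp only [fM]; push_cast; rfl)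
  obtain ⟨h', hh'⟩ := pM
  refine ⟨h', fun Y hY a e v ρ haR hinj heY ha0 hv1 hvY hsum => ?_⟩
  set ω : Ω := ⟨Y, hY⟩ with hω
  have hMle : fM ω ≤ tow h' Y := by
    have h0 := (hh' ω).2
    change ((fM ω : ℕ) : ℝ) ≤ ((tow h' Y : ℕ) : ℝ) at h0
    exact_mod_cast h0
  have hYf : Yf ω = Y := rfl
  by_cases hρ0 : ρ = 0
  · rw [hρ0, zero_pow (by omega)]
    refine ⟨X, X_ne_zero, ?_, fun n => ?_, by simp⟩
    · have := le_tow h' Y
      exact natDegree_X_le.trans (by omega)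
    · have := le_tow h' Y
      rw [coeff_X]
      split_ifs
      · rw [abs_one]; exact_mod_cast (by omega : 1 ≤ tow h' Y)
      · rw [abs_zero]; positivity
  -- the field
  obtain ⟨L, hL1, hL2, hL4, A, D, hA, hD1, hDN, hAI, hAR⟩ := common_field Y Y a haR
  rw [← hr] at hL4 hDN
  set g : ℕ := Fintype.card (L ≃ₐ[ℚ] L) with hg
  obtain ⟨j₀, hj₀⟩ := Finite.exists_max e
  set n : ℕ := e j₀ with hn
  set b : ℕ → L := fun i => ∑ j, if e j = i then A j else 0 with hb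
  have hbe : ∀ j, b (e j) = A j := by
    intro j
    rw [hb]
    simp only
    rw [Finset.sum_eq_single j]
    · rw [if_pos rfl]
    · intro j' _ hj'
      rw [if_neg]
      intro h
      exact hj' (hinj h)
    · intro h; exact absurd (Finset.mem_univ j) h
  have hb0 : ∀ i, (∀ j, e j ≠ i) → b i = 0 := by
    intro i hi
    rw [hb]
    simp only
    exact Finset.sum_eq_zero fun j _ => if_neg (hi j)
  have hA0 : A j₀ ≠ 0 := by
    intro h0
    have := hA j₀
    rw [h0] at this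
    exact ha0 j₀ (by rw [← this]; simp)
  have hsum' : ∑ i ∈ Finset.range (n + 1), ((b i : L) : ℂ) * ρ ^ i = 0 := by
    rw [← hsum]
    have h1 : ∀ i ∈ Finset.range (n + 1), ((b i : L) : ℂ) * ρ ^ i = ∑ j, if e j = i then a j * ρ ^ e j else 0 := by
      intro i _
      rw [hb]
      simp only
      rw [AddSubmonoidClass.coe_finsetSum, Finset.sum_mul]
      refine Finset.sum_congr rfl fun j _ => ?_
      split_ifs with h
      · rw [hA, h]
      · simp
    rw [Finset.sum_congr rfl h1, Finset.sum_comm]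
    refine Finset.sum_congr rfl fun j _ => ?_
    rw [Finset.sum_ite_eq, if_pos]
    exact Finset.mem_range.2 (Nat.lt_succ_of_le (hj₀ j))
  have hYR : (1 : ℝ) ≤ Y := by exact_mod_cast (by omega : 1 ≤ Y)
  have hnY : n ≤ Y := heY j₀
  have hgG : g ≤ fG ω := hL4
  have hN1 : 2 ^ (n * g) * ((n + 1) * (D * (Y + 1))) ^ g ≤ fN ω := by
    refine le_trans ?_ (Nat.le_add_left _ _)
    refine Nat.mul_le_mul ?_ ?_
    · exact Nat.pow_le_pow_right (by norm_num) (Nat.mul_le_mul hnY hgG)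
    · refine le_trans (Nat.pow_le_pow_left (Nat.mul_le_mul (Nat.succ_le_succ hnY) (Nat.mul_le_mul_right _ hDN)) g) ?_
      exact Nat.pow_le_pow_right (by positivity) hgG
  have hmain := poly_prod L n b D hD1 ((Y : ℝ) + 1) (by rw [hbe j₀]; exact hA0) ?_ ?_ ρ hsum' (fN ω) ?_
  · -- the power
    have hng : n * g ≤ fN ω := (Nat.mul_le_mul hnY hgG).trans (Nat.le_add_right _ _)
    have hRB : RB (fN ω) (fN ω) ρ := hmain.mono hng le_rfl
    obtain ⟨L', hL1', hL2', hL4', A', D', hA', hD1', hDN', hAI', hAR'⟩ := common_field (fN ω) (fN ω)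
      (fun _ : Fin 1 => ρ) (fun _ => hRB)
    rw [Fintype.card_fin, one_mul] at hL4'
    rw [Fintype.card_fin, pow_one] at hDN'
    have hAρ : ((A' 0 : L') : ℂ) = ρ := hA' 0
    have hA0' : A' 0 ≠ 0 := by
      intro h0
      rw [h0] at hAρ
      exact hρ0 (by rw [← hAρ]; simp)
    have h5 := pow_root L' (A' 0) hA0' (fN ω) D' hD1' hDN' (hAI' 0) (hAR' 0) 1 0 v le_rfl (ρ ^ v)
      (by rw [hAρ]; ring) (tow h' Y) (fG' ω) hL4' ?_
    · refine h5.mono ?_ le_rfl
      rw [one_mul]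
      exact (Nat.le_add_right _ _).trans hMle
    · refine le_trans ?_ hMle
      refine le_trans ?_ (Nat.le_add_left _ _)
      rw [one_mul, zero_add]
      have hfN1 : 1 ≤ fN ω := hD1'.trans hDN'
      refine Nat.mul_le_mul le_rfl (Nat.pow_le_pow_left (Nat.mul_le_mul le_rfl (Nat.mul_le_mul ?_ ?_)) _)
      · exact Nat.pow_le_pow_right hfN1 hvY
      · exact Nat.pow_le_pow_right (by omega) hvY
  · intro i _
    by_cases h : ∃ j, e j = i
    · obtain ⟨j, rfl⟩ := h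
      rw [hbe]
      exact hAI j
    · rw [hb0 i (fun j hj => h ⟨j, hj⟩), mul_zero]
      exact isIntegral_zero
  · intro i _ σ
    by_cases h : ∃ j, e j = i
    · obtain ⟨j, rfl⟩ := h
      rw [hbe]
      exact hAR j σ
    · rw [hb0 i (fun j hj => h ⟨j, hj⟩), map_zero]
      simp only [ZeroMemClass.coe_zero, norm_zero]
      positivity
  · have h1 : ((2 ^ (n * g) * ((n + 1) * (D * (Y + 1))) ^ g : ℕ) : ℝ) ≤ fN ω := by exact_mod_cast hN1
    push_cast at h1
    exact h1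

/-- the difference of powers -/
theorem pow_sub_le (x y : ℂ) (B : ℝ) (hB : 1 ≤ B) (hx : ‖x‖ ≤ B) (hy : ‖y‖ ≤ B) (n : ℕ) :
    ‖x ^ n - y ^ n‖ ≤ n * B ^ n * ‖x - y‖ := by
  induction n with
  | zero => simp
  | succ n ih =>
    have h1 : x ^ (n + 1) - y ^ (n + 1) = x * (x ^ n - y ^ n) + (x - y) * y ^ n := by ring
    rw [h1]
    refine (norm_add_le _ _).trans ?_
    rw [norm_mul, norm_mul, norm_pow]
    have h2 : ‖x‖ * ‖x ^ n - y ^ n‖ ≤ B * (n * B ^ n * ‖x - y‖) :=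
      mul_le_mul hx ih (norm_nonneg _) (by linarith)
    have h3 : ‖x - y‖ * ‖y‖ ^ n ≤ ‖x - y‖ * (B * B ^ n) := by
      refine mul_le_mul_of_nonneg_left ?_ (norm_nonneg _)
      have h4 : ‖y‖ ^ n ≤ B ^ n := pow_le_pow_left₀ (norm_nonneg _) hy n
      have h5 : B ^ n ≤ B * B ^ n := le_mul_of_one_le_left (by positivity) hB
      exact h4.trans h5
    push_cast
    rw [pow_succ]
    nlinarith

theorem exp_root (l ρ : ℂ) (v : ℕ) (hv : 1 ≤ v) (δ : ℝ) (hvδ : v * δ ≤ 1) (h : ‖exp (l / v) - ρ‖ ≤ δ) :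
    ‖exp l - ρ ^ v‖ ≤ v * δ * Real.exp (‖l‖ + 1) := by
  have hv0 : (0 : ℝ) < v := by exact_mod_cast hv
  have hvC : (v : ℂ) ≠ 0 := by exact_mod_cast (by omega : v ≠ 0)
  have hδ0 : 0 ≤ δ := (norm_nonneg _).trans h
  set B : ℝ := Real.exp ((‖l‖ + 1) / v) with hB
  have hB1 : 1 ≤ B := Real.one_le_exp (by positivity)
  have h1 : ‖exp (l / v)‖ ≤ Real.exp (‖l‖ / v) := by
    refine (Complex.norm_exp_le_exp_norm _).trans (le_of_eq ?_)
    rw [norm_div, Complex.norm_natCast]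
  have h2 : Real.exp (‖l‖ / v) ≤ B := Real.exp_le_exp.2 (by gcongr; linarith)
  have h3 : ‖ρ‖ ≤ B := by
    have h4 : ρ = exp (l / v) - (exp (l / v) - ρ) := by ring
    have h5 : ‖ρ‖ ≤ Real.exp (‖l‖ / v) + δ := by
      rw [h4]
      exact (norm_sub_le _ _).trans (add_le_add h1 h)
    have h6 : δ ≤ 1 / v := by rw [le_div_iff₀ hv0]; linarith
    have h7 : 1 + δ ≤ Real.exp (1 / v) := by
      have := Real.add_one_le_exp (1 / (v : ℝ))
      linarith
    have h8 : 1 ≤ Real.exp (‖l‖ / v) := Real.one_le_exp (by positivity)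
    have h9 : B = Real.exp (‖l‖ / v) * Real.exp (1 / v) := by
      rw [hB, ← Real.exp_add]; congr 1; ring
    rw [h9]
    nlinarith
  have h4 := pow_sub_le _ _ B hB1 (h1.trans h2) h3 v
  have h5 : exp (l / v) ^ v = exp l := by
    rw [← Complex.exp_nat_mul]
    congr 1
    field_simp
  have h6 : B ^ v = Real.exp (‖l‖ + 1) := by
    rw [hB, ← Real.exp_nat_mul]
    congr 1
    field_simp
  rw [h5, h6] at h4
  refine h4.trans ?_
  have h7 : (v : ℝ) * Real.exp (‖l‖ + 1) * ‖exp (l / v) - ρ‖ ≤ v * Real.exp (‖l‖ + 1) * δ :=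
    mul_le_mul_of_nonneg_left h (by positivity)
  linarith

end Pool.Agent.R347.LW
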