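import Pool.Agent.R347.LW.GRoot

/-!
# Zeros of generalized polynomials: the approximation
-/

set_option autoImplicit false

namespace Pool.Agent.R347.LW

open Polynomial Complex
open scoped Nat NNReal

/-- approximation of a zero of a generalized polynomial by zeros of polynomials -/
theorem gen_near {ι : Type} [Fintype ι] [Nonempty ι] (l : ℂ) (c : ι → ℂ) (η : ι → ℝ) (hc : ∀ j, c j ≠ 0)
    (hη : Function.Injective η) (hsum : ∑ j, c j * exp (η j * l) = 0) :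
    ∃ (C' : ℝ) (X₀ : ℕ), 0 < C' ∧ ∀ (ε : ℝ), 0 ≤ ε → C' * ε ≤ 1 → ∀ (a : ι → ℂ) (u : ι → ℤ) (v : ℕ), 1 ≤ v →
      (∀ j, ‖c j - a j‖ ≤ ε) → (∀ j, |η j - u j / v| ≤ ε) → (∀ j, a j ≠ 0) ∧
      ∃ (e : ι → ℕ) (ρ : ℂ) (n : ℕ), Function.Injective e ∧ (∀ j, e j ≤ X₀ * v) ∧ 1 ≤ n ∧ n ≤ X₀ * v ∧
        ∑ j, a j * ρ ^ e j = 0 ∧ ‖exp (l / v) - ρ‖ ^ n ≤ C' * ε := by
  classical
  set Xr : ℝ := 1 + ∑ j, |η j| with hXr
  have hXr0 : 0 ≤ ∑ j, |η j| := Finset.sum_nonneg fun j _ => abs_nonneg _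
  have hηX : ∀ j, |η j| + 1 ≤ Xr := fun j => by
    have := Finset.single_le_sum (f := fun j => |η j|) (fun j _ => abs_nonneg _) (Finset.mem_univ j)
    linarith
  set S : ℝ := Real.exp (‖l‖ * Xr) * (Real.exp (‖l‖ * Xr) * ∑ j, (1 + 2 * ‖c j‖ * ‖l‖)) with hS
  have hS0 : 0 ≤ S := by
    have : 0 ≤ ∑ j, (1 + 2 * ‖c j‖ * ‖l‖) := Finset.sum_nonneg fun j _ => by positivity
    positivity
  set s₁ : ℝ := ∑ j, 2 / ‖c j‖ with hs₁
  set s₂ : ℝ := ∑ i, ∑ j, 4 / |η i - η j| with hs₂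
  set s₃ : ℝ := ∑ j, 2 * S / ‖c j‖ with hs₃
  have hs₁0 : 0 ≤ s₁ := Finset.sum_nonneg fun j _ => by positivity
  have hs₂0 : 0 ≤ s₂ := Finset.sum_nonneg fun i _ => Finset.sum_nonneg fun j _ => by positivity
  have hs₃0 : 0 ≤ s₃ := Finset.sum_nonneg fun j _ => by positivity
  have hl0 := norm_nonneg l
  refine ⟨1 + s₁ + s₂ + s₃ + ‖l‖, ⌈2 * Xr⌉₊, by positivity, fun ε hε hCε a u v hv ha hu => ?_⟩
  have q1 : 0 ≤ s₁ * ε := by positivity
  have q2 : 0 ≤ s₂ * ε := by positivity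
  have q3 : 0 ≤ s₃ * ε := by positivity
  have q4 : 0 ≤ ‖l‖ * ε := by positivity
  have hsumε : ε + s₁ * ε + s₂ * ε + s₃ * ε + ‖l‖ * ε ≤ 1 := by
    refine le_trans (le_of_eq ?_) hCε
    ring
  have hε1 : ε ≤ 1 := by linarith
  have hv0 : (0 : ℝ) < v := by exact_mod_cast hv
  have hvC : (v : ℂ) ≠ 0 := by exact_mod_cast (by omega : v ≠ 0)
  -- lower bounds of the coefficients
  have hcpos : ∀ j, 0 < ‖c j‖ := fun j => norm_pos_iff.2 (hc j)
  have ha2 : ∀ j, ‖c j‖ / 2 ≤ ‖a j‖ := by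
    intro j
    have h1 : 2 / ‖c j‖ ≤ s₁ := Finset.single_le_sum (f := fun j => 2 / ‖c j‖) (fun j _ => by positivity) (Finset.mem_univ j)
    have h2 : 2 / ‖c j‖ * ε ≤ 1 := (mul_le_mul_of_nonneg_right h1 hε).trans (by linarith)
    rw [div_mul_eq_mul_div, div_le_one (hcpos j)] at h2
    have h3 := norm_sub_norm_le (c j) (a j)
    have h4 := ha j
    linarith
  have ha0 : ∀ j, a j ≠ 0 := by
    intro j h0
    have h1 := ha2 j
    rw [h0, norm_zero] at h1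
    have := hcpos j
    linarith
  refine ⟨ha0, ?_⟩
  -- injectivity of the numerators
  have huinj : Function.Injective u := by
    intro i j hij
    by_contra hne
    have hd : 0 < |η i - η j| := abs_pos.2 (sub_ne_zero.2 fun h => hne (hη h))
    have h1 : 4 / |η i - η j| ≤ s₂ := by
      refine (Finset.single_le_sum (f := fun j => 4 / |η i - η j|) (fun j _ => by positivity) (Finset.mem_univ j)).trans ?_
      exact Finset.single_le_sum (f := fun i => ∑ j, 4 / |η i - η j|)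
        (fun i _ => Finset.sum_nonneg fun j _ => by positivity) (Finset.mem_univ i)
    have h2 : 4 / |η i - η j| * ε ≤ 1 := (mul_le_mul_of_nonneg_right h1 hε).trans (by linarith)
    rw [div_mul_eq_mul_div, div_le_one hd] at h2
    have h3 : |η i - η j| ≤ 2 * ε := by
      have h4 : η i - η j = (η i - u i / v) - (η j - u j / v) := by rw [hij]; ring
      rw [h4]
      exact (abs_sub _ _).trans (by linarith [hu i, hu j])
    have h5 : ε = 0 := by linarith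
    rw [h5] at h3
    linarith
  -- the exponents
  obtain ⟨j₁, hj₁⟩ := Finite.exists_min u
  set m : ℤ := u j₁ with hm
  set e : ι → ℕ := fun j => (u j - m).toNat with he
  have heZ : ∀ j, ((e j : ℕ) : ℤ) = u j - m := fun j => Int.toNat_of_nonneg (by linarith [hj₁ j])
  have hsize : ∀ j, |(u j : ℝ) / v| ≤ Xr := by
    intro j
    have h2 : (u j : ℝ) / v = η j - (η j - u j / v) := by ring
    rw [h2]
    exact (abs_sub _ _).trans (by linarith [hu j, hηX j])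
  have heinj : Function.Injective e := by
    intro i j hij
    apply huinj
    have h1 := heZ i
    rw [hij, heZ j] at h1
    linarith
  have heX : ∀ j, e j ≤ ⌈2 * Xr⌉₊ * v := by
    intro j
    have h1 : (e j : ℝ) = u j - m := by exact_mod_cast congrArg (fun z : ℤ => (z : ℝ)) (heZ j)
    have h2 := hsize j
    have h3 := hsize j₁
    rw [abs_div, abs_of_pos hv0, div_le_iff₀ hv0] at h2 h3
    have h4 : (e j : ℝ) ≤ (⌈2 * Xr⌉₊ * v : ℕ) := by
      push_cast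
      have h5 := Nat.le_ceil (2 * Xr)
      have h6 : 2 * Xr * v ≤ ⌈2 * Xr⌉₊ * v := mul_le_mul_of_nonneg_right h5 hv0.le
      have h7 := le_abs_self (u j : ℝ)
      have h8 := neg_abs_le (u j₁ : ℝ)
      rw [h1]
      linarith
    exact_mod_cast h4
  obtain ⟨j₀, hj₀⟩ := Finite.exists_max e
  set n : ℕ := e j₀ with hn
  have hn1 : 1 ≤ n := by
    by_contra h0
    have h1 : ∀ j, j = j₀ := fun j => heinj (by have := hj₀ j; omega)
    have h2 : ∑ j, c j * exp (η j * l) = c j₀ * exp (η j₀ * l) :=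
      Finset.sum_eq_single j₀ (fun j _ hj => absurd (h1 j) hj) (fun h => absurd (Finset.mem_univ _) h)
    rw [h2] at hsum
    exact mul_ne_zero (hc j₀) (Complex.exp_ne_zero _) hsum
  -- the polynomial
  set f : ℂ[X] := ∑ j, C (a j) * X ^ e j with hf
  have hfc : ∀ k, f.coeff k = ∑ j, if k = e j then a j else 0 := by
    intro k
    rw [hf, finsetSum_coeff]
    simp only [coeff_C_mul_X_pow]
  have hfe : f.coeff n = a j₀ := by
    rw [hfc, Finset.sum_eq_single j₀]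
    · rw [if_pos rfl]
    · intro j _ hj
      rw [if_neg]
      intro h
      exact hj (heinj h.symm)
    · intro h; exact absurd (Finset.mem_univ _) h
  have hdeg : f.natDegree = n := by
    refine natDegree_eq_of_le_of_coeff_ne_zero ?_ ?_
    · rw [natDegree_le_iff_coeff_eq_zero]
      intro k hk
      rw [hfc]
      refine Finset.sum_eq_zero fun j _ => if_neg ?_
      have := hj₀ j
      omega
    · rw [hfe]; exact ha0 j₀
  have hlead : f.leadingCoeff = a j₀ := by rw [Polynomial.leadingCoeff, hdeg, hfe]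
  obtain ⟨ρ, hρ, hρy⟩ := near_root f n hdeg hn1 (exp (l / v))
  have hev : ∀ x : ℂ, f.eval x = ∑ j, a j * x ^ e j := by
    intro x
    rw [hf, eval_finsetSum]
    simp only [eval_mul, eval_C, eval_pow, eval_X]
  refine ⟨e, ρ, n, heinj, heX, hn1, heX j₀, by rw [← hev]; exact hρ, ?_⟩
  -- the value
  have hval : f.eval (exp (l / v)) = exp (-(m / v * l)) * ∑ j, (a j * exp (((u j / v : ℝ) : ℂ) * l) - c j * exp (η j * l)) := by
    rw [Finset.sum_sub_distrib, hsum, sub_zero, hev, Finset.mul_sum]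
    refine Finset.sum_congr rfl fun j _ => ?_
    rw [← Complex.exp_nat_mul]
    have h1 : ((e j : ℕ) : ℂ) = u j - m := by exact_mod_cast congrArg (fun z : ℤ => (z : ℂ)) (heZ j)
    have h2 : ((e j : ℕ) : ℂ) * (l / v) = -(m / v * l) + ((u j / v : ℝ) : ℂ) * l := by
      rw [h1]; push_cast; field_simp; ring
    rw [h2, Complex.exp_add]
    ring
  have hterm : ∀ j, ‖a j * exp (((u j / v : ℝ) : ℂ) * l) - c j * exp (η j * l)‖ ≤
      ε * (Real.exp (‖l‖ * Xr) * (1 + 2 * ‖c j‖ * ‖l‖)) := by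
    intro j
    set s : ℂ := ((u j / v : ℝ) : ℂ) * l with hs
    have h1 : a j * exp s - c j * exp (η j * l) = (a j - c j) * exp s + c j * (exp (η j * l) * (exp (s - η j * l) - 1)) := by
      have h2 : exp (η j * l) * exp (s - η j * l) = exp s := by
        rw [← Complex.exp_add]; congr 1; ring
      rw [mul_sub, h2]
      ring
    have h3 : ‖exp s‖ ≤ Real.exp (‖l‖ * Xr) := by
      refine (Complex.norm_exp_le_exp_norm _).trans (Real.exp_le_exp.2 ?_)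
      rw [hs, norm_mul, Complex.norm_real, Real.norm_eq_abs, mul_comm]
      exact mul_le_mul_of_nonneg_left (hsize j) hl0
    have h4 : ‖exp (η j * l)‖ ≤ Real.exp (‖l‖ * Xr) := by
      refine (Complex.norm_exp_le_exp_norm _).trans (Real.exp_le_exp.2 ?_)
      rw [norm_mul, Complex.norm_real, Real.norm_eq_abs, mul_comm]
      exact mul_le_mul_of_nonneg_left (by linarith [hηX j]) hl0
    have h5 : ‖s - η j * l‖ ≤ ‖l‖ * ε := by
      have h6 : s - η j * l = ((u j / v - η j : ℝ) : ℂ) * l := by rw [hs]; push_cast; ring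
      rw [h6, norm_mul, Complex.norm_real, Real.norm_eq_abs, abs_sub_comm, mul_comm]
      exact mul_le_mul_of_nonneg_left (hu j) hl0
    have h7 : ‖exp (s - η j * l) - 1‖ ≤ 2 * (‖l‖ * ε) :=
      (Complex.norm_exp_sub_one_le (h5.trans (by linarith))).trans (by linarith)
    rw [h1]
    refine (norm_add_le _ _).trans ?_
    rw [norm_mul, norm_mul, norm_mul]
    have h8 : ‖a j - c j‖ ≤ ε := by rw [norm_sub_rev]; exact ha j
    have h9 : ‖a j - c j‖ * ‖exp s‖ ≤ ε * Real.exp (‖l‖ * Xr) :=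
      mul_le_mul h8 h3 (norm_nonneg _) hε
    have h10 : ‖exp (η j * l)‖ * ‖exp (s - η j * l) - 1‖ ≤ Real.exp (‖l‖ * Xr) * (2 * (‖l‖ * ε)) :=
      mul_le_mul h4 h7 (norm_nonneg _) (Real.exp_pos _).le
    have h11 := mul_le_mul_of_nonneg_left h10 (norm_nonneg (c j))
    linarith
  have hfin : ‖f.eval (exp (l / v))‖ ≤ ε * S := by
    rw [hval, norm_mul]
    have h1 : ‖exp (-(m / v * l))‖ ≤ Real.exp (‖l‖ * Xr) := by
      refine (Complex.norm_exp_le_exp_norm _).trans (Real.exp_le_exp.2 ?_)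
      rw [norm_neg, norm_mul, mul_comm]
      refine mul_le_mul_of_nonneg_left ?_ hl0
      have h2 := hsize j₁
      rw [← hm] at h2
      have h3 : (m : ℂ) / v = ((m / v : ℝ) : ℂ) := by push_cast; rfl
      rw [h3, Complex.norm_real]
      exact h2
    have h2 : ‖∑ j, (a j * exp (((u j / v : ℝ) : ℂ) * l) - c j * exp (η j * l))‖ ≤
        ∑ j, ε * (Real.exp (‖l‖ * Xr) * (1 + 2 * ‖c j‖ * ‖l‖)) := norm_sum_le_of_le _ fun j _ => hterm j
    refine (mul_le_mul h1 h2 (norm_nonneg _) (Real.exp_pos _).le).trans (le_of_eq ?_)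
    rw [hS, ← Finset.mul_sum, ← Finset.mul_sum]
    ring
  rw [hlead] at hρy
  have h1 : ‖c j₀‖ / 2 * ‖exp (l / v) - ρ‖ ^ n ≤ ε * S :=
    (mul_le_mul_of_nonneg_right (ha2 j₀) (by positivity)).trans (hρy.trans hfin)
  have h2 : ‖exp (l / v) - ρ‖ ^ n ≤ 2 * S / ‖c j₀‖ * ε := by
    rw [div_mul_eq_mul_div, le_div_iff₀ (hcpos j₀)]
    linarith
  have h3 : 2 * S / ‖c j₀‖ ≤ s₃ := Finset.single_le_sum (f := fun j => 2 * S / ‖c j‖)
    (fun j _ => by positivity) (Finset.mem_univ j₀)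
  have h4 : 2 * S / ‖c j₀‖ * ε ≤ s₃ * ε := mul_le_mul_of_nonneg_right h3 hε
  have h5 : (1 + s₁ + s₂ + s₃ + ‖l‖) * ε = ε + s₁ * ε + s₂ * ε + s₃ * ε + ‖l‖ * ε := by ring
  rw [h5]
  linarith

/-- **The zeros of generalized polynomials** with well approximable coefficients and exponents are well
approximable. -/
theorem gen_root {q : ℕ → ℕ} (hq : ∀ k, 2 ≤ q k) {ι : Type} [Fintype ι] [Nonempty ι] (l : ℂ) (c : ι → ℂ) (η : ι → ℝ)
    (hc : ∀ j, Appr q (c j)) (hη : ∀ j, RAppr q (η j)) (hc0 : ∀ j, c j ≠ 0) (hinj : Function.Injective η)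
    (hsum : ∑ j, c j * exp (η j * l) = 0) : Appr q (exp l) := by
  classical
  obtain ⟨C', X₀, hC', hnear⟩ := gen_near l c η hc0 hinj hsum
  obtain ⟨h', hh'⟩ := root_tow (ι := ι)
  choose h₁ hh₁ using hc
  choose h₂ hh₂ using hη
  set H : ℕ := ∑ j, h₁ j + ∑ j, h₂ j with hH
  set r : ℕ := Fintype.card ι with hr
  let Ω : Type := {Y : ℕ // 2 ≤ Y}
  let Yf : Ω → ℕ := fun ω => ω.1
  have pY : EL Yf (fun ω => (Yf ω : ℝ)) := EL.base
  have pN : ∀ m : ℕ, EL Yf (fun _ => (m : ℝ)) := fun m => EL.const (m : ℝ) (by positivity)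
  have p1 : EL Yf (fun _ => (1 : ℝ)) := EL.const 1 (by norm_num)
  -- the bound for the denominators and exponents
  have pX : EL Yf (fun ω => ((Yf ω + (X₀ + 1) * Yf ω ^ r : ℕ) : ℝ)) :=
    (pY.add (((pN X₀).add p1).mul (pY.npow (fun _ => r) (pN r)))).of_le (fun ω => by positivity)
      (fun ω => by push_cast; rfl)
  obtain ⟨h₃, hh₃⟩ := pX
  set H' : ℕ := h₃ + H with hH'
  refine ⟨h' + H', fun κ => ?_⟩
  -- the error
  set C₅ : ℕ := ⌈Real.exp (‖l‖ + 1)⌉₊ with hC₅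
  have pT : ∀ m : ℕ, EL Yf (fun ω => ((tow m (Yf ω) : ℕ) : ℝ)) := fun m => ⟨m, fun ω => ⟨by positivity, le_rfl⟩⟩
  have pE : EL Yf (fun ω => (C' + 1) * (((tow κ (Yf ω) : ℕ) : ℝ) * ((tow H' (Yf ω) : ℕ) : ℝ) * C₅) ^ tow H' (Yf ω)) :=
    ((EL.const C' hC'.le).add p1).mul (((((pT κ).mul (pT H')).mul (pN C₅))).npow _ (pT H'))
  obtain ⟨κ', hκ'⟩ := pE
  choose k₁ hk₁ using fun j => hh₁ j κ'
  choose k₂ hk₂ using fun j => hh₂ j κ'
  refine ⟨∑ j, k₁ j + ∑ j, k₂ j, fun k hk => ?_⟩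
  have hkk₁ : ∀ j, k₁ j ≤ k := fun j => by
    have := Finset.single_le_sum (f := k₁) (fun _ _ => Nat.zero_le _) (Finset.mem_univ j)
    omega
  have hkk₂ : ∀ j, k₂ j ≤ k := fun j => by
    have := Finset.single_le_sum (f := k₂) (fun _ _ => Nat.zero_le _) (Finset.mem_univ j)
    omega
  choose a haR haε using fun j => hk₁ j k (hkk₁ j)
  choose u' v' hv1' hv2' huv' using fun j => hk₂ j k (hkk₂ j)
  set ε : ℝ := ((tow κ' (q k) : ℕ) : ℝ)⁻¹ with hε
  have hq2 := hq k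
  have htpos : ∀ m, 0 < ((tow m (q k) : ℕ) : ℝ) := fun m => by
    have := le_tow m (q k)
    exact_mod_cast (by omega : 0 < tow m (q k))
  have htone : ∀ m, 1 ≤ ((tow m (q k) : ℕ) : ℝ) := fun m => by
    have := le_tow m (q k)
    exact_mod_cast (by omega : 1 ≤ tow m (q k))
  have hε0 : 0 ≤ ε := by rw [hε]; exact (inv_pos.2 (htpos κ')).le
  -- the common denominator
  set v : ℕ := ∏ j, v' j with hv
  have hv1 : 1 ≤ v := Finset.one_le_prod' fun j _ => hv1' j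
  have hvd : ∀ j, v' j * (v / v' j) = v := fun j => Nat.mul_div_cancel' (Finset.dvd_prod_of_mem v' (Finset.mem_univ j))
  set u : ι → ℤ := fun j => u' j * ((v / v' j : ℕ) : ℤ) with hu
  have huv : ∀ j, |η j - u j / v| ≤ ε := by
    intro j
    refine le_trans (le_of_eq ?_) (huv' j)
    congr 2
    have h1 : (v' j : ℝ) ≠ 0 := by exact_mod_cast (by have := hv1' j; omega : v' j ≠ 0)
    have h2 : ((v / v' j : ℕ) : ℝ) ≠ 0 := by
      have h3 := hvd j
      have : v / v' j ≠ 0 := by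
        intro h0
        rw [h0, mul_zero] at h3
        omega
      exact_mod_cast this
    have h4 : (v : ℝ) = v' j * ((v / v' j : ℕ) : ℝ) := by exact_mod_cast (hvd j).symm
    have h5 : ((u j : ℤ) : ℝ) = u' j * ((v / v' j : ℕ) : ℝ) := by
      rw [hu]
      simp only
      rw [Int.cast_mul, Int.cast_natCast]
    rw [h5, h4]
    field_simp
  set Y₀ : ℕ := tow H (q k) with hY₀
  have hY₀2 : 2 ≤ Y₀ := by
    have := le_tow H (q k)
    omega
  have hH₁ : ∀ j, h₁ j ≤ H := fun j => by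
    have := Finset.single_le_sum (f := h₁) (fun _ _ => Nat.zero_le _) (Finset.mem_univ j)
    omega
  have hH₂ : ∀ j, h₂ j ≤ H := fun j => by
    have := Finset.single_le_sum (f := h₂) (fun _ _ => Nat.zero_le _) (Finset.mem_univ j)
    omega
  have hvY : v ≤ Y₀ ^ r := by
    rw [hv, hr, ← Finset.card_univ, ← Finset.prod_const]
    exact Finset.prod_le_prod' fun j _ => (hv2' j).trans (tow_mono_left (hH₂ j) _)
  set Y₁ : ℕ := tow H' (q k) with hY₁
  have hY₁' : Y₀ + (X₀ + 1) * Y₀ ^ r ≤ Y₁ := by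
    have h1 := (hh₃ (⟨Y₀, hY₀2⟩ : Ω)).2
    change ((Y₀ + (X₀ + 1) * Y₀ ^ r : ℕ) : ℝ) ≤ ((tow h₃ Y₀ : ℕ) : ℝ) at h1
    have h2 : Y₀ + (X₀ + 1) * Y₀ ^ r ≤ tow h₃ Y₀ := by exact_mod_cast h1
    rwa [hY₀, tow_tow] at h2
  have hXv : X₀ * v ≤ Y₁ := by
    have h1 : X₀ * v ≤ (X₀ + 1) * Y₀ ^ r := Nat.mul_le_mul (Nat.le_succ _) hvY
    omega
  have hvY₁ : v ≤ Y₁ := by
    have h1 : 1 * v ≤ (X₀ + 1) * Y₀ ^ r := Nat.mul_le_mul (by omega) hvY
    omega
  have hY₁2 : 2 ≤ Y₁ := by omega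
  -- the error
  set δ : ℝ := (((tow κ (q k) : ℕ) : ℝ) * ((Y₁ : ℕ) : ℝ) * C₅)⁻¹ with hδ
  have hC₅1 : (1 : ℝ) ≤ C₅ := by
    have h1 : 1 ≤ Real.exp (‖l‖ + 1) := Real.one_le_exp (by positivity)
    exact h1.trans (Nat.le_ceil _)
  have hY₁R : (1 : ℝ) ≤ Y₁ := by exact_mod_cast (by omega : 1 ≤ Y₁)
  have hprod1 : 1 ≤ ((tow κ (q k) : ℕ) : ℝ) * ((Y₁ : ℕ) : ℝ) * C₅ :=
    one_le_mul_of_one_le_of_one_le (one_le_mul_of_one_le_of_one_le (htone κ) hY₁R) hC₅1
  have hδ0 : 0 < δ := inv_pos.2 (by linarith)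
  have hδ1 : δ ≤ 1 := inv_le_one_of_one_le₀ hprod1
  have hCε : (C' + 1) * ε ≤ δ ^ Y₁ := by
    have h1 := (hκ' (⟨q k, hq2⟩ : Ω)).2
    change (C' + 1) * (((tow κ (q k) : ℕ) : ℝ) * ((Y₁ : ℕ) : ℝ) * C₅) ^ Y₁ ≤ tow κ' (q k) at h1
    rw [hε, hδ, inv_pow, ← div_eq_mul_inv, div_le_iff₀ (htpos κ'), inv_mul_eq_div,
      le_div_iff₀ (pow_pos (by linarith) _)]
    exact h1
  have hCε2 : C' * ε ≤ δ ^ Y₁ := (mul_le_mul_of_nonneg_right (by linarith) hε0).trans hCε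
  have hCε1 : C' * ε ≤ 1 := hCε2.trans (pow_le_one₀ hδ0.le hδ1)
  obtain ⟨ha0, e, ρ, n, heinj, heX, hn1, hnX, hρ, hρy⟩ := hnear ε hε0 hCε1 a u v hv1 haε huv
  have hyρ : ‖exp (l / v) - ρ‖ ≤ δ := by
    have h1 : δ ^ Y₁ ≤ δ ^ n := pow_le_pow_of_le_one hδ0.le hδ1 (hnX.trans hXv)
    exact le_of_pow_le_pow_left₀ (by omega) hδ0.le (hρy.trans (hCε2.trans h1))
  refine ⟨ρ ^ v, ?_, ?_⟩
  · have h1 := hh' Y₁ hY₁2 a e v ρ (fun j => ?_) heinj (fun j => (heX j).trans hXv) ha0 hv1 hvY₁ hρ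
    · rwa [hY₁, tow_tow] at h1
    · have h2 : tow (h₁ j) (q k) ≤ Y₁ := by
        have h3 : tow (h₁ j) (q k) ≤ Y₀ := tow_mono_left (hH₁ j) _
        omega
      exact (haR j).mono h2 h2
  · have hvR : (v : ℝ) ≤ Y₁ := by exact_mod_cast hvY₁
    have hY₁δ : (Y₁ : ℝ) * δ * C₅ = ((tow κ (q k) : ℕ) : ℝ)⁻¹ := by
      rw [hδ]
      have h1 := htpos κ
      have h2 : (Y₁ : ℝ) ≠ 0 := by positivity
      have h3 : (C₅ : ℝ) ≠ 0 := by positivity
      field_simp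
    have hY₁δ1 : (Y₁ : ℝ) * δ ≤ 1 := by
      have h1 : (Y₁ : ℝ) * δ ≤ (Y₁ : ℝ) * δ * C₅ := le_mul_of_one_le_right (by positivity) hC₅1
      rw [hY₁δ] at h1
      exact h1.trans (inv_le_one_of_one_le₀ (htone κ))
    have h1 := exp_root l ρ v hv1 δ ((mul_le_mul_of_nonneg_right hvR hδ0.le).trans hY₁δ1) hyρ
    refine h1.trans ?_
    rw [← hY₁δ]
    exact mul_le_mul (mul_le_mul_of_nonneg_right hvR hδ0.le) (Nat.le_ceil _) (Real.exp_pos _).le (by positivity)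

end Pool.Agent.R347.LW
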