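import Mathlib

/-!
# Hermite's approximations to the exponential function, with explicit bounds
-/

set_option autoImplicit false

namespace Pool.Agent.R347.LW

open Polynomial Complex

open scoped Nat

theorem hasDeriv (p : ℂ[X]) (s : ℂ) (x : ℝ) :
    HasDerivAt (fun x : ℝ ↦ -(cexp (-(x • s)) * p.sumIDeriv.eval (x • s)))
      (s * (cexp (-(x • s)) * p.eval (x • s))) x := by
  have h₀ := (hasDerivAt_id' x).smul_const s
  have h₁ := h₀.fun_neg.cexp
  have h₂ := ((sumIDeriv p).hasDerivAt (x • s)).comp x h₀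
  convert! (h₁.mul h₂).fun_neg using 1
  nth_rw 1 [sumIDeriv_eq_self_add p]
  simp only [one_smul, eval_add, Function.comp_apply]
  ring

theorem integral_eq (p : ℂ[X]) (s : ℂ) :
    s * ∫ x in 0..1, exp (-(x • s)) * p.eval (x • s) =
      -(exp (-s) * p.sumIDeriv.eval s) + p.sumIDeriv.eval 0 := by
  rw [← intervalIntegral.integral_const_mul,
    intervalIntegral.integral_eq_sub_of_hasDerivAt
      (fun x hx => hasDeriv p s x)
      (ContinuousOn.intervalIntegrable (by fun_prop))]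
  simp

/-- `e^s F(0) - F(s)` for the sum `F` of all derivatives of `f` -/
noncomputable def PP (f : ℂ[X]) (s : ℂ) : ℂ :=
  exp s * f.sumIDeriv.eval 0 - f.sumIDeriv.eval s

theorem PP_eq (f : ℂ[X]) (s : ℂ) :
    PP f s = exp s * (s * ∫ x in 0..1, exp (-(x • s)) * f.eval (x • s)) := by
  rw [integral_eq, mul_add, mul_neg, exp_neg, mul_inv_cancel_left₀ (exp_ne_zero s),
    neg_add_eq_sub, PP]

theorem PP_le (f : ℂ[X]) (s : ℂ) (c : ℝ)
    (hc : ∀ x ∈ Set.Ioc (0 : ℝ) 1, ‖f.eval (x • s)‖ ≤ c) :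
    ‖PP f s‖ ≤ Real.exp s.re * (Real.exp ‖s‖ * c * ‖s‖) := by
  have hc0 : 0 ≤ c := (norm_nonneg _).trans (hc 1 (by simp))
  rw [PP_eq f s, mul_comm s, norm_mul, norm_mul, norm_exp]
  gcongr
  rw [intervalIntegral.integral_of_le zero_le_one, ← mul_one (_ * _)]
  convert! MeasureTheory.norm_setIntegral_le_of_norm_le_const _ _
  · rw [Real.volume_real_Ioc_of_le zero_le_one, sub_zero]
  · rw [Real.volume_Ioc, sub_zero]; exact ENNReal.ofReal_lt_top
  intro x hx
  rw [norm_mul, norm_exp]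
  gcongr
  · simp only [Set.mem_Ioc] at hx
    apply (re_le_norm _).trans
    rw [norm_neg, norm_smul, Real.norm_of_nonneg hx.1.le]
    exact mul_le_of_le_one_left (norm_nonneg _) hx.2
  · exact hc x hx

/-- the value at zero of the sum of the derivatives -/
theorem sumIDeriv_zero_le (g : ℂ[X]) (m : ℕ) (hm : g.natDegree < m) (B : ℝ)
    (hB : g.mahlerMeasure ≤ B) : ‖g.sumIDeriv.eval 0‖ ≤ (m ! : ℝ) * (2 ^ m * B) := by
  have hB0 : 0 ≤ B := (mahlerMeasure_nonneg g).trans hB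
  rw [sumIDeriv_apply_of_lt hm, eval_finsetSum]
  have h1 : ∀ i ∈ Finset.range m, ‖(derivative^[i] g).eval 0‖ ≤ ((m - 1) ! : ℝ) * (2 ^ m * B) := by
    intro i hi
    have hi' := Finset.mem_range.1 hi
    rw [← coeff_zero_eq_eval_zero, coeff_iterate_derivative, zero_add, Nat.descFactorial_self,
      nsmul_eq_mul, norm_mul, Complex.norm_natCast]
    have h2 : ‖g.coeff i‖ ≤ 2 ^ m * B := by
      refine (norm_coeff_le_choose_mul_mahlerMeasure i g).trans ?_
      have h3 : ((g.natDegree.choose i : ℕ) : ℝ) ≤ 2 ^ m := by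
        have h4 : g.natDegree.choose i ≤ 2 ^ g.natDegree := Nat.choose_le_two_pow _ _
        have h5 : 2 ^ g.natDegree ≤ 2 ^ m := Nat.pow_le_pow_right (by norm_num) hm.le
        exact_mod_cast h4.trans h5
      exact mul_le_mul h3 hB (mahlerMeasure_nonneg g) (by positivity)
    have h6 : ((i ! : ℕ) : ℝ) ≤ ((m - 1) ! : ℕ) := by
      exact_mod_cast Nat.factorial_le (by omega)
    exact mul_le_mul h6 h2 (norm_nonneg _) (by positivity)
  refine (norm_sum_le_of_le _ h1).trans ?_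
  rw [Finset.sum_const, Finset.card_range, nsmul_eq_mul, ← mul_assoc]
  have h7 : (m : ℝ) * ((m - 1) ! : ℕ) = (m ! : ℕ) := by
    exact_mod_cast Nat.mul_factorial_pred (by omega)
  rw [h7]

/-- Hermite's approximations to `e^r` at the roots `r` of `f`, for a prime number `p` -/
theorem approx (f : ℤ[X]) (hf : f.eval 0 ≠ 0) (δ : ℕ) (hδ : f.natDegree ≤ δ) (K R : ℝ) (hR : 1 ≤ R)
    (hKR : ∀ z : ℂ, ‖z‖ ≤ R → ‖aeval z f‖ ≤ K)
    (hM : (f.map (algebraMap ℤ ℂ)).mahlerMeasure ≤ K) (p : ℕ) (hp : p.Prime)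
    (hpf : (eval 0 f).natAbs < p) :
    ∃ n : ℤ, ¬ (p : ℤ) ∣ n ∧ ∃ g : ℤ[X], g.natDegree ≤ p * f.natDegree - 1 ∧
      |(n : ℝ)| * ((p - 1) ! : ℕ) ≤ ((p * (δ + 1)) ! : ℕ) * (2 ^ (p * (δ + 1)) * K ^ p) ∧
      ∀ r : ℂ, aeval r f = 0 → ‖r‖ ≤ R →
        ‖(n : ℂ) * exp r - p * aeval r g‖ ≤
          Real.exp R * Real.exp R * (R * K) ^ p / ((p - 1) ! : ℕ) := by
  have hf0 : f ≠ 0 := by rintro rfl; simp at hf
  have hK0 : 0 ≤ K := (norm_nonneg _).trans (hKR 0 (by simp; linarith))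
  obtain ⟨gp', -, h'⟩ := eval_sumIDeriv_of_pos (X ^ (p - 1) * f ^ p) hp.pos
  specialize h' 0 (by rw [C_0, sub_zero])
  obtain ⟨gp, gp'_le, h⟩ := aeval_sumIDeriv ℂ (X ^ (p - 1) * f ^ p) p
  set g₀ : ℂ[X] := (X ^ (p - 1) * f ^ p).map (algebraMap ℤ ℂ) with hg₀
  set n : ℤ := f.eval 0 ^ p + p * gp'.eval 0 with hn
  have hF0 : (((p - 1) ! : ℕ) : ℂ) * (n : ℂ) = g₀.sumIDeriv.eval 0 := by
    have e1 : g₀.sumIDeriv.eval 0 = ((sumIDeriv (X ^ (p - 1) * f ^ p)).eval 0 : ℤ) := by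
      rw [hg₀, sumIDeriv_map, ← eq_intCast (algebraMap ℤ ℂ), eval_map_algebraMap,
        ← aeval_algebraMap_apply_eq_algebraMap_eval, map_zero]
    rw [e1, h', hn]
    push_cast
    rw [← Nat.mul_factorial_pred hp.ne_zero]
    simp only [nsmul_eq_mul, eval_pow]
    push_cast
    ring
  refine ⟨n, ?_, gp, ?_, ?_, ?_⟩
  · rw [hn, dvd_add_left (dvd_mul_right _ _)]
    contrapose! hpf with h
    exact Nat.le_of_dvd (Int.natAbs_pos.mpr hf) (Int.natCast_dvd.mp (Int.Prime.dvd_pow' hp h))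
  · refine gp'_le.trans ((tsub_le_tsub_right natDegree_mul_le p).trans ?_)
    rw [natDegree_X_pow, natDegree_pow, tsub_add_eq_add_tsub hp.one_le, tsub_right_comm,
      add_tsub_cancel_left]
  · have hdeg : g₀.natDegree < p * (δ + 1) := by
      have h1 : g₀.natDegree ≤ (p - 1) + p * f.natDegree := by
        refine natDegree_map_le.trans (natDegree_mul_le.trans ?_)
        rw [natDegree_X_pow, natDegree_pow]
      have h2 : p * f.natDegree ≤ p * δ := Nat.mul_le_mul_left p hδ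
      have := hp.pos
      rw [mul_add, mul_one]
      omega
    have hMg : g₀.mahlerMeasure ≤ K ^ p := by
      rw [hg₀, Polynomial.map_mul, Polynomial.map_pow, Polynomial.map_pow, map_X, mahlerMeasure_mul]
      have h1 : ∀ (q : ℂ[X]) (m : ℕ), (q ^ m).mahlerMeasure = q.mahlerMeasure ^ m := by
        intro q m
        induction m with
        | zero => simp
        | succ m ih => rw [pow_succ, mahlerMeasure_mul, ih, pow_succ]
      have hX : (X : ℂ[X]).mahlerMeasure = 1 := by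
        have := mahlerMeasure_X_sub_C 0
        simpa using this
      rw [h1, h1, hX, one_pow, one_mul]
      exact pow_le_pow_left₀ (mahlerMeasure_nonneg _) hM p
    have h2 := sumIDeriv_zero_le g₀ (p * (δ + 1)) hdeg (K ^ p) hMg
    rw [← hF0, norm_mul, Complex.norm_natCast, Complex.norm_intCast, mul_comm] at h2
    exact h2
  · intro r hr hrR
    specialize h r (by
      have h1 : (f.map (algebraMap ℤ ℂ)).IsRoot r := by
        rw [IsRoot.def, eval_map_algebraMap]; exact hr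
      rw [hg₀, Polynomial.map_mul, f.map_pow]
      exact dvd_mul_of_dvd_right (pow_dvd_pow_of_dvd (dvd_iff_isRoot.mpr h1) _) _)
    rw [nsmul_eq_mul] at h
    rw [le_div_iff₀ (Nat.cast_pos.mpr (Nat.factorial_pos _) : (0 : ℝ) < ((p - 1) ! : ℕ)),
      ← Complex.norm_natCast, ← norm_mul]
    have e2 : ((n : ℂ) * exp r - p * aeval r gp) * (((p - 1) ! : ℕ) : ℂ) = PP g₀ r := by
      have e3 : g₀.sumIDeriv.eval r = aeval r (sumIDeriv (X ^ (p - 1) * f ^ p)) := by
        rw [hg₀, sumIDeriv_map, eval_map_algebraMap]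
      rw [PP, ← hF0, e3, h, ← Nat.mul_factorial_pred hp.ne_zero]
      push_cast
      ring
    rw [e2]
    have hb : ∀ x ∈ Set.Ioc (0 : ℝ) 1, ‖g₀.eval (x • r)‖ ≤ R ^ (p - 1) * K ^ p := by
      intro x hx
      have hxr : ‖x • r‖ ≤ R := by
        rw [norm_smul, Real.norm_of_nonneg hx.1.le]
        exact (mul_le_of_le_one_left (norm_nonneg _) hx.2).trans hrR
      rw [hg₀, eval_map_algebraMap, map_mul, map_pow, map_pow, aeval_X, norm_mul, norm_pow, norm_pow]
      exact mul_le_mul (pow_le_pow_left₀ (norm_nonneg _) hxr _)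
        (pow_le_pow_left₀ (norm_nonneg _) (hKR _ hxr) _) (by positivity) (by positivity)
    refine (PP_le g₀ r _ hb).trans ?_
    have h3 : Real.exp r.re ≤ Real.exp R := Real.exp_le_exp.2 ((re_le_norm r).trans hrR)
    have h4 : Real.exp ‖r‖ ≤ Real.exp R := Real.exp_le_exp.2 hrR
    have h5 : Real.exp ‖r‖ * (R ^ (p - 1) * K ^ p) * ‖r‖ ≤ Real.exp R * (R ^ (p - 1) * K ^ p) * R :=
      mul_le_mul (mul_le_mul_of_nonneg_right h4 (by positivity)) hrR (norm_nonneg _) (by positivity)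
    refine (mul_le_mul h3 h5 (by positivity) (by positivity)).trans (le_of_eq ?_)
    have h6 : R ^ p = R ^ (p - 1) * R := by
      rw [← pow_succ, Nat.sub_add_cancel hp.one_le]
    rw [mul_pow, h6]
    ring

end Pool.Agent.R347.LW
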