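import Mathlib

/-!
# Polynomially and exponentially bounded families of numbers
-/

set_option autoImplicit false

namespace Pool.Agent.R347.LW

open scoped Nat

variable {Ω : Type*} (Y : Ω → ℝ)

/-- a family of nonnegative numbers bounded by a power of `Y` -/
def PB (f : Ω → ℝ) : Prop := ∃ c : ℕ, ∀ ω, 0 ≤ f ω ∧ f ω ≤ Y ω ^ c

/-- a family of nonnegative numbers bounded by the exponential of a power of `Y` -/
def EB (f : Ω → ℝ) : Prop := ∃ c : ℕ, ∀ ω, 0 ≤ f ω ∧ f ω ≤ Real.exp (Y ω ^ c)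

variable {Y} (hY : ∀ ω, 2 ≤ Y ω)

include hY

theorem PB.const (a : ℝ) (ha : 0 ≤ a) : PB Y (fun _ => a) := by
  obtain ⟨c, hc⟩ := pow_unbounded_of_one_lt a (one_lt_two : (1 : ℝ) < 2)
  exact ⟨c, fun ω => ⟨ha, hc.le.trans (pow_le_pow_left₀ (by norm_num) (hY ω) c)⟩⟩

omit hY in
theorem PB.of_le {f g : Ω → ℝ} (hg : PB Y g) (h0 : ∀ ω, 0 ≤ f ω) (h : ∀ ω, f ω ≤ g ω) : PB Y f := by
  obtain ⟨c, hc⟩ := hg
  exact ⟨c, fun ω => ⟨h0 ω, (h ω).trans (hc ω).2⟩⟩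

theorem PB.base : PB Y Y := ⟨1, fun ω => ⟨by linarith [hY ω], by simp⟩⟩

theorem PB.add {f g : Ω → ℝ} (hf : PB Y f) (hg : PB Y g) : PB Y (fun ω => f ω + g ω) := by
  obtain ⟨c, hc⟩ := hf
  obtain ⟨d, hd⟩ := hg
  refine ⟨c + d + 1, fun ω => ⟨add_nonneg (hc ω).1 (hd ω).1, ?_⟩⟩
  have h1 : (1 : ℝ) ≤ Y ω := by linarith [hY ω]
  have h2 : f ω ≤ Y ω ^ (c + d) := (hc ω).2.trans (pow_le_pow_right₀ h1 (by omega))
  have h3 : g ω ≤ Y ω ^ (c + d) := (hd ω).2.trans (pow_le_pow_right₀ h1 (by omega))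
  have h4 : 0 ≤ Y ω ^ (c + d) := by positivity
  rw [pow_succ]
  nlinarith [hY ω]

omit hY in
theorem PB.mul {f g : Ω → ℝ} (hf : PB Y f) (hg : PB Y g) : PB Y (fun ω => f ω * g ω) := by
  obtain ⟨c, hc⟩ := hf
  obtain ⟨d, hd⟩ := hg
  refine ⟨c + d, fun ω => ⟨mul_nonneg (hc ω).1 (hd ω).1, ?_⟩⟩
  rw [pow_add]
  exact mul_le_mul (hc ω).2 (hd ω).2 (hd ω).1 ((hc ω).1.trans (hc ω).2)

omit hY in
theorem PB.pow {f : Ω → ℝ} (hf : PB Y f) (n : ℕ) : PB Y (fun ω => f ω ^ n) := by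
  obtain ⟨c, hc⟩ := hf
  refine ⟨c * n, fun ω => ⟨pow_nonneg (hc ω).1 n, ?_⟩⟩
  rw [pow_mul]
  exact pow_le_pow_left₀ (hc ω).1 (hc ω).2 n

omit hY in
theorem PB.exp {f : Ω → ℝ} (hf : PB Y f) : EB Y (fun ω => Real.exp (f ω)) := by
  obtain ⟨c, hc⟩ := hf
  exact ⟨c, fun ω => ⟨(Real.exp_pos _).le, Real.exp_le_exp.2 (hc ω).2⟩⟩

omit hY in
theorem PB.EB {f : Ω → ℝ} (hf : PB Y f) : EB Y f := by
  obtain ⟨c, hc⟩ := hf
  refine ⟨c, fun ω => ⟨(hc ω).1, ?_⟩⟩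
  have := Real.add_one_le_exp (Y ω ^ c)
  linarith [(hc ω).2]

omit hY in
theorem EB.of_exp {f g : Ω → ℝ} (h0 : ∀ ω, 0 ≤ f ω) (hg : PB Y g)
    (h : ∀ ω, f ω ≤ Real.exp (g ω)) : EB Y f := by
  obtain ⟨c, hc⟩ := hg.exp
  exact ⟨c, fun ω => ⟨h0 ω, (h ω).trans (hc ω).2⟩⟩

theorem EB.mul {f g : Ω → ℝ} (hf : EB Y f) (hg : EB Y g) : EB Y (fun ω => f ω * g ω) := by
  obtain ⟨c, hc⟩ := hf
  obtain ⟨d, hd⟩ := hg
  have h1 : PB Y (fun ω => Y ω ^ c + Y ω ^ d) := ((PB.base hY).pow c).add hY ((PB.base hY).pow d)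
  refine EB.of_exp (fun ω => mul_nonneg (hc ω).1 (hd ω).1) h1 fun ω => ?_
  rw [Real.exp_add]
  exact mul_le_mul (hc ω).2 (hd ω).2 (hd ω).1 (Real.exp_pos _).le

theorem EB.npow {f : Ω → ℝ} (hf : EB Y f) (p : Ω → ℕ) (hp : PB Y (fun ω => (p ω : ℝ))) :
    EB Y (fun ω => f ω ^ p ω) := by
  obtain ⟨c, hc⟩ := hf
  have h1 : PB Y (fun ω => (p ω : ℝ) * Y ω ^ c) := hp.mul ((PB.base hY).pow c)
  refine EB.of_exp (fun ω => pow_nonneg (hc ω).1 _) h1 fun ω => ?_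
  rw [Real.exp_nat_mul]
  exact pow_le_pow_left₀ (hc ω).1 (hc ω).2 _

theorem EB.factorial (n : Ω → ℕ) (hn : PB Y (fun ω => (n ω : ℝ))) :
    EB Y (fun ω => (((n ω)! : ℕ) : ℝ)) := by
  obtain ⟨c, hc⟩ := EB.npow hY hn.EB n hn
  refine ⟨c, fun ω => ⟨by positivity, ?_⟩⟩
  refine le_trans ?_ (hc ω).2
  show (((n ω)! : ℕ) : ℝ) ≤ (n ω : ℝ) ^ n ω
  exact_mod_cast Nat.factorial_le_pow _

omit hY in
theorem small (n : ℕ) (V Q R : ℝ) (hV : 1 ≤ V) (hQ : 1 ≤ Q) (hR : 1 ≤ R)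
    (hn : 21 * (V * Q * R) ≤ n) :
    2 * (V * (Real.exp R * Real.exp R * Q ^ (n + 1))) ≤ ((n ! : ℕ) : ℝ) := by
  have hVQ : 1 ≤ V * Q := one_le_mul_of_one_le_of_one_le hV hQ
  have h1 : (n : ℝ) ^ n / (n ! : ℕ) ≤ Real.exp n := Real.pow_div_factorial_le_exp _ (by positivity) n
  have hf0 : (0 : ℝ) < (n ! : ℕ) := by exact_mod_cast Nat.factorial_pos n
  rw [div_le_iff₀ hf0] at h1
  have hVQR : V * Q ≤ V * Q * R := le_mul_of_one_le_right (by linarith) hR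
  have h2 : 2 * (V * Q) ≤ Real.exp n := by
    have := Real.add_one_le_exp (n : ℝ)
    linarith
  have h3 : Real.exp R * Real.exp R ≤ Real.exp n := by
    rw [← Real.exp_add]
    apply Real.exp_le_exp.2
    have : R ≤ V * Q * R := le_mul_of_one_le_left (by linarith) hVQ
    linarith
  have h4 : Real.exp 3 * Q ≤ n := by
    have e1 := Real.exp_one_lt_d9
    have e2 : Real.exp 3 = Real.exp 1 ^ 3 := by rw [← Real.exp_nat_mul]; norm_num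
    have e3 : Real.exp 3 ≤ 21 := by
      rw [e2]
      refine (pow_le_pow_left₀ (Real.exp_pos 1).le e1.le 3).trans (by norm_num)
    have e4 : Q ≤ V * Q * R := by nlinarith
    nlinarith
  have h5 : (Real.exp 3 * Q) ^ n ≤ (n : ℝ) ^ n := pow_le_pow_left₀ (by positivity) h4 n
  have h6 : Real.exp (n : ℝ) * Real.exp n * (Real.exp n * Q ^ n) = (Real.exp 3 * Q) ^ n := by
    rw [mul_pow, ← Real.exp_nat_mul, ← mul_assoc, ← Real.exp_add, ← Real.exp_add]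
    congr 2
    ring
  have h7 : 2 * (V * (Real.exp R * Real.exp R * Q ^ (n + 1))) * Real.exp n ≤
      (n ! : ℕ) * Real.exp n := by
    rw [mul_comm ((n ! : ℕ) : ℝ)]
    refine le_trans ?_ h1
    refine le_trans ?_ h5
    rw [← h6]
    have e1 : 2 * (V * (Real.exp R * Real.exp R * Q ^ (n + 1))) * Real.exp n =
        (2 * (V * Q)) * (Real.exp R * Real.exp R) * (Real.exp n * Q ^ n) := by ring
    rw [e1]
    gcongr
  exact le_of_mul_le_mul_right h7 (Real.exp_pos _)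

omit hY in
theorem num (m g : ℕ) (hm : 1 ≤ m) (hg : 1 ≤ g) (K₁ m₁ : ℕ)
    (hm₁ : m₁ = (m ^ g) ^ g * g) : ∃ κ : ℕ, ∀ Y : ℝ, 2 ≤ Y → ∀ (D : ℕ) (B R : ℝ),
    1 ≤ D → (D : ℝ) ≤ Y → 1 ≤ B → B ≤ Y → 1 ≤ R → R ≤ Y → ∀ (B₁ R₁ E₁ V K : ℝ),
    B₁ = (((m ^ g) ^ g : ℕ) : ℝ) * (((((m ^ g : ℕ) : ℝ) * (m * B) ^ g) ^ g) * (g * 1)) →
    R₁ = g * (g * R) + g * (g * R) →
    E₁ = (m * (B * Real.exp R)) ^ g *
        ((((m ^ g : ℕ) : ℝ) * ((m * B) ^ g * Real.exp (g * R))) ^ g) *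
        (g * (g * 1 * Real.exp (g * (g * R)))) →
    V = m₁ * ((D : ℝ) ^ K₁ * B₁) → K = (2 * D * R₁) ^ m₁ →
    ∃ p : ℕ, p.Prime ∧ K < p ∧ V < p ∧ D < p ∧
      2 * ((D : ℝ) ^ (p * m₁) * (V * (Real.exp R₁ * Real.exp R₁ * (R₁ * K) ^ p))) ≤
        ((p - 1) ! : ℕ) ∧
      2 * ((D : ℝ) ^ (p * m₁) *
        (((p * (m₁ + 1)) ! : ℕ) * (2 ^ (p * (m₁ + 1)) * K ^ p))) *
        ((D : ℝ) ^ K₁ * E₁) ≤ Real.exp (Y ^ κ) := by
  classical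
  let Ω : Type := {ω : ℝ × ℕ × ℝ × ℝ // 2 ≤ ω.1 ∧ 1 ≤ ω.2.1 ∧ (ω.2.1 : ℝ) ≤ ω.1 ∧
    1 ≤ ω.2.2.1 ∧ ω.2.2.1 ≤ ω.1 ∧ 1 ≤ ω.2.2.2 ∧ ω.2.2.2 ≤ ω.1}
  let Y : Ω → ℝ := fun ω => ω.1.1
  let fD : Ω → ℕ := fun ω => ω.1.2.1
  let fB : Ω → ℝ := fun ω => ω.1.2.2.1
  let fR : Ω → ℝ := fun ω => ω.1.2.2.2
  have hY : ∀ ω, 2 ≤ Y ω := fun ω => ω.2.1
  have hD1 : ∀ ω, 1 ≤ fD ω := fun ω => ω.2.2.1
  have hDR1 : ∀ ω, (1 : ℝ) ≤ fD ω := fun ω => by exact_mod_cast hD1 ω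
  have hB1 : ∀ ω, 1 ≤ fB ω := fun ω => ω.2.2.2.2.1
  have hR1 : ∀ ω, 1 ≤ fR ω := fun ω => ω.2.2.2.2.2.2.1
  have pD : PB Y (fun ω => (fD ω : ℝ)) := (PB.base hY).of_le (fun ω => by positivity)
    (fun ω => ω.2.2.2.1)
  have pB : PB Y fB := (PB.base hY).of_le (fun ω => by linarith [hB1 ω]) (fun ω => ω.2.2.2.2.2.1)
  have pR : PB Y fR := (PB.base hY).of_le (fun ω => by linarith [hR1 ω])
    (fun ω => ω.2.2.2.2.2.2.2)
  have pN : ∀ n : ℕ, PB Y (fun _ => (n : ℝ)) := fun n => PB.const hY n (by positivity)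
  have hgR : (1 : ℝ) ≤ g := by exact_mod_cast hg
  have hmR : (1 : ℝ) ≤ m := by exact_mod_cast hm
  have hm₁1 : 1 ≤ m₁ := by
    rw [hm₁]
    exact Nat.one_le_iff_ne_zero.2 (by positivity)
  have hm₁R : (1 : ℝ) ≤ m₁ := by exact_mod_cast hm₁1
  let fB₁ : Ω → ℝ := fun ω =>
    (((m ^ g) ^ g : ℕ) : ℝ) * (((((m ^ g : ℕ) : ℝ) * (m * fB ω) ^ g) ^ g) * (g * 1))
  let fR₁ : Ω → ℝ := fun ω => g * (g * fR ω) + g * (g * fR ω)
  let fE₁ : Ω → ℝ := fun ω => (m * (fB ω * Real.exp (fR ω))) ^ g *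
        ((((m ^ g : ℕ) : ℝ) * ((m * fB ω) ^ g * Real.exp (g * fR ω))) ^ g) *
        (g * (g * 1 * Real.exp (g * (g * fR ω))))
  let fV : Ω → ℝ := fun ω => m₁ * ((fD ω : ℝ) ^ K₁ * fB₁ ω)
  let fK : Ω → ℝ := fun ω => (2 * fD ω * fR₁ ω) ^ m₁
  let fQ : Ω → ℝ := fun ω => (fD ω : ℝ) ^ m₁ * (fR₁ ω * fK ω)
  let fZ : Ω → ℝ := fun ω => 21 * (fV ω * fQ ω * fR₁ ω) + fK ω + fV ω + fD ω
  have p1 : PB Y (fun _ => (1 : ℝ)) := PB.const hY 1 (by norm_num)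
  have p2 : PB Y (fun _ => (2 : ℝ)) := PB.const hY 2 (by norm_num)
  have pB₁ : PB Y fB₁ := (pN _).mul ((((pN _).mul (((pN _).mul pB).pow g)).pow g).mul
    ((pN _).mul p1))
  have pR₁ : PB Y fR₁ := ((pN _).mul ((pN _).mul pR)).add hY ((pN _).mul ((pN _).mul pR))
  have pV : PB Y fV := (pN _).mul ((pD.pow K₁).mul pB₁)
  have pK : PB Y fK := ((p2.mul pD).mul pR₁).pow m₁
  have pQ : PB Y fQ := (pD.pow m₁).mul (pR₁.mul pK)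
  have pZ : PB Y fZ := ((((PB.const hY 21 (by norm_num)).mul ((pV.mul pQ).mul pR₁)).add hY
    pK).add hY pV).add hY pD
  have eE₁ : EB Y fE₁ := by
    have eg : PB Y (fun _ => (g : ℝ)) := pN g
    refine EB.mul hY (EB.mul hY ?_ ?_) ?_
    · exact EB.npow hY (EB.mul hY (pN _).EB (EB.mul hY pB.EB pR.exp)) (fun _ => g) (pN g)
    · refine EB.npow hY (EB.mul hY (pN _).EB (EB.mul hY (((pN _).mul pB).pow g).EB ?_))
        (fun _ => g) (pN g)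
      exact ((pN g).mul pR).exp
    · exact EB.mul hY (pN g).EB (EB.mul hY ((pN g).mul p1).EB ((pN g).mul ((pN g).mul pR)).exp)
  -- the prime number
  have hp : ∀ ω, ∃ p : ℕ, p.Prime ∧ ⌈fZ ω⌉₊ + 1 < p ∧ p ≤ 2 * (⌈fZ ω⌉₊ + 1) := fun ω =>
    Nat.exists_prime_lt_and_le_two_mul _ (by omega)
  choose fp hpp hp1 hp2 using hp
  have hZ0 : ∀ ω, 0 ≤ fZ ω := fun ω => by
    obtain ⟨c, hc⟩ := pZ
    exact (hc ω).1
  have pp : PB Y (fun ω => (fp ω : ℝ)) := by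
    have : PB Y (fun ω => 2 * (fZ ω + 2)) := p2.mul (pZ.add hY p2)
    refine this.of_le (fun ω => by positivity) fun ω => ?_
    have h1 : ((fp ω : ℕ) : ℝ) ≤ ((2 * (⌈fZ ω⌉₊ + 1) : ℕ) : ℝ) := by exact_mod_cast hp2 ω
    have h2 := (Nat.ceil_lt_add_one (hZ0 ω)).le
    push_cast at h1
    linarith
  have pp' : PB Y (fun ω => ((fp ω * (m₁ + 1) : ℕ) : ℝ)) := by
    have h1 := pp.mul (pN (m₁ + 1))
    refine h1.of_le (fun ω => by positivity) fun ω => ?_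
    push_cast
    exact le_refl _
  have pp'' : PB Y (fun ω => ((fp ω * m₁ : ℕ) : ℝ)) := by
    have h1 := pp.mul (pN m₁)
    refine h1.of_le (fun ω => by positivity) fun ω => ?_
    push_cast
    exact le_refl _
  have eW : EB Y (fun ω => 2 * ((fD ω : ℝ) ^ (fp ω * m₁) *
        (((fp ω * (m₁ + 1)) ! : ℕ) * (2 ^ (fp ω * (m₁ + 1)) * fK ω ^ fp ω))) *
        ((fD ω : ℝ) ^ K₁ * fE₁ ω)) := by
    refine EB.mul hY (EB.mul hY p2.EB (EB.mul hY ?_ (EB.mul hY ?_ (EB.mul hY ?_ ?_))))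
      (EB.mul hY (pD.pow K₁).EB eE₁)
    · exact EB.npow hY pD.EB (fun ω => fp ω * m₁) pp''
    · exact EB.factorial hY _ pp'
    · exact EB.npow hY p2.EB (fun ω => fp ω * (m₁ + 1)) pp'
    · exact EB.npow hY pK.EB fp pp
  obtain ⟨κ, hκ⟩ := eW
  refine ⟨κ, fun Y' hY' D B R hD hDY hB hBY hR hRY B₁ R₁ E₁ V K hB₁ hR₁ hE₁ hV hK => ?_⟩
  let ω : Ω := ⟨(Y', D, B, R), hY', hD, hDY, hB, hBY, hR, hRY⟩
  have eB₁ : B₁ = fB₁ ω := hB₁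
  have eR₁ : R₁ = fR₁ ω := hR₁
  have eE₁' : E₁ = fE₁ ω := hE₁
  have eV : V = fV ω := by rw [hV, eB₁]
  have eK : K = fK ω := by rw [hK, eR₁]
  have hR₁1 : 1 ≤ R₁ := by
    rw [hR₁]
    have : 1 ≤ (g : ℝ) * (g * R) := one_le_mul_of_one_le_of_one_le hgR
      (one_le_mul_of_one_le_of_one_le hgR hR)
    linarith
  have hDR : (1 : ℝ) ≤ D := by exact_mod_cast hD
  have hK1 : 1 ≤ K := by
    rw [hK]
    refine one_le_pow₀ ?_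
    nlinarith
  have hB₁1 : 1 ≤ B₁ := by
    rw [hB₁]
    have h1 : (1 : ℝ) ≤ (((m ^ g) ^ g : ℕ) : ℝ) := by
      exact_mod_cast Nat.one_le_pow _ _ (Nat.one_le_pow _ _ hm)
    have h2 : (1 : ℝ) ≤ ((m ^ g : ℕ) : ℝ) := by exact_mod_cast Nat.one_le_pow _ _ hm
    have h3 : (1 : ℝ) ≤ (m * B) ^ g := one_le_pow₀ (one_le_mul_of_one_le_of_one_le hmR hB)
    have h4 : (1 : ℝ) ≤ (((m ^ g : ℕ) : ℝ) * (m * B) ^ g) ^ g :=
      one_le_pow₀ (one_le_mul_of_one_le_of_one_le h2 h3)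
    exact one_le_mul_of_one_le_of_one_le h1 (one_le_mul_of_one_le_of_one_le h4 (by simpa using hgR))
  have hV1 : 1 ≤ V := by
    rw [hV]
    exact one_le_mul_of_one_le_of_one_le hm₁R
      (one_le_mul_of_one_le_of_one_le (one_le_pow₀ hDR) hB₁1)
  have hQ1 : 1 ≤ (D : ℝ) ^ m₁ * (R₁ * K) :=
    one_le_mul_of_one_le_of_one_le (one_le_pow₀ hDR) (one_le_mul_of_one_le_of_one_le hR₁1 hK1)
  have hZ : fZ ω = 21 * (V * ((D : ℝ) ^ m₁ * (R₁ * K)) * R₁) + K + V + D := by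
    rw [eV, eK, eR₁]
  have hlt : fZ ω < (fp ω : ℝ) - 1 := by
    have h1 : ((⌈fZ ω⌉₊ + 1 : ℕ) : ℝ) < (fp ω : ℝ) := by exact_mod_cast hp1 ω
    have h2 := Nat.le_ceil (fZ ω)
    push_cast at h1
    linarith
  have hpos : 0 ≤ 21 * (V * ((D : ℝ) ^ m₁ * (R₁ * K)) * R₁) := by positivity
  refine ⟨fp ω, hpp ω, ?_, ?_, ?_, ?_, ?_⟩
  · linarith
  · linarith
  · have : (D : ℝ) < fp ω := by linarith
    exact_mod_cast this
  · have hp1' : 1 ≤ fp ω := (hpp ω).one_le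
    have h1 := small (fp ω - 1) V ((D : ℝ) ^ m₁ * (R₁ * K)) R₁ hV1 hQ1 hR₁1 (by
      rw [Nat.cast_sub hp1']
      push_cast
      linarith)
    rw [Nat.sub_add_cancel hp1'] at h1
    refine le_trans (le_of_eq ?_) h1
    rw [mul_pow ((D : ℝ) ^ m₁), ← pow_mul, mul_comm m₁ (fp ω)]
    ring
  · have h1 := (hκ ω).2
    beta_reduce at h1
    rw [← eE₁', ← eK] at h1
    exact h1

end Pool.Agent.R347.LW
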