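import Pool.Agent.R347.LW.Fld

/-!
# Powers of well approximable numbers, and an explicit example
-/

set_option autoImplicit false

namespace Pool.Agent.R347.LW

open Polynomial Complex
open scoped Nat NNReal

/-- `x` has rational approximations with an error which is smaller than the inverse of any tower in
`q k`, and with denominators bounded by a fixed tower in `q k`, for all large `k` -/
def RAppr (q : ℕ → ℕ) (x : ℝ) : Prop :=
  ∃ h : ℕ, ∀ κ : ℕ, ∃ k₀ : ℕ, ∀ k ≥ k₀, ∃ (u : ℤ) (v : ℕ), 1 ≤ v ∧ v ≤ tow h (q k) ∧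
    |x - u / v| ≤ ((tow κ (q k) : ℕ) : ℝ)⁻¹

theorem num_le {x ε : ℝ} (hε : ε ≤ 1) {u : ℤ} {v : ℕ} (hv : 1 ≤ v) (h : |x - u / v| ≤ ε) :
    u.natAbs ≤ ⌈|x| + 1⌉₊ * v := by
  have hv0 : (0 : ℝ) < v := by exact_mod_cast hv
  have h1 : |(u : ℝ) / v| ≤ |x| + 1 := by
    have h2 : (u : ℝ) / v = x - (x - u / v) := by ring
    rw [h2]
    exact (abs_sub _ _).trans (by linarith)
  rw [abs_div, abs_of_pos hv0, div_le_iff₀ hv0] at h1
  have h3 : ((u.natAbs : ℕ) : ℝ) ≤ ((⌈|x| + 1⌉₊ * v : ℕ) : ℝ) := by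
    rw [Nat.cast_natAbs, Int.cast_abs]
    push_cast
    exact h1.trans (mul_le_mul_of_nonneg_right (Nat.le_ceil _) hv0.le)
  exact_mod_cast h3

theorem RAppr.appr {q : ℕ → ℕ} (hq : ∀ k, 2 ≤ q k) {x : ℝ} (hx : RAppr q x) :
    Appr q (x : ℂ) := by
  obtain ⟨h, hh⟩ := hx
  set X₀ : ℕ := ⌈|x| + 1⌉₊ with hX₀
  refine ⟨h + X₀ + 2, fun κ => ?_⟩
  obtain ⟨k₀, hk₀⟩ := hh κ
  refine ⟨k₀, fun k hk => ?_⟩
  obtain ⟨u, v, hv1, hv2, huv⟩ := hk₀ k hk
  have hq2 := hq k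
  have hone : ((tow κ (q k) : ℕ) : ℝ)⁻¹ ≤ 1 := by
    apply inv_le_one_of_one_le₀
    have := le_tow κ (q k)
    exact_mod_cast (by omega : 1 ≤ tow κ (q k))
  have hu := num_le hone hv1 huv
  rw [← hX₀] at hu
  have e1 : v ≤ tow (h + X₀) (q k) := hv2.trans (tow_mono_left (by omega) _)
  have e2 : X₀ ≤ tow (h + X₀) (q k) := by
    have := le_tow (h + X₀) (q k)
    omega
  have e3 := tow_sq_lt (h + X₀) (q k)
  have e4 : X₀ * v ≤ tow (h + X₀) (q k) * tow (h + X₀) (q k) := Nat.mul_le_mul e2 e1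
  have e5 : tow (h + X₀) (q k) ≤ tow (h + X₀ + 2) (q k) := tow_mono_left (by omega) _
  have hv0 : (v : ℂ) ≠ 0 := by exact_mod_cast (by omega : v ≠ 0)
  refine ⟨(u : ℂ) / v, ⟨C (v : ℤ) * X - C u, ?_, ?_, ?_, ?_⟩, ?_⟩
  · intro h0
    have h1 := congrArg (fun P : ℤ[X] => P.coeff 1) h0
    beta_reduce at h1
    rw [coeff_sub, coeff_C_mul, coeff_X_one, mul_one, coeff_C_of_ne_zero one_ne_zero, sub_zero,
      coeff_zero] at h1
    exact hv0 (by exact_mod_cast congrArg (fun t : ℤ => (t : ℂ)) h1)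
  · refine (natDegree_sub_le _ _).trans ?_
    rw [natDegree_C]
    have h1 : (C (v : ℤ) * X).natDegree ≤ 1 := (natDegree_C_mul_le _ _).trans natDegree_X_le
    have h2 := le_tow (h + X₀ + 2) (q k)
    omega
  · intro n
    rw [coeff_sub, coeff_C_mul, coeff_X, coeff_C]
    split_ifs with h1 h2 h2
    · omega
    · rw [mul_one, sub_zero]
      have : |(v : ℤ)| = v := abs_of_nonneg (by positivity)
      rw [this]
      exact_mod_cast e1.trans e5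
    · rw [mul_zero, zero_sub, abs_neg, ← Int.natCast_natAbs]
      exact_mod_cast (by omega : u.natAbs ≤ tow (h + X₀ + 2) (q k))
    · simp
  · rw [map_sub, map_mul, aeval_C, aeval_C, aeval_X, eq_intCast, eq_intCast]
    push_cast
    rw [mul_div_cancel₀ _ hv0, sub_self]
  · have h1 : (x : ℂ) - (u : ℂ) / v = ((x - u / v : ℝ) : ℂ) := by push_cast; rfl
    rw [h1, Complex.norm_real]
    exact huv

theorem pow_root (L : IntermediateField ℚ ℂ) [FiniteDimensional ℚ L] [IsGalois ℚ L] (A : L)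
    (hA0 : A ≠ 0) (N D : ℕ) (hD : 1 ≤ D) (hDN : D ≤ N) (hAI : IsIntegral ℤ ((D : L) * A))
    (hAR : ∀ σ : L ≃ₐ[ℚ] L, ‖((σ A : L) : ℂ)‖ ≤ N + 1) (v m₁ m₂ : ℕ) (hv : 1 ≤ v) (α : ℂ)
    (hα : α ^ v * (A : ℂ) ^ m₁ = (A : ℂ) ^ m₂) (M g : ℕ) (hg : Fintype.card (L ≃ₐ[ℚ] L) ≤ g)
    (hM : 2 ^ (v * g) * ((v + 1) * (N ^ (m₁ + m₂) * (N + 1) ^ (m₁ + m₂))) ^ g ≤ M) :
    RB (v * g) M α := by
  classical
  have hint : ∀ e : ℕ, IsIntegral ℤ ((D : L) ^ e) := by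
    intro e
    have h2 : IsIntegral ℤ (algebraMap ℤ L ((D : ℤ) ^ e)) := isIntegral_algebraMap
    simpa using h2
  have hpi : ∀ e ≤ m₁ + m₂, IsIntegral ℤ (((D ^ (m₁ + m₂) : ℕ) : L) * A ^ e) := by
    intro e he
    have h1 : ((D ^ (m₁ + m₂) : ℕ) : L) * A ^ e = (D : L) ^ (m₁ + m₂ - e) * ((D : L) * A) ^ e := by
      push_cast
      rw [mul_pow, ← mul_assoc, ← pow_add, Nat.sub_add_cancel he]
    rw [h1]
    exact (hint _).mul (hAI.pow e)
  have hN1 : (1 : ℝ) ≤ (N : ℝ) + 1 := by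
    have : (0 : ℝ) ≤ N := by positivity
    linarith
  have hpb : ∀ e ≤ m₁ + m₂, ∀ σ : L ≃ₐ[ℚ] L, ‖((σ (A ^ e) : L) : ℂ)‖ ≤
      ((N : ℝ) + 1) ^ (m₁ + m₂) := by
    intro e he σ
    rw [map_pow]
    push_cast
    rw [norm_pow]
    exact (pow_le_pow_left₀ (norm_nonneg _) (hAR σ) e).trans (pow_le_pow_right₀ hN1 he)
  have h1 := poly_prod L v (fun j => if j = v then A ^ m₁ else if j = 0 then -A ^ m₂ else 0)
    (D ^ (m₁ + m₂)) (Nat.one_le_pow _ _ hD) (((N : ℝ) + 1) ^ (m₁ + m₂)) ?_ ?_ ?_ α ?_ M ?_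
  · exact h1.mono (Nat.mul_le_mul_left v hg) le_rfl
  · rw [if_pos rfl]
    exact pow_ne_zero _ hA0
  · intro j _
    split_ifs
    · exact hpi m₁ (by omega)
    · rw [mul_neg]
      exact (hpi m₂ (by omega)).neg
    · rw [mul_zero]
      exact isIntegral_zero
  · intro j _ σ
    split_ifs
    · exact hpb m₁ (by omega) σ
    · rw [map_neg]
      push_cast
      rw [norm_neg]
      have := hpb m₂ (by omega) σ
      push_cast at this
      exact this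
    · rw [map_zero]
      simp only [ZeroMemClass.coe_zero, norm_zero]
      positivity
  · rw [Finset.sum_eq_add (0 : ℕ) v (by omega)]
    · rw [if_neg (by omega : (0 : ℕ) ≠ v), if_pos rfl, if_pos rfl, pow_zero, mul_one]
      push_cast
      rw [mul_comm ((A : ℂ) ^ m₁), hα]
      ring
    · intro j _ hj
      rw [if_neg hj.2, if_neg hj.1]
      simp
    · intro hj
      exact absurd (Finset.mem_range.2 (by omega)) hj
    · intro hj
      exact absurd (Finset.mem_range.2 (by omega)) hj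
  · have hMR : (2 : ℝ) ^ (v * g) * (((v : ℝ) + 1) * ((N : ℝ) ^ (m₁ + m₂) *
        ((N : ℝ) + 1) ^ (m₁ + m₂))) ^ g ≤ M := by exact_mod_cast hM
    refine le_trans ?_ hMR
    have hDR : (D : ℝ) ≤ N := by exact_mod_cast hDN
    have hNR : (1 : ℝ) ≤ N := by exact_mod_cast hD.trans hDN
    have e1 : ((v : ℝ) + 1) * (((D ^ (m₁ + m₂) : ℕ) : ℝ) * ((N : ℝ) + 1) ^ (m₁ + m₂)) ≤
        ((v : ℝ) + 1) * ((N : ℝ) ^ (m₁ + m₂) * ((N : ℝ) + 1) ^ (m₁ + m₂)) := by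
      push_cast
      gcongr
    have e2 : 1 ≤ ((v : ℝ) + 1) * ((N : ℝ) ^ (m₁ + m₂) * ((N : ℝ) + 1) ^ (m₁ + m₂)) := by
      have f1 : (1 : ℝ) ≤ (v : ℝ) + 1 := by
        have : (0 : ℝ) ≤ v := by positivity
        linarith
      exact one_le_mul_of_one_le_of_one_le f1 (one_le_mul_of_one_le_of_one_le
        (one_le_pow₀ hNR) (one_le_pow₀ hN1))
    refine mul_le_mul ?_ ?_ (by positivity) (by positivity)
    · exact pow_le_pow_right₀ (by norm_num) (Nat.mul_le_mul_left v hg)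
    · exact (pow_le_pow_left₀ (by positivity) e1 _).trans (pow_le_pow_right₀ e2 hg)

theorem Appr.rpow {q : ℕ → ℕ} (hq : ∀ k, 2 ≤ q k) {l : ℂ} (hl : Appr q (Complex.exp l)) {x : ℝ}
    (hx : RAppr q x) : Appr q (Complex.exp (x * l)) := by
  classical
  obtain ⟨h₁, hh₁⟩ := hl
  obtain ⟨h₂, hh₂⟩ := hx
  set a : ℂ := Complex.exp l with ha
  have ha0 : a ≠ 0 := Complex.exp_ne_zero l
  have hna : 0 < ‖a‖ := norm_pos_iff.2 ha0
  set X₀ : ℕ := ⌈|x| + 1⌉₊ with hX₀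
  set H : ℕ := h₁ + h₂ with hH
  -- bounds by towers
  let Ω : Type := {Y : ℕ // 2 ≤ Y}
  let Yf : Ω → ℕ := fun ω => ω.1
  have pY : EL Yf (fun ω => (Yf ω : ℝ)) := EL.base
  have p1 : EL Yf (fun _ => (1 : ℝ)) := EL.const 1 (by norm_num)
  have p2 : EL Yf (fun _ => (2 : ℝ)) := EL.const 2 (by norm_num)
  have pe : EL Yf (fun ω => ((Yf ω + 1 : ℕ) : ℝ)) :=
    (pY.add p1).of_le (fun ω => by positivity) (fun ω => by push_cast; rfl)
  have pG : EL Yf (fun ω => (((Yf ω + 1) ^ (Yf ω + 1) : ℕ) : ℝ)) :=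
    (pe.npow _ pe).of_le (fun ω => by positivity) (fun ω => by push_cast; rfl)
  have pYG : EL Yf (fun ω => ((Yf ω * (Yf ω + 1) ^ (Yf ω + 1) : ℕ) : ℝ)) :=
    (pY.mul pG).of_le (fun ω => by positivity) (fun ω => by push_cast; rfl)
  have pXY : EL Yf (fun ω => ((X₀ * Yf ω : ℕ) : ℝ)) :=
    ((EL.const (X₀ : ℝ) (by positivity)).mul pY).of_le (fun ω => by positivity)
      (fun ω => by push_cast; rfl)
  have pAll : EL Yf (fun ω => (2 : ℝ) ^ (Yf ω * (Yf ω + 1) ^ (Yf ω + 1)) *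
      (((Yf ω : ℝ) + 1) * ((Yf ω : ℝ) ^ (X₀ * Yf ω) * ((Yf ω : ℝ) + 1) ^ (X₀ * Yf ω))) ^
        ((Yf ω + 1) ^ (Yf ω + 1)) + ((Yf ω * (Yf ω + 1) ^ (Yf ω + 1) : ℕ) : ℝ)) :=
    ((p2.npow _ pYG).mul (((pY.add p1).mul ((pY.npow _ pXY).mul
      ((pY.add p1).npow _ pXY))).npow _ pG)).add pYG
  obtain ⟨h', hh'⟩ := pAll
  refine ⟨h' + H, fun κ => ?_⟩
  -- the error
  set C₁ : ℝ := ‖l‖ + (|x| + 1) * (3 / 2 * ‖a‖⁻¹) with hC₁
  have hC₁0 : 0 ≤ C₁ := by positivity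
  set C₂ : ℝ := 2 * ‖a‖⁻¹ + C₁ + Real.exp ‖(x : ℂ) * l‖ * (2 * C₁) with hC₂
  have hC₂0 : 0 ≤ C₂ := by positivity
  have pE : EL Yf (fun ω => (C₂ + 1) * ((tow κ (Yf ω) : ℕ) : ℝ)) :=
    (EL.const (C₂ + 1) (by linarith)).mul ⟨κ, fun ω => ⟨by positivity, le_rfl⟩⟩
  obtain ⟨κ', hκ'⟩ := pE
  obtain ⟨k₁, hk₁⟩ := hh₁ κ'
  obtain ⟨k₂, hk₂⟩ := hh₂ κ'
  refine ⟨max k₁ k₂, fun k hk => ?_⟩
  obtain ⟨a', haR, haε⟩ := hk₁ k ((le_max_left _ _).trans hk)
  obtain ⟨u, v, hv1, hv2, huv⟩ := hk₂ k ((le_max_right _ _).trans hk)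
  set ε : ℝ := ((tow κ' (q k) : ℕ) : ℝ)⁻¹ with hε
  have hq2 := hq k
  have htpos : ∀ m, 0 < ((tow m (q k) : ℕ) : ℝ) := fun m => by
    have := le_tow m (q k)
    exact_mod_cast (by omega : 0 < tow m (q k))
  have htone : ∀ m, 1 ≤ ((tow m (q k) : ℕ) : ℝ) := fun m => by
    have := le_tow m (q k)
    exact_mod_cast (by omega : 1 ≤ tow m (q k))
  have hε0 : 0 ≤ ε := by rw [hε]; exact (inv_pos.2 (htpos κ')).le
  have hε1 : ε ≤ 1 := inv_le_one_of_one_le₀ (htone κ')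
  have hCε : (C₂ + 1) * ε ≤ ((tow κ (q k) : ℕ) : ℝ)⁻¹ := by
    have h1 := (hκ' (⟨q k, hq2⟩ : Ω)).2
    change (C₂ + 1) * ((tow κ (q k) : ℕ) : ℝ) ≤ tow κ' (q k) at h1
    rw [hε, ← div_eq_mul_inv, div_le_iff₀ (htpos κ'), inv_mul_eq_div, le_div_iff₀ (htpos κ)]
    exact h1
  have hCε1 : (C₂ + 1) * ε ≤ 1 := hCε.trans (inv_le_one_of_one_le₀ (htone κ))
  have hE0 : 0 ≤ Real.exp ‖(x : ℂ) * l‖ * (2 * C₁) := by positivity
  have hai : 0 < ‖a‖⁻¹ := inv_pos.2 hna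
  have s1 : ‖a‖⁻¹ * ε ≤ 1 / 2 := by nlinarith
  have s2 : C₁ * ε ≤ 1 := by nlinarith
  have s3 : Real.exp ‖(x : ℂ) * l‖ * (2 * C₁) * ε ≤ ((tow κ (q k) : ℕ) : ℝ)⁻¹ := by
    refine le_trans (mul_le_mul_of_nonneg_right ?_ hε0) hCε
    linarith
  -- the logarithm
  set t : ℂ := a' / a - 1 with ht
  have ht1 : ‖t‖ ≤ ‖a‖⁻¹ * ε := by
    have h1 : t = -((a - a') / a) := by rw [ht]; field_simp; ring
    rw [h1, norm_neg, norm_div, div_eq_inv_mul]
    exact mul_le_mul_of_nonneg_left haε hai.le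
  have ht2 : ‖t‖ ≤ 1 / 2 := ht1.trans s1
  have ht3 : 1 + t ≠ 0 := by
    intro h0
    have h1 : t = -1 := by linear_combination h0
    rw [h1, norm_neg, norm_one] at ht2
    norm_num at ht2
  have ht4 : 1 + t = a' / a := by rw [ht]; ring
  set l' : ℂ := l + Complex.log (1 + t) with hl'
  have hexpl : Complex.exp l' = a' := by
    rw [hl', Complex.exp_add, Complex.exp_log ht3, ht4, ← ha]
    field_simp
  have ha'0 : a' ≠ 0 := by rw [← hexpl]; exact Complex.exp_ne_zero _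
  have hll : ‖l' - l‖ ≤ 3 / 2 * (‖a‖⁻¹ * ε) := by
    rw [hl', add_sub_cancel_left]
    exact (Complex.norm_log_one_add_half_le_self ht2).trans (by linarith)
  have hv0 : (0 : ℝ) < v := by exact_mod_cast hv1
  have hvC : (v : ℂ) ≠ 0 := by exact_mod_cast (by omega : v ≠ 0)
  set r : ℝ := (u : ℝ) / v with hr
  have hr1 : |r| ≤ |x| + 1 := by
    have h2 : r = x - (x - r) := by ring
    rw [h2]
    exact (abs_sub _ _).trans (by linarith)
  refine ⟨Complex.exp (r * l'), ?_, ?_⟩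
  · set N : ℕ := tow h₁ (q k) with hN
    obtain ⟨L, hL1, hL2, hL4, A, D, hA, hD1, hDN, hAI, hAR⟩ := common_field N N
      (fun _ : Fin 1 => a') (fun _ => haR)
    rw [Fintype.card_fin, one_mul] at hL4
    rw [Fintype.card_fin, pow_one] at hDN
    have hA' : ((A 0 : L) : ℂ) = a' := hA 0
    have hA0 : A 0 ≠ 0 := by
      intro h0
      rw [h0] at hA'
      exact ha'0 (by rw [← hA']; simp)
    set m₁ : ℕ := (-u).toNat with hm₁
    set m₂ : ℕ := u.toNat with hm₂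
    have hm : (u : ℤ) + m₁ = m₂ := by
      rw [hm₁, hm₂]
      omega
    have hmabs : m₁ + m₂ = u.natAbs := by
      rw [hm₁, hm₂]
      omega
    have hroot : Complex.exp (r * l') ^ v * ((A 0 : L) : ℂ) ^ m₁ = ((A 0 : L) : ℂ) ^ m₂ := by
      rw [hA', ← hexpl, ← Complex.exp_nat_mul, ← Complex.exp_nat_mul, ← Complex.exp_nat_mul,
        ← Complex.exp_add]
      congr 1
      have h1 : (v : ℂ) * ((r : ℂ) * l') = (u : ℂ) * l' := by
        rw [hr]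
        push_cast
        field_simp
      have h2 : (m₂ : ℂ) = (u : ℂ) + m₁ := by
        have := congrArg (fun z : ℤ => (z : ℂ)) hm
        push_cast at this
        exact this.symm
      rw [h1, h2]
      ring
    set Y₀ : ℕ := tow H (q k) with hY₀
    have hY₀2 : 2 ≤ Y₀ := by
      have := le_tow H (q k)
      omega
    have hNY : N ≤ Y₀ := tow_mono_left (by omega) _
    have hvY : v ≤ Y₀ := hv2.trans (tow_mono_left (by omega) _)
    have hmY : m₁ + m₂ ≤ X₀ * Y₀ := by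
      rw [hmabs]
      exact (num_le hε1 hv1 huv).trans (Nat.mul_le_mul_left _ hvY)
    set g : ℕ := (Y₀ + 1) ^ (Y₀ + 1) with hg
    have hgle : Fintype.card (L ≃ₐ[ℚ] L) ≤ g := by
      refine hL4.trans ?_
      exact (Nat.pow_le_pow_left (by omega) _).trans (Nat.pow_le_pow_right (by omega) (by omega))
    have h1 := (hh' (⟨Y₀, hY₀2⟩ : Ω)).2
    change (2 : ℝ) ^ (Y₀ * g) * (((Y₀ : ℝ) + 1) * ((Y₀ : ℝ) ^ (X₀ * Y₀) *
      ((Y₀ : ℝ) + 1) ^ (X₀ * Y₀))) ^ g + ((Y₀ * g : ℕ) : ℝ) ≤ tow h' Y₀ at h1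
    have h3 : tow h' Y₀ = tow (h' + H) (q k) := by rw [hY₀, tow_tow]
    rw [h3] at h1
    have h4 : (2 : ℕ) ^ (Y₀ * g) * ((Y₀ + 1) * (Y₀ ^ (X₀ * Y₀) *
      (Y₀ + 1) ^ (X₀ * Y₀))) ^ g + Y₀ * g ≤ tow (h' + H) (q k) := by exact_mod_cast h1
    have hmain := pow_root L (A 0) hA0 N D hD1 hDN (hAI 0) (hAR 0) v m₁ m₂ hv1 _ hroot
      (tow (h' + H) (q k)) g hgle ?_
    · refine hmain.mono ?_ le_rfl
      have : v * g ≤ Y₀ * g := Nat.mul_le_mul_right g hvY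
      omega
    · refine le_trans ?_ ((Nat.le_add_right _ _).trans h4)
      have hN1 : 1 ≤ N := hD1.trans hDN
      refine Nat.mul_le_mul ?_ ?_
      · exact Nat.pow_le_pow_right (by norm_num) (Nat.mul_le_mul_right g hvY)
      · refine Nat.pow_le_pow_left ?_ _
        refine Nat.mul_le_mul (by omega) (Nat.mul_le_mul ?_ ?_)
        · exact (Nat.pow_le_pow_left hNY _).trans (Nat.pow_le_pow_right (by omega) hmY)
        · exact (Nat.pow_le_pow_left (by omega) _).trans (Nat.pow_le_pow_right (by omega) hmY)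
  · have h1 : Complex.exp (x * l) - Complex.exp (r * l') =
        -(Complex.exp (x * l) * (Complex.exp (r * l' - x * l) - 1)) := by
      rw [mul_sub, ← Complex.exp_add]
      have : (x : ℂ) * l + (r * l' - x * l) = r * l' := by ring
      rw [this]
      ring
    have h2 : ‖(r : ℂ) * l' - x * l‖ ≤ C₁ * ε := by
      have h3 : (r : ℂ) * l' - x * l = ((r - x : ℝ) : ℂ) * l + r * (l' - l) := by
        push_cast; ring
      rw [h3]
      refine (norm_add_le _ _).trans ?_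
      rw [norm_mul, norm_mul, Complex.norm_real, Complex.norm_real, Real.norm_eq_abs,
        Real.norm_eq_abs]
      have h4 : |r - x| ≤ ε := by rw [abs_sub_comm]; exact huv
      have h5 : |r - x| * ‖l‖ ≤ ε * ‖l‖ := mul_le_mul_of_nonneg_right h4 (norm_nonneg _)
      have h6 : |r| * ‖l' - l‖ ≤ (|x| + 1) * (3 / 2 * (‖a‖⁻¹ * ε)) :=
        mul_le_mul hr1 hll (norm_nonneg _) (by positivity)
      rw [hC₁]
      linarith
    rw [h1, norm_neg, norm_mul]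
    have h3 : ‖Complex.exp (x * l)‖ ≤ Real.exp ‖(x : ℂ) * l‖ := Complex.norm_exp_le_exp_norm _
    have h4 : ‖Complex.exp (r * l' - x * l) - 1‖ ≤ 2 * (C₁ * ε) :=
      (Complex.norm_exp_sub_one_le (h2.trans s2)).trans (by linarith)
    refine (mul_le_mul h3 h4 (norm_nonneg _) (Real.exp_pos _).le).trans ?_
    refine le_trans (le_of_eq ?_) s3
    ring

end Pool.Agent.R347.LW
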