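import Pool.Agent.R347.LW.Ring2
import Pool.Agent.R347.LW.Num

/-!
# A quantitative Lindemann-Weierstrass theorem
-/

set_option autoImplicit false

namespace Pool.Agent.R347.LW

open Polynomial Complex
open Pool.Agent.H340R2.LW
open scoped Nat NNReal

theorem quant_sz (k m g : ℕ) (hm : 1 ≤ m) (hg : 1 ≤ g) : ∃ κ : ℕ, ∀ Y : ℝ, 2 ≤ Y →
    ∀ (D : ℕ) (B R : ℝ), 1 ≤ D → (D : ℝ) ≤ Y → 1 ≤ B → B ≤ Y → 1 ≤ R → R ≤ Y →
    ∀ (L : IntermediateField ℚ ℂ) [FiniteDimensional ℚ L] [IsGalois ℚ L],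
      Fintype.card (L ≃ₐ[ℚ] L) = g → ∀ x : AddMonoidAlgebra L L, x ≠ 0 → Sz L D k m B R x →
        Real.exp (-(Y ^ κ)) ≤ ‖ee L x‖ := by
  obtain ⟨κ, hκ⟩ := num m g hm hg (k * g * g) ((m ^ g) ^ g * g) rfl
  refine ⟨κ, fun Y hY D B R hD hDY hB hBY hR hRY L _ _ hL x hx0 hx => ?_⟩
  obtain ⟨p, hp, hpK, hpV, hpD, hs, hfin⟩ := hκ Y hY D B R hD hDY hB hBY hR hRY _ _ _ _ _
    rfl rfl rfl rfl rfl
  have h1 := lower D k m B R hD hB hR hm x hx0 hx g hL (k * g * g) ((m ^ g) ^ g * g) _ _ _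
    rfl rfl rfl rfl rfl _ _ rfl rfl p hp hpK hpV hpD hs
  have h2 : (1 : ℝ) ≤ (((p - 1) ! : ℕ) : ℝ) := Nat.one_le_cast.2 (Nat.factorial_pos _)
  have h3 := h2.trans h1
  have h5 := mul_le_mul_of_nonneg_right hfin (norm_nonneg (ee L x))
  rw [Real.exp_neg, inv_le_iff_one_le_mul₀' (Real.exp_pos _)]
  refine h3.trans (le_trans (le_of_eq ?_) h5)
  ring

/-- roots of nonzero integer polynomials with bounded degrees and coefficients -/
def RB (d N : ℕ) (a : ℂ) : Prop :=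
  ∃ P : ℤ[X], P ≠ 0 ∧ P.natDegree ≤ d ∧ (∀ n, |P.coeff n| ≤ N) ∧ aeval a P = 0

theorem root_norm_le {N : ℕ} {P : ℤ[X]} (hP : P ≠ 0) (hN : ∀ n, |P.coeff n| ≤ N) {a : ℂ}
    (ha : aeval a P = 0) : ‖a‖ ≤ N + 1 := by
  set p : ℂ[X] := P.map (algebraMap ℤ ℂ) with hp
  have hinj : Function.Injective (algebraMap ℤ ℂ) := (algebraMap ℤ ℂ).injective_int
  have hp0 : p ≠ 0 := (Polynomial.map_ne_zero_iff hinj).2 hP
  have hroot : p.IsRoot a := by
    rw [IsRoot.def, hp, eval_map_algebraMap]; exact ha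
  have h1 := IsRoot.norm_lt_cauchyBound hp0 hroot
  have h2 : cauchyBound p ≤ (N : ℝ≥0) + 1 := by
    rw [cauchyBound]
    refine add_le_add_left ?_ 1
    have hl : (1 : ℝ≥0) ≤ ‖p.leadingCoeff‖₊ := by
      rw [hp, leadingCoeff_map_of_injective hinj]
      have h3 : (1 : ℝ) ≤ ‖(algebraMap ℤ ℂ) P.leadingCoeff‖ := by
        rw [eq_intCast, Complex.norm_intCast]
        exact_mod_cast Int.one_le_abs (leadingCoeff_ne_zero.2 hP)
      exact_mod_cast h3
    have hs : Finset.sup (Finset.range p.natDegree) (fun x => ‖p.coeff x‖₊) ≤ (N : ℝ≥0) := by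
      refine Finset.sup_le fun n _ => ?_
      rw [hp, coeff_map]
      have h3 : ‖(algebraMap ℤ ℂ) (P.coeff n)‖ ≤ (N : ℝ) := by
        rw [eq_intCast, Complex.norm_intCast]
        exact_mod_cast hN n
      exact_mod_cast h3
    refine (div_le_self zero_le hl).trans hs
  have h3 : ‖a‖₊ ≤ (N : ℝ≥0) + 1 := h1.le.trans h2
  exact_mod_cast h3

theorem exists_splitting {ι : Type*} [Fintype ι] (d : ℕ) (P : ι → ℤ[X]) (hP : ∀ i, P i ≠ 0)
    (hd : ∀ i, (P i).natDegree ≤ d) :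
    ∃ L : IntermediateField ℚ ℂ, ∃ _ : FiniteDimensional ℚ L, ∃ _ : IsGalois ℚ L,
      (∀ i, ∀ a : ℂ, aeval a (P i) = 0 → a ∈ L) ∧
      Fintype.card (L ≃ₐ[ℚ] L) ≤ (Fintype.card ι * d + 1) ^ (Fintype.card ι * d + 1) := by
  classical
  set p : ℚ[X] := ∏ i, (P i).map (algebraMap ℤ ℚ) with hp
  have hinj : Function.Injective (algebraMap ℤ ℚ) := (algebraMap ℤ ℚ).injective_int
  have hp0 : p ≠ 0 := Finset.prod_ne_zero_iff.mpr
    (fun i _ => (Polynomial.map_ne_zero_iff hinj).2 (hP i))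
  have hdeg : p.natDegree ≤ Fintype.card ι * d := by
    rw [hp]
    refine (natDegree_prod_le _ _).trans ?_
    refine (Finset.sum_le_card_nsmul _ _ d fun i _ => natDegree_map_le.trans (hd i)).trans ?_
    simp
  have hspl : (p.map (algebraMap ℚ ℂ)).Splits := IsAlgClosed.splits _
  set S : Set ℂ := p.rootSet ℂ with hS
  have hsf : p.IsSplittingField ℚ (IntermediateField.adjoin ℚ S) :=
    IntermediateField.adjoin_rootSet_isSplittingField hspl
  have hno : Normal ℚ (IntermediateField.adjoin ℚ S) := Normal.of_isSplittingField p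
  have hfd : FiniteDimensional ℚ (IntermediateField.adjoin ℚ S) :=
    Polynomial.IsSplittingField.finiteDimensional _ p
  have hgal : IsGalois ℚ (IntermediateField.adjoin ℚ S) := { }
  refine ⟨IntermediateField.adjoin ℚ S, hfd, hgal, fun i a ha => ?_, ?_⟩
  · apply IntermediateField.subset_adjoin
    rw [hS, Polynomial.mem_rootSet]
    refine ⟨hp0, ?_⟩
    rw [hp, map_prod]
    refine Finset.prod_eq_zero (Finset.mem_univ i) ?_
    rw [aeval_map_algebraMap]
    exact ha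
  · have : Finite S := (rootSet_finite p ℂ).to_subtype
    have : Fintype S := Fintype.ofFinite S
    have hcS : Fintype.card S ≤ Fintype.card ι * d := by
      have h1 := ncard_rootSet_le p ℂ
      rw [← Nat.card_coe_set_eq, ← hS, Nat.card_eq_fintype_card] at h1
      exact h1.trans hdeg
    have hmem : ∀ (σ : (IntermediateField.adjoin ℚ S) ≃ₐ[ℚ] (IntermediateField.adjoin ℚ S))
        (s : S), ((σ ⟨s, IntermediateField.subset_adjoin _ _ s.2⟩ :
          IntermediateField.adjoin ℚ S) : ℂ) ∈ S := by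
      intro σ s
      have h1 : (s : ℂ) ∈ p.rootSet ℂ := s.2
      rw [Polynomial.mem_rootSet] at h1
      change _ ∈ p.rootSet ℂ
      rw [Polynomial.mem_rootSet]
      refine ⟨hp0, ?_⟩
      have h2 : aeval (⟨s, IntermediateField.subset_adjoin _ _ s.2⟩ :
          IntermediateField.adjoin ℚ S) p = 0 := by
        apply (algebraMap (IntermediateField.adjoin ℚ S) ℂ).injective
        rw [← aeval_algebraMap_apply, map_zero]
        exact h1.2
      have h3 : aeval (σ ⟨s, IntermediateField.subset_adjoin _ _ s.2⟩) p = 0 := by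
        have h5 := aeval_algHom_apply σ.toAlgHom (⟨s, IntermediateField.subset_adjoin _ _ s.2⟩ :
          IntermediateField.adjoin ℚ S) p
        rw [h2, map_zero] at h5
        exact h5
      have h4 := congrArg (algebraMap (IntermediateField.adjoin ℚ S) ℂ) h3
      rw [← aeval_algebraMap_apply, map_zero] at h4
      exact h4
    set Φ : ((IntermediateField.adjoin ℚ S) ≃ₐ[ℚ] (IntermediateField.adjoin ℚ S)) → (S → S) :=
      fun σ s => ⟨_, hmem σ s⟩ with hΦ
    have hΦi : Function.Injective Φ := by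
      intro σ τ hστ
      have h1 : (σ : (IntermediateField.adjoin ℚ S) →ₐ[ℚ] (IntermediateField.adjoin ℚ S)) =
          (τ : (IntermediateField.adjoin ℚ S) →ₐ[ℚ] (IntermediateField.adjoin ℚ S)) := by
        refine IntermediateField.algHom_ext_of_eq_adjoin _ rfl fun x hx => ?_
        have h2 := congrArg Subtype.val (congrFun hστ ⟨x, hx⟩)
        exact Subtype.ext h2
      exact AlgEquiv.coe_toAlgHom_injective h1
    have h1 := Fintype.card_le_of_injective Φ hΦi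
    rw [Fintype.card_fun] at h1
    refine h1.trans ?_
    refine (Nat.pow_le_pow_left (hcS.trans (Nat.le_succ _)) _).trans ?_
    exact Nat.pow_le_pow_right (by omega) (hcS.trans (Nat.le_succ _))

theorem natAbs_le_of_coeff {N : ℕ} {P : ℤ[X]} (hN : ∀ n, |P.coeff n| ≤ N) :
    P.leadingCoeff.natAbs ≤ N := by
  have h1 := hN P.natDegree
  rw [← Int.natCast_natAbs] at h1
  rw [Polynomial.leadingCoeff]
  exact_mod_cast h1

/-- **A quantitative Lindemann-Weierstrass theorem.** -/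
theorem quant (M d : ℕ) : ∃ κ : ℕ, ∀ N : ℕ, 2 ≤ N → ∀ w c : Fin M → ℂ, Function.Injective w →
    (∃ i, c i ≠ 0) → (∀ i, RB d N (w i)) → (∀ i, RB d N (c i)) →
    Real.exp (-((N : ℝ) ^ κ)) ≤ ‖∑ i, c i * Complex.exp (w i)‖ := by
  classical
  rcases Nat.eq_zero_or_pos M with hM0 | hM
  · subst hM0
    exact ⟨0, fun N _ w c _ hc => (Nat.not_lt_zero _ hc.choose.2).elim⟩
  set G : ℕ := ((2 * M) * d + 1) ^ ((2 * M) * d + 1) with hG
  have hq : ∀ g : ℕ, ∃ κ : ℕ, 1 ≤ g → ∀ Y : ℝ, 2 ≤ Y →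
    ∀ (D : ℕ) (B R : ℝ), 1 ≤ D → (D : ℝ) ≤ Y → 1 ≤ B → B ≤ Y → 1 ≤ R → R ≤ Y →
    ∀ (L : IntermediateField ℚ ℂ) [FiniteDimensional ℚ L] [IsGalois ℚ L],
      Fintype.card (L ≃ₐ[ℚ] L) = g → ∀ x : AddMonoidAlgebra L L, x ≠ 0 → Sz L D 1 M B R x →
        Real.exp (-(Y ^ κ)) ≤ ‖ee L x‖ := by
    intro g
    by_cases hg : 1 ≤ g
    · obtain ⟨κ, hκ⟩ := quant_sz 1 M g hM hg
      exact ⟨κ, fun _ => hκ⟩
    · exact ⟨0, fun h => absurd h hg⟩
  choose κ hκ using hq
  set κ₁ : ℕ := ∑ g ∈ Finset.range (G + 1), κ g with hκ₁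
  refine ⟨(2 * M + 2) * κ₁, fun N hN w c hw hc hwR hcR => ?_⟩
  choose Pw hPw0 hPwd hPwN hPw using hwR
  choose Pc hPc0 hPcd hPcN hPc using hcR
  set P : Fin M ⊕ Fin M → ℤ[X] := Sum.elim Pw Pc with hP
  have hP0 : ∀ i, P i ≠ 0 := by rintro (i | i); exacts [hPw0 i, hPc0 i]
  have hPd : ∀ i, (P i).natDegree ≤ d := by rintro (i | i); exacts [hPwd i, hPcd i]
  have hPN : ∀ i, ∀ n, |(P i).coeff n| ≤ N := by rintro (i | i); exacts [hPwN i, hPcN i]
  obtain ⟨L, hL1, hL2, hL3, hL4⟩ := exists_splitting d P hP0 hPd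
  have hcard : Fintype.card (Fin M ⊕ Fin M) = 2 * M := by
    rw [Fintype.card_sum, Fintype.card_fin]; ring
  rw [hcard] at hL4
  have hwL : ∀ i, w i ∈ L := fun i => hL3 (Sum.inl i) _ (hPw i)
  have hcL : ∀ i, c i ∈ L := fun i => hL3 (Sum.inr i) _ (hPc i)
  set A : Fin M ⊕ Fin M → L := Sum.elim (fun i => ⟨w i, hwL i⟩) (fun i => ⟨c i, hcL i⟩) with hA
  have hAP : ∀ i, aeval (A i) (P i) = 0 := by
    intro i
    apply (algebraMap L ℂ).injective
    rw [← aeval_algebraMap_apply, map_zero]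
    rcases i with i | i
    exacts [hPw i, hPc i]
  set D : ℕ := ∏ i, (P i).leadingCoeff.natAbs with hD
  have hD1 : 1 ≤ D := Nat.one_le_iff_ne_zero.2 (Finset.prod_ne_zero_iff.2 fun i _ =>
    Int.natAbs_ne_zero.2 (leadingCoeff_ne_zero.2 (hP0 i)))
  have hDN : D ≤ N ^ (2 * M) := by
    rw [hD]
    refine (Finset.prod_le_prod' fun i _ => natAbs_le_of_coeff (hPN i)).trans ?_
    rw [Finset.prod_const, Finset.card_univ, hcard]
  have hAI : ∀ i, IsIntegral ℤ ((D : L) * A i) := by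
    intro i
    have h1 : IsIntegral ℤ ((P i).leadingCoeff • A i) := isIntegral_leadingCoeff_smul _ _ (hAP i)
    have h2 : (D : ℤ) = (∏ j ∈ Finset.univ.erase i, ((P j).leadingCoeff.natAbs : ℤ)) *
        ((P i).leadingCoeff.sign * (P i).leadingCoeff) := by
      rw [Int.sign_mul_self_eq_abs, ← Int.natCast_natAbs,
        Finset.prod_erase_mul _ (fun j => ((P j).leadingCoeff.natAbs : ℤ)) (Finset.mem_univ i), hD]
      push_cast
      rfl
    have h3 : (D : L) * A i = ((∏ j ∈ Finset.univ.erase i, ((P j).leadingCoeff.natAbs : ℤ)) *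
        (P i).leadingCoeff.sign) • ((P i).leadingCoeff • A i) := by
      rw [smul_smul, mul_assoc, ← h2, zsmul_eq_mul]
      push_cast
      rfl
    rw [h3]
    exact h1.smul _
  have hAR : ∀ i, ∀ σ : L ≃ₐ[ℚ] L, ‖((σ (A i) : L) : ℂ)‖ ≤ N + 1 := by
    intro i σ
    refine root_norm_le (hP0 i) (hPN i) ?_
    have h1 : aeval (σ (A i)) (P i) = 0 := by
      have h2 := aeval_algHom_apply (σ.toAlgHom.restrictScalars ℤ : L →ₐ[ℤ] L) (A i) (P i)
      rw [hAP, map_zero] at h2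
      exact h2
    have h4 := congrArg (algebraMap L ℂ) h1
    rw [← aeval_algebraMap_apply, map_zero] at h4
    exact h4
  set x : AddMonoidAlgebra L L := ∑ i : Fin M, AddMonoidAlgebra.single (A (Sum.inl i))
    (A (Sum.inr i)) with hx
  have hxS : Sz L D 1 M (M * (N + 1)) (N + 1) x := by
    have h1 := Sz.sum_single (L := L) (D := D) (k := 1) (B := (N : ℝ) + 1) (R := (N : ℝ) + 1)
      (by positivity) (Finset.univ : Finset (Fin M)) (fun i => A (Sum.inl i))
      (fun i => A (Sum.inr i)) (fun i _ => hAI _) (fun i _ σ => hAR _ σ)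
      (fun i _ => by rw [pow_one]; exact hAI _) (fun i _ σ => hAR _ σ)
    simpa using h1
  have hex : ee L x = ∑ i, c i * Complex.exp (w i) := by
    rw [hx, map_sum]
    refine Finset.sum_congr rfl (fun i _ => ?_)
    rw [ee, AddMonoidAlgebra.lift_single]
    rfl
  have hx0 : x ≠ 0 := by
    intro h0
    obtain ⟨i, hi⟩ := hc
    apply hi
    have h1 : x.coeff (A (Sum.inl i)) = A (Sum.inr i) := by
      rw [hx]
      have h2 : (∑ j, AddMonoidAlgebra.single (A (Sum.inl j)) (A (Sum.inr j))).coeff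
          (A (Sum.inl i)) = ∑ j, (AddMonoidAlgebra.single (A (Sum.inl j))
            (A (Sum.inr j))).coeff (A (Sum.inl i)) := by
        simp [AddMonoidAlgebra.coeff_sum]
      rw [h2, Finset.sum_eq_single i]
      · simp
      · intro j _ hji
        rw [AddMonoidAlgebra.coeff_single, Finsupp.single_apply, if_neg]
        intro hcon
        exact hji (hw (congrArg Subtype.val hcon))
      · intro h; exact absurd (Finset.mem_univ i) h
    rw [h0] at h1
    have h2 : (A (Sum.inr i) : ℂ) = 0 := by rw [← h1]; simp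
    exact h2
  set g : ℕ := Fintype.card (L ≃ₐ[ℚ] L) with hg
  have hg1 : 1 ≤ g := Fintype.card_pos
  have hNR : (2 : ℝ) ≤ N := by exact_mod_cast hN
  have hN1 : (1 : ℝ) ≤ N := by linarith
  set Y : ℝ := (N : ℝ) ^ (2 * M + 2) with hY
  have hY2 : 2 ≤ Y := by
    rw [hY]
    calc (2 : ℝ) ≤ (N : ℝ) ^ 1 := by simpa using hNR
      _ ≤ _ := pow_le_pow_right₀ hN1 (by omega)
  have hNN : (N : ℝ) + 1 ≤ (N : ℝ) ^ 2 := by nlinarith
  have hMN : (M : ℝ) ≤ (N : ℝ) ^ M := by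
    have h1 : M < 2 ^ M := Nat.lt_two_pow_self
    have h2 : (M : ℝ) ≤ 2 ^ M := by exact_mod_cast h1.le
    exact h2.trans (pow_le_pow_left₀ (by norm_num) hNR _)
  have hmain := hκ g hg1 Y hY2 D (M * (N + 1)) (N + 1) hD1 ?_ ?_ ?_ (by linarith) ?_ L rfl x hx0 hxS
  · rw [hex] at hmain
    refine le_trans ?_ hmain
    apply Real.exp_le_exp.2
    apply neg_le_neg
    rw [pow_mul]
    have hY1 : 1 ≤ Y := by linarith
    refine pow_le_pow_right₀ hY1 ?_
    rw [hκ₁]
    exact Finset.single_le_sum (f := κ) (fun _ _ => Nat.zero_le _)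
      (Finset.mem_range.2 (Nat.lt_succ_iff.2 hL4))
  · have h1 : (D : ℝ) ≤ (N : ℝ) ^ (2 * M) := by exact_mod_cast hDN
    exact h1.trans (pow_le_pow_right₀ hN1 (by omega))
  · have : (1 : ℝ) ≤ M := by exact_mod_cast hM
    nlinarith
  · calc (M : ℝ) * (N + 1) ≤ (N : ℝ) ^ M * (N : ℝ) ^ 2 :=
        mul_le_mul hMN hNN (by positivity) (by positivity)
      _ = (N : ℝ) ^ (M + 2) := by rw [pow_add]
      _ ≤ _ := pow_le_pow_right₀ hN1 (by omega)
  · exact hNN.trans (pow_le_pow_right₀ hN1 (by omega))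

end Pool.Agent.R347.LW
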