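import Pool.Agent.R347.LW.Tow
import Pool.Agent.R347.LW.Quant

/-!
# A quantitative Lindemann-Weierstrass theorem, all parameters
-/

set_option autoImplicit false

namespace Pool.Agent.R347.LW

open Polynomial Complex
open Pool.Agent.H340R2.LW
open scoped Nat NNReal

theorem quant_szE : ∃ κ : ℕ, ∀ ω : Cfg,
    ∀ (L : IntermediateField ℚ ℂ) [FiniteDimensional ℚ L] [IsGalois ℚ L],
      Fintype.card (L ≃ₐ[ℚ] L) = ω.g → ∀ x : AddMonoidAlgebra L L, x ≠ 0 →
        Sz L ω.D ω.k ω.m ω.B ω.R x → ((tow κ ω.Y : ℕ) : ℝ)⁻¹ ≤ ‖ee L x‖ := by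
  obtain ⟨κ, hκ⟩ := numE
  refine ⟨κ, fun ω L _ _ hL x hx0 hx => ?_⟩
  obtain ⟨p, hp, hpK, hpV, hpD, hs, hfin⟩ := hκ ω _ _ _ _ _ _ _ rfl rfl rfl rfl rfl rfl rfl
  have h1 := lower ω.D ω.k ω.m ω.B ω.R ω.hD ω.hB ω.hR ω.hm x hx0 hx ω.g hL _ _ _ _ _
    rfl rfl rfl rfl rfl _ _ rfl rfl p hp hpK hpV hpD hs
  have h2 : (1 : ℝ) ≤ (((p - 1) ! : ℕ) : ℝ) := Nat.one_le_cast.2 (Nat.factorial_pos _)
  have h3 := h2.trans h1
  have h5 := mul_le_mul_of_nonneg_right hfin (norm_nonneg (ee L x))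
  have h6 : (0 : ℝ) < ((tow κ ω.Y : ℕ) : ℝ) := by
    have := le_tow κ ω.Y
    have := ω.hY
    exact_mod_cast (by omega : 0 < tow κ ω.Y)
  rw [inv_le_iff_one_le_mul₀' h6]
  refine h3.trans (le_trans (le_of_eq ?_) h5)
  ring

/-- a common Galois field for finitely many algebraic numbers -/
theorem common_field {ι : Type*} [Fintype ι] (d N : ℕ) (a : ι → ℂ) (ha : ∀ i, RB d N (a i)) :
    ∃ L : IntermediateField ℚ ℂ, ∃ _ : FiniteDimensional ℚ L, ∃ _ : IsGalois ℚ L,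
      Fintype.card (L ≃ₐ[ℚ] L) ≤ (Fintype.card ι * d + 1) ^ (Fintype.card ι * d + 1) ∧
      ∃ (A : ι → L) (D : ℕ), (∀ i, (A i : ℂ) = a i) ∧ 1 ≤ D ∧ D ≤ N ^ Fintype.card ι ∧
        (∀ i, IsIntegral ℤ ((D : L) * A i)) ∧
        ∀ i, ∀ σ : L ≃ₐ[ℚ] L, ‖((σ (A i) : L) : ℂ)‖ ≤ N + 1 := by
  classical
  choose P hP0 hPd hPN hPa using ha
  obtain ⟨L, hL1, hL2, hL3, hL4⟩ := exists_splitting d P hP0 hPd
  have haL : ∀ i, a i ∈ L := fun i => hL3 i _ (hPa i)
  set A : ι → L := fun i => ⟨a i, haL i⟩ with hA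
  have hAP : ∀ i, aeval (A i) (P i) = 0 := by
    intro i
    apply (algebraMap L ℂ).injective
    rw [← aeval_algebraMap_apply, map_zero]
    exact hPa i
  set D : ℕ := ∏ i, (P i).leadingCoeff.natAbs with hD
  have hD1 : 1 ≤ D := Nat.one_le_iff_ne_zero.2 (Finset.prod_ne_zero_iff.2 fun i _ =>
    Int.natAbs_ne_zero.2 (leadingCoeff_ne_zero.2 (hP0 i)))
  have hDN : D ≤ N ^ Fintype.card ι := by
    rw [hD]
    refine (Finset.prod_le_prod' fun i _ => natAbs_le_of_coeff (hPN i)).trans ?_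
    rw [Finset.prod_const, Finset.card_univ]
  refine ⟨L, hL1, hL2, hL4, A, D, fun _ => rfl, hD1, hDN, ?_, ?_⟩
  · intro i
    have h1 : IsIntegral ℤ ((P i).leadingCoeff • A i) := isIntegral_leadingCoeff_smul _ _ (hAP i)
    have h2 : (D : ℤ) = (∏ j ∈ Finset.univ.erase i, ((P j).leadingCoeff.natAbs : ℤ)) *
        ((P i).leadingCoeff.sign * (P i).leadingCoeff) := by
      rw [Int.sign_mul_self_eq_abs, ← Int.natCast_natAbs,
        Finset.prod_erase_mul _ (fun j => ((P j).leadingCoeff.natAbs : ℤ)) (Finset.mem_univ i), hD]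
      push_cast
      rfl
    have h3 : (D : L) * A i = ((∏ j ∈ Finset.univ.erase i, ((P j).leadingCoeff.natAbs : ℤ)) *
        (P i).leadingCoeff.sign) • ((P i).leadingCoeff • A i) := by
      rw [smul_smul, mul_assoc, ← h2, zsmul_eq_mul]
      push_cast
      rfl
    rw [h3]
    exact h1.smul _
  · intro i σ
    refine root_norm_le (hP0 i) (hPN i) ?_
    have h1 : aeval (σ (A i)) (P i) = 0 := by
      have h2 := aeval_algHom_apply (σ.toAlgHom.restrictScalars ℤ : L →ₐ[ℤ] L) (A i) (P i)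
      rw [hAP, map_zero] at h2
      exact h2
    have h4 := congrArg (algebraMap L ℂ) h1
    rw [← aeval_algebraMap_apply, map_zero] at h4
    exact h4

/-- parameters -/
structure Cfg2 where
  Y : ℕ
  M : ℕ
  d : ℕ
  N : ℕ
  hY : 2 ≤ Y
  hM : M ≤ Y
  hd : d ≤ Y
  hN : N ≤ Y

/-- **A quantitative Lindemann-Weierstrass theorem, uniform in all parameters.** -/
theorem quantE : ∃ κ : ℕ, ∀ Y : ℕ, 2 ≤ Y → ∀ M d N : ℕ, M ≤ Y → d ≤ Y → N ≤ Y →
    ∀ w c : Fin M → ℂ, Function.Injective w →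
    (∃ i, c i ≠ 0) → (∀ i, RB d N (w i)) → (∀ i, RB d N (c i)) →
    ((tow κ Y : ℕ) : ℝ)⁻¹ ≤ ‖∑ i, c i * Complex.exp (w i)‖ := by
  classical
  obtain ⟨κ, hκ⟩ := quant_szE
  let Y : Cfg2 → ℕ := fun ω => ω.Y
  have pY : EL Y (fun ω => (Y ω : ℝ)) := EL.base
  have pM : EL Y (fun ω => (ω.M : ℝ)) := pY.of_le (fun ω => by positivity)
    (fun ω => by exact_mod_cast ω.hM)
  have pd : EL Y (fun ω => (ω.d : ℝ)) := pY.of_le (fun ω => by positivity)
    (fun ω => by exact_mod_cast ω.hd)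
  have pN : EL Y (fun ω => (ω.N : ℝ)) := pY.of_le (fun ω => by positivity)
    (fun ω => by exact_mod_cast ω.hN)
  have p1 : EL Y (fun _ => (1 : ℝ)) := EL.const 1 (by norm_num)
  have p2 : EL Y (fun _ => (2 : ℝ)) := EL.const 2 (by norm_num)
  have pe : EL Y (fun ω => ((2 * ω.M * ω.d + 1 : ℕ) : ℝ)) :=
    (((p2.mul pM).mul pd).add p1).of_le (fun ω => by positivity) (fun ω => by push_cast; rfl)
  have pG : EL Y (fun ω => ((2 * ω.M * ω.d + 1 : ℕ) : ℝ) ^ (2 * ω.M * ω.d + 1)) :=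
    pe.npow _ pe
  have p2M : EL Y (fun ω => ((2 * ω.M : ℕ) : ℝ)) :=
    (p2.mul pM).of_le (fun ω => by positivity) (fun ω => by push_cast; rfl)
  have pD : EL Y (fun ω => (ω.N : ℝ) ^ (2 * ω.M)) := pN.npow _ p2M
  have pB : EL Y (fun ω => (ω.M : ℝ) * ((ω.N : ℝ) + 1)) := pM.mul (pN.add p1)
  have pA : EL Y (fun ω => ((2 * ω.M * ω.d + 1 : ℕ) : ℝ) ^ (2 * ω.M * ω.d + 1) +
    (ω.N : ℝ) ^ (2 * ω.M) + (ω.M : ℝ) * ((ω.N : ℝ) + 1) + ((ω.N : ℝ) + 1) + (ω.M : ℝ)) :=
    ((((pG.add pD).add pB).add (pN.add p1)).add pM)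
  obtain ⟨h, hh⟩ := pA
  refine ⟨κ + h, fun Y' hY' M d N hM hd hN w c hw hc hwR hcR => ?_⟩
  have hM1 : 1 ≤ M := Nat.one_le_iff_ne_zero.2 (by rintro rfl; exact hc.choose.elim0)
  obtain ⟨L, hL1, hL2, hL4, A, D, hA, hD1, hDN, hAI, hAR⟩ := common_field d N
    (Sum.elim w c : Fin M ⊕ Fin M → ℂ) (by rintro (i | i); exacts [hwR i, hcR i])
  have hcard : Fintype.card (Fin M ⊕ Fin M) = 2 * M := by
    rw [Fintype.card_sum, Fintype.card_fin]; ring
  rw [hcard] at hL4 hDN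
  have hall := (hh (⟨Y', M, d, N, hY', hM, hd, hN⟩ : Cfg2)).2
  change ((2 * M * d + 1 : ℕ) : ℝ) ^ (2 * M * d + 1) + (N : ℝ) ^ (2 * M) +
    (M : ℝ) * ((N : ℝ) + 1) + ((N : ℝ) + 1) + (M : ℝ) ≤ tow h Y' at hall
  have q1 : (0 : ℝ) ≤ ((2 * M * d + 1 : ℕ) : ℝ) ^ (2 * M * d + 1) := by positivity
  have q2 : (0 : ℝ) ≤ (N : ℝ) ^ (2 * M) := by positivity
  have q3 : (0 : ℝ) ≤ (M : ℝ) * ((N : ℝ) + 1) := by positivity
  have q4 : (0 : ℝ) ≤ (N : ℝ) := by positivity
  have q5 : (0 : ℝ) ≤ (M : ℝ) := by positivity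
  have hY2 : 2 ≤ tow h Y' := by
    have := le_tow h Y'
    omega
  have hMR : (1 : ℝ) ≤ M := by exact_mod_cast hM1
  set x : AddMonoidAlgebra L L := ∑ i : Fin M, AddMonoidAlgebra.single (A (Sum.inl i))
    (A (Sum.inr i)) with hx
  have hxS : Sz L D 1 M (M * (N + 1)) (N + 1) x := by
    have h1 := Sz.sum_single (L := L) (D := D) (k := 1) (B := (N : ℝ) + 1) (R := (N : ℝ) + 1)
      (by positivity) (Finset.univ : Finset (Fin M)) (fun i => A (Sum.inl i))
      (fun i => A (Sum.inr i)) (fun i _ => hAI _) (fun i _ σ => hAR _ σ)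
      (fun i _ => by rw [pow_one]; exact hAI _) (fun i _ σ => hAR _ σ)
    simpa using h1
  have hex : ee L x = ∑ i, c i * Complex.exp (w i) := by
    rw [hx, map_sum]
    refine Finset.sum_congr rfl (fun i _ => ?_)
    rw [ee, AddMonoidAlgebra.lift_single]
    have e1 : (A (Sum.inl i) : ℂ) = w i := hA _
    have e2 : (A (Sum.inr i) : ℂ) = c i := hA _
    rw [← e1, ← e2]
    rfl
  have hx0 : x ≠ 0 := by
    intro h0
    obtain ⟨i, hi⟩ := hc
    apply hi
    have h1 : x.coeff (A (Sum.inl i)) = A (Sum.inr i) := by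
      rw [hx]
      have h2 : (∑ j, AddMonoidAlgebra.single (A (Sum.inl j)) (A (Sum.inr j))).coeff
          (A (Sum.inl i)) = ∑ j, (AddMonoidAlgebra.single (A (Sum.inl j))
            (A (Sum.inr j))).coeff (A (Sum.inl i)) := by
        simp [AddMonoidAlgebra.coeff_sum]
      rw [h2, Finset.sum_eq_single i]
      · simp
      · intro j _ hji
        rw [AddMonoidAlgebra.coeff_single, Finsupp.single_apply, if_neg]
        intro hcon
        refine hji (hw ?_)
        have h3 := congrArg (fun z : L => (z : ℂ)) hcon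
        simp only [hA] at h3
        exact h3
      · intro h; exact absurd (Finset.mem_univ i) h
    rw [h0] at h1
    have h2 : (A (Sum.inr i) : ℂ) = 0 := by rw [← h1]; simp
    rw [hA] at h2
    exact h2
  have hg1 : 1 ≤ Fintype.card (L ≃ₐ[ℚ] L) := Fintype.card_pos
  have hgY : Fintype.card (L ≃ₐ[ℚ] L) ≤ tow h Y' := by
    have h1 : ((Fintype.card (L ≃ₐ[ℚ] L) : ℕ) : ℝ) ≤
        ((2 * M * d + 1 : ℕ) : ℝ) ^ (2 * M * d + 1) := by exact_mod_cast hL4
    have h2 : ((Fintype.card (L ≃ₐ[ℚ] L) : ℕ) : ℝ) ≤ tow h Y' := by linarith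
    exact_mod_cast h2
  have hmY : M ≤ tow h Y' := by
    have h2 : (M : ℝ) ≤ tow h Y' := by linarith
    exact_mod_cast h2
  have hDY : D ≤ tow h Y' := by
    have h1 : (D : ℝ) ≤ (N : ℝ) ^ (2 * M) := by exact_mod_cast hDN
    have h2 : (D : ℝ) ≤ tow h Y' := by linarith
    exact_mod_cast h2
  let ω : Cfg :=
    { Y := tow h Y', k := 1, m := M, g := Fintype.card (L ≃ₐ[ℚ] L), D := D, B := M * (N + 1)
      R := N + 1, hY := hY2, hk := by omega, hm := hM1, hmY := hmY, hg := hg1, hgY := hgY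
      hD := hD1, hDY := hDY, hB := by nlinarith, hBY := by linarith, hR := by linarith
      hRY := by linarith }
  have hmain := hκ ω L rfl x hx0 hxS
  rw [hex] at hmain
  have h1 : tow κ ω.Y = tow (κ + h) Y' := tow_tow κ h Y'
  rw [h1] at hmain
  exact hmain

/-- roots of polynomials with coefficients in a Galois field -/
theorem poly_prod (L : IntermediateField ℚ ℂ) [FiniteDimensional ℚ L] [IsGalois ℚ L] (n : ℕ)
    (b : ℕ → L) (D : ℕ) (hD : 1 ≤ D) (B : ℝ) (hbn : b n ≠ 0)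
    (hbI : ∀ j ≤ n, IsIntegral ℤ ((D : L) * b j))
    (hbB : ∀ j ≤ n, ∀ σ : L ≃ₐ[ℚ] L, ‖((σ (b j) : L) : ℂ)‖ ≤ B) (α : ℂ)
    (hα : ∑ j ∈ Finset.range (n + 1), ((b j : L) : ℂ) * α ^ j = 0) (N : ℕ)
    (hN : 2 ^ (n * Fintype.card (L ≃ₐ[ℚ] L)) * ((n + 1) * (D * B)) ^
      Fintype.card (L ≃ₐ[ℚ] L) ≤ N) :
    RB (n * Fintype.card (L ≃ₐ[ℚ] L)) N α := by
  classical
  set F : (L ≃ₐ[ℚ] L) → L[X] := fun σ =>
    ∑ j ∈ Finset.range (n + 1), C (σ ((D : L) * b j)) * X ^ j with hF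
  have hFc : ∀ σ k, (F σ).coeff k = if k ∈ Finset.range (n + 1) then σ ((D : L) * b k) else 0 := by
    intro σ k
    rw [hF]
    simp only [finsetSum_coeff, coeff_C_mul_X_pow]
    rw [Finset.sum_ite_eq]
  have hD0 : (D : L) ≠ 0 := by exact_mod_cast (by omega : D ≠ 0)
  have hF0 : ∀ σ, F σ ≠ 0 := by
    intro σ h0
    have h1 := hFc σ n
    rw [h0, coeff_zero, if_pos (Finset.self_mem_range_succ n)] at h1
    have h2 := (map_eq_zero σ).1 h1.symm
    exact mul_ne_zero hD0 hbn h2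
  have hFd : ∀ σ, (F σ).natDegree ≤ n := by
    intro σ
    rw [natDegree_le_iff_coeff_eq_zero]
    intro k hk
    rw [hFc, if_neg]
    rw [Finset.mem_range]
    omega
  set P : L[X] := ∏ σ : L ≃ₐ[ℚ] L, F σ with hP
  have hP0 : P ≠ 0 := Finset.prod_ne_zero_iff.2 fun σ _ => hF0 σ
  have hcoefI : ∀ k, IsIntegral ℤ (P.coeff k) := by
    intro k
    let 𝒪 := integralClosure ℤ L
    have hI : ∀ (σ : L ≃ₐ[ℚ] L) (j : ℕ), ∃ y : 𝒪, (y : L) = (F σ).coeff j := by
      intro σ j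
      rw [hFc]
      split_ifs with hj
      · exact ⟨⟨_, isIntegral_equiv σ (hbI j (Nat.lt_succ_iff.1 (Finset.mem_range.1 hj)))⟩, rfl⟩
      · exact ⟨0, rfl⟩
    choose y hy using hI
    have h1 : ∀ σ, ∃ F' : 𝒪[X], F'.map (algebraMap 𝒪 L) = F σ := by
      intro σ
      refine ⟨∑ j ∈ Finset.range (n + 1), C (y σ j) * X ^ j, ?_⟩
      rw [Polynomial.map_sum]
      have e1 : F σ = ∑ j ∈ Finset.range (n + 1), C ((F σ).coeff j) * X ^ j :=
        as_sum_range_C_mul_X_pow' _ (Nat.lt_succ_iff.2 (hFd σ))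
      refine Eq.trans ?_ e1.symm
      refine Finset.sum_congr rfl fun j _ => ?_
      rw [Polynomial.map_mul, Polynomial.map_pow, map_C, map_X]
      congr 2
      exact hy σ j
    choose F' hF' using h1
    have h2 : (∏ σ, F' σ).map (algebraMap 𝒪 L) = P := by
      rw [Polynomial.map_prod, hP]
      exact Finset.prod_congr rfl fun σ _ => hF' σ
    rw [← h2, coeff_map]
    exact ((∏ σ, F' σ).coeff k).2
  have hG : ∀ τ : L ≃ₐ[ℚ] L, ∀ k, τ (P.coeff k) = P.coeff k := by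
    intro τ k
    have h0 : ∀ σ, (F σ).map (τ : L →+* L) = F (τ * σ) := by
      intro σ
      rw [hF]
      simp only [Polynomial.map_sum, Polynomial.map_mul, Polynomial.map_pow, map_C, map_X]
      rfl
    have h1 : P.map (τ : L →+* L) = P := by
      rw [hP, Polynomial.map_prod]
      simp only [h0]
      exact Fintype.prod_equiv (Equiv.mulLeft τ) _ _ (fun σ => rfl)
    conv_rhs => rw [← h1]
    rw [coeff_map]
    rfl
  have hlift : P ∈ Polynomial.lifts (algebraMap ℤ L) := by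
    rw [lifts_iff_coeff_lifts]
    intro k
    obtain ⟨m, hm⟩ := exists_int L (P.coeff k) ((integral_val L).2 (hcoefI k)) (fun σ => hG σ k)
    exact ⟨m, by rw [← hm]; simp⟩
  obtain ⟨f, hf⟩ := (mem_lifts P).1 hlift
  have hinjL : Function.Injective (algebraMap ℤ L) := (algebraMap ℤ L).injective_int
  have hinjC : Function.Injective (algebraMap ℤ ℂ) := (algebraMap ℤ ℂ).injective_int
  have hfC : f.map (algebraMap ℤ ℂ) = ∏ σ : L ≃ₐ[ℚ] L, (F σ).map (algebraMap L ℂ) := by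
    rw [← Polynomial.map_prod, ← hP, ← hf, Polynomial.map_map]
    congr 1
  have hfd : f.natDegree ≤ n * Fintype.card (L ≃ₐ[ℚ] L) := by
    have h1 : f.natDegree = P.natDegree := by
      rw [← hf, natDegree_map_eq_of_injective hinjL]
    rw [h1, hP]
    refine (natDegree_prod_le _ _).trans ?_
    refine (Finset.sum_le_card_nsmul _ _ n fun σ _ => hFd σ).trans ?_
    rw [Finset.card_univ, smul_eq_mul, mul_comm]
  refine ⟨f, ?_, hfd, ?_, ?_⟩
  · rintro rfl
    rw [Polynomial.map_zero] at hf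
    exact hP0 hf.symm
  · intro k
    have hMs : ∀ σ, ((F σ).map (algebraMap L ℂ)).mahlerMeasure ≤ (n + 1) * (D * B) := by
      intro σ
      refine (mahlerMeasure_le_sum_norm_coeff _).trans ?_
      have h1 : ∀ i ∈ Finset.range (n + 1), ‖((F σ).map (algebraMap L ℂ)).coeff i‖ ≤ D * B := by
        intro i hi
        rw [coeff_map, hFc, if_pos hi]
        have h2 : (algebraMap L ℂ) (σ ((D : L) * b i)) = (D : ℂ) * ((σ (b i) : L) : ℂ) := by
          rw [map_mul, map_natCast, map_mul, map_natCast]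
          rfl
        rw [h2, norm_mul, Complex.norm_natCast]
        exact mul_le_mul_of_nonneg_left (hbB i (Nat.lt_succ_iff.1 (Finset.mem_range.1 hi)) σ)
          (by positivity)
      have h3 : ((F σ).map (algebraMap L ℂ)).sum (fun _ a => ‖a‖) =
          ∑ i ∈ Finset.range (n + 1), ‖((F σ).map (algebraMap L ℂ)).coeff i‖ :=
        Polynomial.sum_over_range' _ (fun _ => norm_zero) (n + 1)
          (Nat.lt_succ_iff.2 (natDegree_map_le.trans (hFd σ)))
      rw [h3]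
      refine (Finset.sum_le_card_nsmul _ _ _ h1).trans ?_
      rw [Finset.card_range, nsmul_eq_mul]
      push_cast
      exact le_rfl
    have hMf : (f.map (algebraMap ℤ ℂ)).mahlerMeasure ≤
        ((n + 1) * (D * B)) ^ Fintype.card (L ≃ₐ[ℚ] L) := by
      rw [hfC]
      have h0 : ∀ t : Finset (L ≃ₐ[ℚ] L), (∏ σ ∈ t, (F σ).map (algebraMap L ℂ)).mahlerMeasure ≤
          ((n + 1) * (D * B)) ^ t.card := by
        intro t
        induction t using Finset.induction_on with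
        | empty => simp
        | insert a t ha ih =>
          rw [Finset.prod_insert ha, mahlerMeasure_mul, Finset.card_insert_of_notMem ha, pow_succ']
          refine mul_le_mul (hMs a) ih (mahlerMeasure_nonneg _)
            ((mahlerMeasure_nonneg _).trans (hMs a))
      exact h0 Finset.univ
    have h4 := norm_coeff_le_choose_mul_mahlerMeasure k (f.map (algebraMap ℤ ℂ))
    rw [coeff_map, eq_intCast, Complex.norm_intCast, natDegree_map_eq_of_injective hinjC] at h4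
    have h5 : ((f.natDegree.choose k : ℕ) : ℝ) ≤ 2 ^ (n * Fintype.card (L ≃ₐ[ℚ] L)) := by
      have h6 : f.natDegree.choose k ≤ 2 ^ f.natDegree := Nat.choose_le_two_pow _ _
      have h7 : 2 ^ f.natDegree ≤ 2 ^ (n * Fintype.card (L ≃ₐ[ℚ] L)) :=
        Nat.pow_le_pow_right (by norm_num) hfd
      exact_mod_cast h6.trans h7
    have h6 : |((f.coeff k : ℤ) : ℝ)| ≤ N := h4.trans ((mul_le_mul h5 hMf
      (mahlerMeasure_nonneg _) (by positivity)).trans hN)
    exact_mod_cast h6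
  · have h1 : aeval α f = ∏ σ : L ≃ₐ[ℚ] L, eval α ((F σ).map (algebraMap L ℂ)) := by
      rw [← eval_map_algebraMap, hfC, eval_prod]
    rw [h1]
    refine Finset.prod_eq_zero (Finset.mem_univ 1) ?_
    have h2 : eval α ((F 1).map (algebraMap L ℂ)) =
        (D : ℂ) * ∑ j ∈ Finset.range (n + 1), ((b j : L) : ℂ) * α ^ j := by
      rw [hF]
      simp only [Polynomial.map_sum, Polynomial.map_mul, Polynomial.map_pow, map_C, map_X,
        eval_finsetSum, eval_mul, eval_C, eval_pow, eval_X]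
      rw [Finset.mul_sum]
      refine Finset.sum_congr rfl fun j _ => ?_
      have h3 : (algebraMap L ℂ) ((1 : L ≃ₐ[ℚ] L) ((D : L) * b j)) = (D : ℂ) * ((b j : L) : ℂ) := by
        rw [AlgEquiv.one_apply, map_mul, map_natCast]
        rfl
      rw [h3, mul_assoc]
    rw [h2, hα, mul_zero]

end Pool.Agent.R347.LW
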