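import Pool.Agent.R347.LW.Core
import Pool.Agent.H340R2.LW2

/-!
# Sizes in the group ring
-/

set_option autoImplicit false

namespace Pool.Agent.R347.LW

open Polynomial Complex
open Pool.Agent.H340R2.LW
open scoped Pointwise

variable (L : IntermediateField ℚ ℂ)

/-- a bound for the size of an element of the group ring -/
structure Sz (D k m : ℕ) (B R : ℝ) (x : AddMonoidAlgebra L L) : Prop where
  card : x.coeff.support.card ≤ m
  expI : ∀ a ∈ x.coeff.support, IsIntegral ℤ ((D : L) * a)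
  expR : ∀ a ∈ x.coeff.support, ∀ σ : L ≃ₐ[ℚ] L, ‖((σ a : L) : ℂ)‖ ≤ R
  coI : ∀ a, IsIntegral ℤ ((D : L) ^ k * x.coeff a)
  coB : ∀ a, ∀ σ : L ≃ₐ[ℚ] L, ‖((σ (x.coeff a) : L) : ℂ)‖ ≤ B

variable {L}

theorem Sz.B_nonneg {D k m : ℕ} {B R : ℝ} {x : AddMonoidAlgebra L L} (h : Sz L D k m B R x) :
    0 ≤ B := (norm_nonneg _).trans (h.coB 0 1)

theorem isIntegral_equiv (σ : L ≃ₐ[ℚ] L) {a : L} (h : IsIntegral ℤ a) : IsIntegral ℤ (σ a) :=
  h.map (σ.toAlgHom.restrictScalars ℤ : L →ₐ[ℤ] L)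

theorem Sz.mul {D k m k' m' : ℕ} {B R B' R' : ℝ} {x y : AddMonoidAlgebra L L}
    (hx : Sz L D k m B R x) (hy : Sz L D k' m' B' R' y) :
    Sz L D (k + k') (m * m') (m * (B * B')) (R + R') (x * y) := by
  classical
  have hsub := AddMonoidAlgebra.support_coeff_mul_subset x y
  have hmem : ∀ c ∈ (x * y).coeff.support, ∃ a ∈ x.coeff.support, ∃ b ∈ y.coeff.support,
      a + b = c := fun c hc => Finset.mem_add.1 (hsub hc)
  have hco : ∀ c, (x * y).coeff c = ∑ a ∈ x.coeff.support, x.coeff a * y.coeff (-a + c) := by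
    intro c
    rw [AddMonoidAlgebra.coeff_mul_apply_left, Finsupp.sum]
  refine ⟨?_, ?_, ?_, ?_, ?_⟩
  · refine (Finset.card_le_card hsub).trans (Finset.card_add_le.trans ?_)
    exact Nat.mul_le_mul hx.card hy.card
  · intro c hc
    obtain ⟨a, ha, b, hb, rfl⟩ := hmem c hc
    rw [mul_add]
    exact (hx.expI a ha).add (hy.expI b hb)
  · intro c hc σ
    obtain ⟨a, ha, b, hb, rfl⟩ := hmem c hc
    rw [map_add]
    push_cast
    exact (norm_add_le _ _).trans (add_le_add (hx.expR a ha σ) (hy.expR b hb σ))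
  · intro c
    rw [hco, Finset.mul_sum]
    refine IsIntegral.sum _ fun a _ => ?_
    have : (D : L) ^ (k + k') * (x.coeff a * y.coeff (-a + c)) =
        ((D : L) ^ k * x.coeff a) * ((D : L) ^ k' * y.coeff (-a + c)) := by
      rw [pow_add]; ring
    rw [this]
    exact (hx.coI a).mul (hy.coI _)
  · intro c σ
    rw [hco, map_sum]
    push_cast
    have h1 : ∀ a ∈ x.coeff.support, ‖((σ (x.coeff a * y.coeff (-a + c)) : L) : ℂ)‖ ≤ B * B' := by
      intro a _
      rw [map_mul]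
      push_cast
      rw [norm_mul]
      exact mul_le_mul (hx.coB a σ) (hy.coB _ σ) (norm_nonneg _) hx.B_nonneg
    refine (norm_sum_le_of_le _ h1).trans ?_
    rw [Finset.sum_const, nsmul_eq_mul]
    refine mul_le_mul_of_nonneg_right ?_ (mul_nonneg hx.B_nonneg hy.B_nonneg)
    exact_mod_cast hx.card

theorem Sz.mono {D k m k' m' : ℕ} {B R B' R' : ℝ} {x : AddMonoidAlgebra L L}
    (hx : Sz L D k m B R x) (hk : k ≤ k') (hm : m ≤ m') (hB : B ≤ B') (hR : R ≤ R') :
    Sz L D k' m' B' R' x := by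
  refine ⟨hx.card.trans hm, hx.expI, fun a ha σ => (hx.expR a ha σ).trans hR, fun a => ?_,
    fun a σ => (hx.coB a σ).trans hB⟩
  have h1 : (D : L) ^ k' * x.coeff a = (D : L) ^ (k' - k) * ((D : L) ^ k * x.coeff a) := by
    rw [← mul_assoc, ← pow_add, Nat.sub_add_cancel hk]
  rw [h1]
  refine IsIntegral.mul ?_ (hx.coI a)
  have h2 : IsIntegral ℤ (algebraMap ℤ L ((D : ℤ) ^ (k' - k))) := isIntegral_algebraMap
  simpa using h2

theorem Sz.cc {D k m : ℕ} {B R : ℝ} {x : AddMonoidAlgebra L L} (σ : L ≃ₐ[ℚ] L)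
    (hx : Sz L D k m B R x) : Sz L D k m B R (cc L σ x) := by
  have hsub : (H340R2.LW.cc L σ x).coeff.support ⊆ x.coeff.support := by
    intro a ha
    rw [Finsupp.mem_support_iff] at ha ⊢
    rw [cc_coeff] at ha
    intro h0
    exact ha (by rw [h0, map_zero])
  refine ⟨(Finset.card_le_card hsub).trans hx.card, fun a ha => hx.expI a (hsub ha),
    fun a ha => hx.expR a (hsub ha), fun a => ?_, fun a τ => ?_⟩
  · rw [cc_coeff]
    have h1 := isIntegral_equiv σ (hx.coI a)
    rwa [map_mul, map_pow, map_natCast] at h1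
  · rw [cc_coeff]
    exact hx.coB a (τ * σ)

theorem dd_support (σ : L ≃ₐ[ℚ] L) (x : AddMonoidAlgebra L L) (a : L)
    (ha : a ∈ (dd L σ x).coeff.support) : ∃ b ∈ x.coeff.support, σ b = a := by
  obtain ⟨b, rfl⟩ := σ.surjective a
  refine ⟨b, ?_, rfl⟩
  rw [Finsupp.mem_support_iff] at ha ⊢
  rwa [dd_coeff] at ha

theorem Sz.dd {D k m : ℕ} {B R : ℝ} {x : AddMonoidAlgebra L L} (σ : L ≃ₐ[ℚ] L)
    (hx : Sz L D k m B R x) : Sz L D k m B R (dd L σ x) := by
  classical
  have hsub : (H340R2.LW.dd L σ x).coeff.support ⊆ x.coeff.support.image σ := by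
    intro a ha
    obtain ⟨b, hb, rfl⟩ := dd_support σ x a ha
    exact Finset.mem_image_of_mem _ hb
  refine ⟨(Finset.card_le_card hsub).trans (Finset.card_image_le.trans hx.card), ?_, ?_, ?_, ?_⟩
  · intro a ha
    obtain ⟨b, hb, rfl⟩ := dd_support σ x a ha
    have h1 := isIntegral_equiv σ (hx.expI b hb)
    rwa [map_mul, map_natCast] at h1
  · intro a ha τ
    obtain ⟨b, hb, rfl⟩ := dd_support σ x a ha
    exact hx.expR b hb (τ * σ)
  · intro a
    obtain ⟨b, rfl⟩ := σ.surjective a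
    rw [dd_coeff]
    exact hx.coI b
  · intro a τ
    obtain ⟨b, rfl⟩ := σ.surjective a
    rw [dd_coeff]
    exact hx.coB b τ

theorem Sz.one (D : ℕ) : Sz L D 0 1 1 0 (1 : AddMonoidAlgebra L L) := by
  classical
  have h0 : (1 : AddMonoidAlgebra L L) = AddMonoidAlgebra.single 0 1 := rfl
  rw [h0]
  refine ⟨?_, ?_, ?_, ?_, ?_⟩
  · rw [AddMonoidAlgebra.coeff_single]
    refine (Finset.card_le_card Finsupp.support_single_subset).trans (by simp)
  · intro a ha
    rw [AddMonoidAlgebra.coeff_single] at ha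
    have := Finsupp.support_single_subset ha
    rw [Finset.mem_singleton] at this
    rw [this, mul_zero]
    exact isIntegral_zero
  · intro a ha σ
    rw [AddMonoidAlgebra.coeff_single] at ha
    have := Finsupp.support_single_subset ha
    rw [Finset.mem_singleton] at this
    rw [this, map_zero]
    simp
  · intro a
    rw [AddMonoidAlgebra.coeff_single, Finsupp.single_apply]
    split_ifs
    · simpa using isIntegral_one
    · simpa using isIntegral_zero
  · intro a σ
    rw [AddMonoidAlgebra.coeff_single, Finsupp.single_apply]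
    split_ifs
    · simp
    · simp

theorem Sz.prod {D k m : ℕ} {B R : ℝ} {ι : Type*} (s : Finset ι) (f : ι → AddMonoidAlgebra L L)
    (h : ∀ i ∈ s, Sz L D k m B R (f i)) :
    Sz L D (k * s.card) (m ^ s.card) ((m * B) ^ s.card) (s.card * R) (∏ i ∈ s, f i) := by
  classical
  induction s using Finset.induction_on with
  | empty => simpa using Sz.one D
  | insert a s ha ih =>
    rw [Finset.prod_insert ha, Finset.card_insert_of_notMem ha]
    have h1 := (h a (Finset.mem_insert_self _ _)).mul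
      (ih fun i hi => h i (Finset.mem_insert_of_mem hi))
    refine h1.mono (le_of_eq (by ring)) (le_of_eq (by ring)) (le_of_eq (by ring))
      (le_of_eq (by push_cast; ring))

theorem Sz.ee_le {D k m : ℕ} {B R : ℝ} {x : AddMonoidAlgebra L L} (hx : Sz L D k m B R x) :
    ‖ee L x‖ ≤ m * (B * Real.exp R) := by
  rw [ee_apply, Finsupp.sum]
  have h1 : ∀ a ∈ x.coeff.support, ‖((x.coeff a : L) : ℂ) * Complex.exp (a : ℂ)‖ ≤
      B * Real.exp R := by
    intro a ha
    rw [norm_mul, norm_exp]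
    refine mul_le_mul (hx.coB a 1) ?_ (Real.exp_pos _).le hx.B_nonneg
    exact Real.exp_le_exp.2 ((re_le_norm _).trans (hx.expR a ha 1))
  refine (norm_sum_le_of_le _ h1).trans ?_
  rw [Finset.sum_const, nsmul_eq_mul]
  refine mul_le_mul_of_nonneg_right ?_ (mul_nonneg hx.B_nonneg (Real.exp_pos _).le)
  exact_mod_cast hx.card

theorem Sz.sum_single {D k : ℕ} {B R : ℝ} (hB : 0 ≤ B) {ι : Type*} (s : Finset ι) (α β : ι → L)
    (hαI : ∀ i ∈ s, IsIntegral ℤ ((D : L) * α i))
    (hαR : ∀ i ∈ s, ∀ σ : L ≃ₐ[ℚ] L, ‖((σ (α i) : L) : ℂ)‖ ≤ R)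
    (hβI : ∀ i ∈ s, IsIntegral ℤ ((D : L) ^ k * β i))
    (hβB : ∀ i ∈ s, ∀ σ : L ≃ₐ[ℚ] L, ‖((σ (β i) : L) : ℂ)‖ ≤ B) :
    Sz L D k s.card (s.card * B) R (∑ i ∈ s, AddMonoidAlgebra.single (α i) (β i)) := by
  classical
  have hco : ∀ a, (∑ i ∈ s, AddMonoidAlgebra.single (α i) (β i)).coeff a =
      ∑ i ∈ s, (if α i = a then β i else 0) := by
    intro a
    simp [AddMonoidAlgebra.coeff_sum, Finsupp.finset_sum_apply, Finsupp.single_apply]
  have hsub : (∑ i ∈ s, AddMonoidAlgebra.single (α i) (β i)).coeff.support ⊆ s.image α := by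
    intro a ha
    rw [Finsupp.mem_support_iff, hco] at ha
    obtain ⟨i, hi, hne⟩ := Finset.exists_ne_zero_of_sum_ne_zero ha
    rw [Finset.mem_image]
    refine ⟨i, hi, ?_⟩
    by_contra hcon
    rw [if_neg hcon] at hne
    exact hne rfl
  refine ⟨(Finset.card_le_card hsub).trans Finset.card_image_le, ?_, ?_, ?_, ?_⟩
  · intro a ha
    obtain ⟨i, hi, rfl⟩ := Finset.mem_image.1 (hsub ha)
    exact hαI i hi
  · intro a ha σ
    obtain ⟨i, hi, rfl⟩ := Finset.mem_image.1 (hsub ha)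
    exact hαR i hi σ
  · intro a
    rw [hco, Finset.mul_sum]
    refine IsIntegral.sum _ fun i hi => ?_
    split_ifs
    · exact hβI i hi
    · rw [mul_zero]; exact isIntegral_zero
  · intro a σ
    rw [hco, map_sum]
    push_cast
    have h1 : ∀ i ∈ s, ‖((σ (if α i = a then β i else 0) : L) : ℂ)‖ ≤ B := by
      intro i hi
      split_ifs
      · exact hβB i hi σ
      · simpa using hB
    refine (norm_sum_le_of_le _ h1).trans ?_
    rw [Finset.sum_const, nsmul_eq_mul]

end Pool.Agent.R347.LW
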