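import Pool.Agent.R347.LW.Ring

/-!
# The invariant element of the group ring and its size
-/

set_option autoImplicit false

namespace Pool.Agent.R347.LW

open Polynomial Complex
open Pool.Agent.H340R2.LW
open scoped Nat

theorem prod_bound {G : Type*} [Fintype G] [DecidableEq G] (f : G → ℝ) (hf : ∀ i, 0 ≤ f i) (E : ℝ)
    (hE : 1 ≤ E) (hfE : ∀ i, f i ≤ E) (i₀ : G) :
    ∏ i, f i ≤ f i₀ * E ^ Fintype.card G := by
  rw [← Finset.mul_prod_erase Finset.univ f (Finset.mem_univ i₀)]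
  refine mul_le_mul_of_nonneg_left ?_ (hf _)
  refine (Finset.prod_le_prod (fun i _ => hf i) (fun i _ => hfE i)).trans ?_
  rw [Finset.prod_const]
  refine pow_le_pow_right₀ hE ?_
  exact (Finset.card_le_card (Finset.subset_univ _)).trans (by simp)

variable {L : IntermediateField ℚ ℂ} [FiniteDimensional ℚ L] [IsGalois ℚ L]

theorem main_ring (D k m : ℕ) (B R : ℝ) (hB : 1 ≤ B) (hR : 1 ≤ R) (hm : 1 ≤ m)
    (x : AddMonoidAlgebra L L) (hx0 : x ≠ 0) (hx : Sz L D k m B R x) (g : ℕ)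
    (hg : Fintype.card (L ≃ₐ[ℚ] L) = g) :
    ∃ u : AddMonoidAlgebra L L, (∀ σ, cc L σ u = u) ∧ (∀ σ, dd L σ u = u) ∧ u.coeff 0 ≠ 0 ∧
      Sz L D (k * g * g) ((m ^ g) ^ g * g)
        ((((m ^ g) ^ g : ℕ) : ℝ) * (((((m ^ g : ℕ) : ℝ) * (m * B) ^ g) ^ g) * (g * 1)))
        (g * (g * R) + g * (g * R)) u ∧
      ‖ee L u‖ ≤ ‖ee L x‖ * (m * (B * Real.exp R)) ^ g *
        ((((m ^ g : ℕ) : ℝ) * ((m * B) ^ g * Real.exp (g * R))) ^ g) *
        (g * (g * 1 * Real.exp (g * (g * R)))) := by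
  classical
  have hgpos : 1 ≤ g := by rw [← hg]; exact Fintype.card_pos
  have hcard : (Finset.univ : Finset (L ≃ₐ[ℚ] L)).card = g := by rw [← hg]; rfl
  have hmR : (1 : ℝ) ≤ m := by exact_mod_cast hm
  have hgR : (1 : ℝ) ≤ g := by exact_mod_cast hgpos
  -- step 1
  set y : AddMonoidAlgebra L L := ∏ σ : L ≃ₐ[ℚ] L, cc L σ x with hy
  have hy0 : y ≠ 0 := Finset.prod_ne_zero_iff.mpr (fun σ _ => by
    intro h; exact hx0 (cc_inj L σ (by rw [h, map_zero])))
  have hyS : Sz L D (k * g) (m ^ g) ((m * B) ^ g) (g * R) y := by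
    have := Sz.prod (Finset.univ : Finset (L ≃ₐ[ℚ] L)) (fun σ => cc L σ x)
      (fun σ _ => hx.cc σ)
    rwa [hcard] at this
  have hyf : ∀ σ, cc L σ y = y := by
    intro σ
    rw [hy, map_prod]
    simp only [cc_mul]
    exact Fintype.prod_equiv (Equiv.mulLeft σ) _ _ (fun τ => rfl)
  have hye : ‖ee L y‖ ≤ ‖ee L x‖ * (m * (B * Real.exp R)) ^ g := by
    rw [hy, map_prod, norm_prod]
    have h1 := prod_bound (fun σ : L ≃ₐ[ℚ] L => ‖ee L (cc L σ x)‖) (fun _ => norm_nonneg _)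
      (m * (B * Real.exp R)) ?_ (fun σ => (hx.cc σ).ee_le) 1
    · rwa [cc_one, hg] at h1
    · have : 1 ≤ Real.exp R := Real.one_le_exp (by linarith)
      exact one_le_mul_of_one_le_of_one_le hmR (one_le_mul_of_one_le_of_one_le hB this)
  -- step 2
  set z : AddMonoidAlgebra L L := ∏ σ : L ≃ₐ[ℚ] L, dd L σ y with hz
  have hz0 : z ≠ 0 := Finset.prod_ne_zero_iff.mpr (fun σ _ => by
    intro h; exact hy0 (dd_inj L σ (by rw [h, map_zero])))
  have hzS : Sz L D (k * g * g) ((m ^ g) ^ g) ((((m ^ g : ℕ) : ℝ) * (m * B) ^ g) ^ g)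
      (g * (g * R)) z := by
    have := Sz.prod (Finset.univ : Finset (L ≃ₐ[ℚ] L)) (fun σ => dd L σ y)
      (fun σ _ => hyS.dd σ)
    rwa [hcard] at this
  have hze : ‖ee L z‖ ≤ ‖ee L y‖ *
      (((m ^ g : ℕ) : ℝ) * ((m * B) ^ g * Real.exp (g * R))) ^ g := by
    rw [hz, map_prod, norm_prod]
    have h1 := prod_bound (fun σ : L ≃ₐ[ℚ] L => ‖ee L (dd L σ y)‖) (fun _ => norm_nonneg _)
      (((m ^ g : ℕ) : ℝ) * ((m * B) ^ g * Real.exp (g * R))) ?_ (fun σ => (hyS.dd σ).ee_le) 1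
    · rwa [dd_one, hg] at h1
    · have h2 : 1 ≤ Real.exp (g * R) := Real.one_le_exp (by positivity)
      have h3 : (1 : ℝ) ≤ (m * B) ^ g := one_le_pow₀ (one_le_mul_of_one_le_of_one_le hmR hB)
      have h4 : (1 : ℝ) ≤ ((m ^ g : ℕ) : ℝ) := by exact_mod_cast Nat.one_le_pow _ _ hm
      exact one_le_mul_of_one_le_of_one_le h4 (one_le_mul_of_one_le_of_one_le h3 h2)
  have hzd : ∀ σ, dd L σ z = z := by
    intro σ
    rw [hz, map_prod]
    simp only [dd_mul]
    exact Fintype.prod_equiv (Equiv.mulLeft σ) _ _ (fun τ => rfl)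
  have hzc : ∀ σ, cc L σ z = z := by
    intro σ
    rw [hz, map_prod]
    refine Finset.prod_congr rfl (fun τ _ => ?_)
    rw [cc_dd, hyf]
  -- step 3
  obtain ⟨a, ha⟩ : ∃ a, z.coeff a ≠ 0 := by
    by_contra hcon
    push Not at hcon
    apply hz0
    ext a
    simp [hcon a]
  set t : AddMonoidAlgebra L L := ∑ σ : L ≃ₐ[ℚ] L, AddMonoidAlgebra.single (-(σ a)) (1 : L) with ht
  have hamem : a ∈ z.coeff.support := Finsupp.mem_support_iff.2 ha
  have htS : Sz L D 0 g (g * 1) (g * (g * R)) t := by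
    have h1 := Sz.sum_single (L := L) (D := D) (k := 0) (B := 1) (R := g * (g * R)) zero_le_one
      (Finset.univ : Finset (L ≃ₐ[ℚ] L)) (fun σ => -(σ a)) (fun _ => 1) ?_ ?_ ?_ ?_
    · rwa [hcard] at h1
    · intro σ _
      have h2 := isIntegral_equiv σ (hzS.expI a hamem)
      rw [map_mul, map_natCast] at h2
      rw [mul_neg]
      exact h2.neg
    · intro σ _ τ
      rw [map_neg]
      push_cast
      rw [norm_neg]
      exact hzS.expR a hamem (τ * σ)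
    · intro σ _
      simpa using isIntegral_one
    · intro σ _ τ
      simp
  set u : AddMonoidAlgebra L L := z * t with hu
  have htd : ∀ σ, dd L σ t = t := by
    intro σ
    rw [ht, map_sum]
    have : ∀ τ : L ≃ₐ[ℚ] L, dd L σ (AddMonoidAlgebra.single (-(τ a)) (1 : L)) =
        AddMonoidAlgebra.single (-((σ * τ) a)) (1 : L) := by
      intro τ
      simp [dd]
    simp only [this]
    exact Fintype.sum_equiv (Equiv.mulLeft σ) _ _ (fun τ => rfl)
  have htc : ∀ σ, cc L σ t = t := by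
    intro σ
    rw [ht, map_sum]
    refine Finset.sum_congr rfl (fun τ _ => ?_)
    simp [cc]
  have hud : ∀ σ, dd L σ u = u := by
    intro σ; rw [hu, map_mul, hzd, htd]
  have huc : ∀ σ, cc L σ u = u := by
    intro σ; rw [hu, map_mul, hzc, htc]
  have hzinv : ∀ (σ : L ≃ₐ[ℚ] L) b, z.coeff (σ b) = z.coeff b := by
    intro σ b
    have := dd_coeff L σ z b
    rwa [hzd] at this
  have hu0 : u.coeff 0 ≠ 0 := by
    have h1 : u.coeff 0 = (Fintype.card (L ≃ₐ[ℚ] L) : L) * z.coeff a := by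
      rw [hu, ht, Finset.mul_sum]
      have h2 : (∑ σ : L ≃ₐ[ℚ] L, z * AddMonoidAlgebra.single (-(σ a)) (1 : L)).coeff 0 =
          ∑ σ : L ≃ₐ[ℚ] L, (z * AddMonoidAlgebra.single (-(σ a)) (1 : L)).coeff 0 := by
        simp [AddMonoidAlgebra.coeff_sum]
      rw [h2]
      have h3 : ∀ σ : L ≃ₐ[ℚ] L, (z * AddMonoidAlgebra.single (-(σ a)) (1 : L)).coeff 0 =
          z.coeff a := by
        intro σ
        rw [AddMonoidAlgebra.coeff_mul_single_apply]
        simp [hzinv]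
      simp [h3]
    rw [h1]
    refine mul_ne_zero ?_ ha
    exact_mod_cast Fintype.card_ne_zero
  refine ⟨u, huc, hud, hu0, ?_, ?_⟩
  · have := hzS.mul htS
    rwa [add_zero] at this
  · rw [hu, map_mul, norm_mul]
    refine mul_le_mul ?_ htS.ee_le (norm_nonneg _) (by positivity)
    exact hze.trans (mul_le_mul_of_nonneg_right hye (by positivity))

/-- the lower bound, with all parameters -/
theorem lower (D k m : ℕ) (B R : ℝ) (hD : 1 ≤ D) (hB : 1 ≤ B) (hR : 1 ≤ R) (hm : 1 ≤ m)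
    (x : AddMonoidAlgebra L L) (hx0 : x ≠ 0) (hx : Sz L D k m B R x) (g : ℕ)
    (hg : Fintype.card (L ≃ₐ[ℚ] L) = g) (K₁ m₁ : ℕ) (B₁ R₁ E₁ : ℝ) (hK₁ : K₁ = k * g * g)
    (hm₁ : m₁ = (m ^ g) ^ g * g)
    (hB₁ : B₁ = (((m ^ g) ^ g : ℕ) : ℝ) * (((((m ^ g : ℕ) : ℝ) * (m * B) ^ g) ^ g) * (g * 1)))
    (hR₁ : R₁ = g * (g * R) + g * (g * R))
    (hE₁ : E₁ = (m * (B * Real.exp R)) ^ g *
        ((((m ^ g : ℕ) : ℝ) * ((m * B) ^ g * Real.exp (g * R))) ^ g) *
        (g * (g * 1 * Real.exp (g * (g * R)))))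
    (V K : ℝ) (hV : V = m₁ * ((D : ℝ) ^ K₁ * B₁)) (hK : K = (2 * D * R₁) ^ m₁)
    (p : ℕ) (hp : p.Prime) (hpK : K < p) (hpV : V < p) (hpD : D < p)
    (hsmall : 2 * ((D : ℝ) ^ (p * m₁) * (V * (Real.exp R₁ * Real.exp R₁ * (R₁ * K) ^ p))) ≤
      ((p - 1) ! : ℕ)) :
    ((p - 1) ! : ℕ) ≤ 2 * ((D : ℝ) ^ (p * m₁) *
      (((p * (m₁ + 1)) ! : ℕ) * (2 ^ (p * (m₁ + 1)) * K ^ p))) *
      ((D : ℝ) ^ K₁ * (‖ee L x‖ * E₁)) := by
  classical
  obtain ⟨u, huc, hud, hu0, huS, hue⟩ := main_ring D k m B R hB hR hm x hx0 hx g hg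
  rw [← hK₁, ← hm₁, ← hB₁, ← hR₁] at huS
  have hgpos : 1 ≤ g := by rw [← hg]; exact Fintype.card_pos
  have hgR : (1 : ℝ) ≤ g := by exact_mod_cast hgpos
  have hmR : (1 : ℝ) ≤ m := by exact_mod_cast hm
  have hm₁1 : 1 ≤ m₁ := by
    rw [hm₁]
    exact Nat.one_le_iff_ne_zero.2 (by positivity)
  have hR₁1 : 1 ≤ R₁ := by
    rw [hR₁]
    have : 1 ≤ (g : ℝ) * (g * R) := one_le_mul_of_one_le_of_one_le hgR
      (one_le_mul_of_one_le_of_one_le hgR hR)
    linarith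
  have hB₁0 : 0 ≤ B₁ := huS.B_nonneg
  have hD0 : (D : L) ≠ 0 := by exact_mod_cast (by omega : D ≠ 0)
  have hint : ∀ b, ∃ c : ℤ, (c : L) = (D : L) ^ K₁ * u.coeff b := by
    intro b
    refine exists_int L _ ((integral_val L).2 (huS.coI b)) fun σ => ?_
    rw [map_mul, map_pow, map_natCast, ← cc_coeff, huc]
  choose c hc using hint
  have hdinv : ∀ (σ : L ≃ₐ[ℚ] L) b, u.coeff (σ b) = u.coeff b := by
    intro σ b
    have := dd_coeff L σ u b
    rwa [hud] at this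
  have hcinv : ∀ (σ : L ≃ₐ[ℚ] L) b, c (σ b) = c b := by
    intro σ b
    have h1 : ((c (σ b) : ℤ) : L) = (c b : L) := by rw [hc, hc, hdinv]
    exact_mod_cast h1
  have hcC : ∀ b, (c b : ℂ) = (D : ℂ) ^ K₁ * ((u.coeff b : L) : ℂ) := by
    intro b
    have h1 := congrArg (fun z : L => (z : ℂ)) (hc b)
    simpa using h1
  have hcn : ∀ b, |(c b : ℝ)| ≤ (D : ℝ) ^ K₁ * B₁ := by
    intro b
    have h1 : |(c b : ℝ)| = ‖(c b : ℂ)‖ := (Complex.norm_intCast _).symm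
    rw [h1, hcC, norm_mul, norm_pow, Complex.norm_natCast]
    exact mul_le_mul_of_nonneg_left (huS.coB b 1) (by positivity)
  have hc0 : c 0 ≠ 0 := by
    intro h0
    have h1 := hc 0
    rw [h0, Int.cast_zero] at h1
    exact mul_ne_zero (pow_ne_zero _ hD0) hu0 h1.symm
  set s0 : Finset L := u.coeff.support with hs0
  have hVle : (D : ℝ) ^ K₁ * B₁ ≤ V := by
    rw [hV]
    have : (1 : ℝ) ≤ m₁ := by exact_mod_cast hm₁1
    exact le_mul_of_one_le_left (by positivity) this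
  have hcore := coreQ L (s0.erase 0) (fun b hb => (Finset.mem_erase.mp hb).1) ?_ c hcinv (c 0) hc0
    D hD ?_ m₁ ((Finset.card_le_card (Finset.erase_subset _ _)).trans huS.card) R₁ hR₁1 ?_ V ?_ K
    hK.ge p hp hpK (((hcn 0).trans hVle).trans_lt hpV) hpD hsmall
  · have h0mem : (0 : L) ∈ s0 := by rw [hs0, Finsupp.mem_support_iff]; exact hu0
    have h2 : (c 0 : ℂ) + ∑ b ∈ s0.erase 0, (c b : ℂ) * Complex.exp (b : ℂ) =
        (D : ℂ) ^ K₁ * ee L u := by
      have h3 : (c 0 : ℂ) = (c 0 : ℂ) * Complex.exp ((0 : L) : ℂ) := by simp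
      rw [h3, Finset.add_sum_erase _ (fun b : L => (c b : ℂ) * Complex.exp (b : ℂ)) h0mem,
        ee_apply, Finsupp.sum, Finset.mul_sum]
      refine Finset.sum_congr rfl (fun b _ => ?_)
      rw [hcC]; ring
    rw [h2, norm_mul, norm_pow, Complex.norm_natCast] at hcore
    refine hcore.trans ?_
    have hK0 : 0 ≤ K := by rw [hK]; positivity
    refine mul_le_mul_of_nonneg_left ?_ (by positivity)
    refine mul_le_mul_of_nonneg_left ?_ (by positivity)
    refine hue.trans (le_of_eq ?_)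
    rw [hE₁]; ring
  · intro σ b hb
    obtain ⟨hb0, hb1⟩ := Finset.mem_erase.mp hb
    refine Finset.mem_erase.mpr ⟨?_, ?_⟩
    · intro h; apply hb0
      exact σ.injective (by rw [h, map_zero])
    · rw [hs0, Finsupp.mem_support_iff] at hb1 ⊢
      rwa [hdinv]
  · intro b hb
    have h1 := (integral_val L).2 (huS.expI b (Finset.mem_of_mem_erase hb))
    simpa using h1
  · intro b hb
    exact huS.expR b (Finset.mem_of_mem_erase hb) 1
  · refine (Finset.sum_le_card_nsmul _ _ ((D : ℝ) ^ K₁ * B₁) fun b _ => hcn b).trans ?_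
    rw [nsmul_eq_mul, hV]
    refine mul_le_mul_of_nonneg_right ?_ (by positivity)
    exact_mod_cast (Finset.card_le_card (Finset.erase_subset _ _)).trans huS.card

end Pool.Agent.R347.LW
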