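import Pool.Agent.R347.LW.Num

/-!
# Towers of powers of two, and families of numbers which are bounded by such towers
-/

set_option autoImplicit false

namespace Pool.Agent.R347.LW

open scoped Nat

/-- towers of powers of two -/
def tow : ℕ → ℕ → ℕ
  | 0, q => q
  | h + 1, q => 2 ^ tow h q

theorem tow_zero (q : ℕ) : tow 0 q = q := rfl

theorem tow_succ (h q : ℕ) : tow (h + 1) q = 2 ^ tow h q := rfl

theorem tow_lt_succ (h q : ℕ) : tow h q < tow (h + 1) q := Nat.lt_two_pow_self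

theorem tow_mono_left {h h' : ℕ} (hh : h ≤ h') (q : ℕ) : tow h q ≤ tow h' q := by
  induction h', hh using Nat.le_induction with
  | base => exact le_rfl
  | succ n _ ih => exact ih.trans (tow_lt_succ n q).le

theorem tow_mono_right (h : ℕ) {q q' : ℕ} (hq : q ≤ q') : tow h q ≤ tow h q' := by
  induction h with
  | zero => exact hq
  | succ h ih => exact Nat.pow_le_pow_right (by norm_num) ih

theorem tow_tow (h h' q : ℕ) : tow h (tow h' q) = tow (h + h') q := by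
  induction h with
  | zero => rw [zero_add, tow_zero]
  | succ h ih => rw [tow_succ, ih, Nat.add_right_comm, tow_succ]

theorem le_tow (h q : ℕ) : q + h ≤ tow h q := by
  induction h with
  | zero => exact le_rfl
  | succ h ih =>
    have := tow_lt_succ h q
    omega

variable {Ω : Type*} (Y : Ω → ℕ)

/-- a family of nonnegative numbers bounded by a tower -/
def EL (f : Ω → ℝ) : Prop := ∃ h : ℕ, ∀ ω, 0 ≤ f ω ∧ f ω ≤ tow h (Y ω)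

variable {Y} (hY : ∀ ω, 2 ≤ Y ω)

theorem EL.of_le {f g : Ω → ℝ} (hg : EL Y g) (h0 : ∀ ω, 0 ≤ f ω) (h : ∀ ω, f ω ≤ g ω) : EL Y f := by
  obtain ⟨c, hc⟩ := hg
  exact ⟨c, fun ω => ⟨h0 ω, (h ω).trans (hc ω).2⟩⟩

theorem EL.base : EL Y (fun ω => (Y ω : ℝ)) := ⟨0, fun ω => ⟨by positivity, le_rfl⟩⟩

theorem EL.const (a : ℝ) (ha : 0 ≤ a) : EL Y (fun _ => a) := by
  refine ⟨⌈a⌉₊, fun ω => ⟨ha, (Nat.le_ceil a).trans ?_⟩⟩
  have := le_tow ⌈a⌉₊ (Y ω)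
  exact_mod_cast (by omega : ⌈a⌉₊ ≤ tow ⌈a⌉₊ (Y ω))

/-- a common tower for two families -/
theorem EL.two {f g : Ω → ℝ} (hf : EL Y f) (hg : EL Y g) : ∃ h : ℕ, ∀ ω,
    (0 ≤ f ω ∧ f ω ≤ tow h (Y ω)) ∧ (0 ≤ g ω ∧ g ω ≤ tow h (Y ω)) := by
  obtain ⟨c, hc⟩ := hf
  obtain ⟨d, hd⟩ := hg
  refine ⟨max c d, fun ω => ⟨⟨(hc ω).1, (hc ω).2.trans ?_⟩, (hd ω).1, (hd ω).2.trans ?_⟩⟩
  · exact_mod_cast tow_mono_left (le_max_left c d) (Y ω)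
  · exact_mod_cast tow_mono_left (le_max_right c d) (Y ω)

theorem two_mul_le_pow (t : ℕ) : 2 * t ≤ 2 ^ t := by
  cases t with
  | zero => norm_num
  | succ n =>
    have : n + 1 ≤ 2 ^ n := Nat.lt_two_pow_self
    rw [pow_succ]
    omega

theorem EL.exp {f : Ω → ℝ} (hf : EL Y f) : EL Y (fun ω => Real.exp (f ω)) := by
  obtain ⟨c, hc⟩ := hf
  refine ⟨c + 2, fun ω => ⟨(Real.exp_pos _).le, ?_⟩⟩
  have h1 : Real.exp (f ω) ≤ Real.exp 1 ^ tow c (Y ω) := by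
    rw [← Real.exp_nat_mul, mul_one]
    exact Real.exp_le_exp.2 (hc ω).2
  have h2 : Real.exp 1 ≤ 4 := by
    have := Real.exp_one_lt_d9
    linarith
  have h3 : (4 : ℝ) ^ tow c (Y ω) ≤ (tow (c + 2) (Y ω) : ℕ) := by
    have h4 : 4 ^ tow c (Y ω) ≤ tow (c + 2) (Y ω) := by
      rw [tow_succ, tow_succ]
      have h5 : (4 : ℕ) = 2 ^ 2 := by norm_num
      rw [h5, ← pow_mul]
      exact Nat.pow_le_pow_right (by norm_num) (two_mul_le_pow _)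
    exact_mod_cast h4
  exact h1.trans ((pow_le_pow_left₀ (Real.exp_pos 1).le h2 _).trans h3)

theorem EL.add {f g : Ω → ℝ} (hf : EL Y f) (hg : EL Y g) : EL Y (fun ω => f ω + g ω) := by
  obtain ⟨h, hh⟩ := hf.two hg
  refine ⟨h + 1, fun ω => ⟨add_nonneg (hh ω).1.1 (hh ω).2.1, ?_⟩⟩
  have h1 : f ω + g ω ≤ ((2 * tow h (Y ω) : ℕ) : ℝ) := by
    push_cast
    linarith [(hh ω).1.2, (hh ω).2.2]
  refine h1.trans ?_
  exact_mod_cast two_mul_le_pow (tow h (Y ω))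

theorem EL.mul {f g : Ω → ℝ} (hf : EL Y f) (hg : EL Y g) : EL Y (fun ω => f ω * g ω) := by
  have h1 := (hf.add hg).exp
  refine (h1.of_le (fun ω => ?_) fun ω => ?_)
  · obtain ⟨h, hh⟩ := hf.two hg
    exact mul_nonneg (hh ω).1.1 (hh ω).2.1
  · obtain ⟨h, hh⟩ := hf.two hg
    have e1 := Real.add_one_le_exp (f ω)
    have e2 := Real.add_one_le_exp (g ω)
    rw [Real.exp_add]
    exact mul_le_mul (by linarith) (by linarith) (hh ω).2.1 (Real.exp_pos _).le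

theorem EL.npow {f : Ω → ℝ} (hf : EL Y f) (p : Ω → ℕ) (hp : EL Y (fun ω => (p ω : ℝ))) :
    EL Y (fun ω => f ω ^ p ω) := by
  have h1 := (hp.mul hf).exp
  obtain ⟨c, hc⟩ := hf
  refine h1.of_le (fun ω => pow_nonneg (hc ω).1 _) fun ω => ?_
  rw [Real.exp_nat_mul]
  have := Real.add_one_le_exp (f ω)
  exact pow_le_pow_left₀ (hc ω).1 (by linarith) _

theorem EL.factorial (n : Ω → ℕ) (hn : EL Y (fun ω => (n ω : ℝ))) :
    EL Y (fun ω => (((n ω)! : ℕ) : ℝ)) := by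
  refine (EL.npow hn n hn).of_le (fun ω => by positivity) fun ω => ?_
  show (((n ω)! : ℕ) : ℝ) ≤ (n ω : ℝ) ^ n ω
  exact_mod_cast Nat.factorial_le_pow _

/-- the numbers of the lower bound for the values of the group ring -/
structure Cfg where
  Y : ℕ
  k : ℕ
  m : ℕ
  g : ℕ
  D : ℕ
  B : ℝ
  R : ℝ
  hY : 2 ≤ Y
  hk : k ≤ Y
  hm : 1 ≤ m
  hmY : m ≤ Y
  hg : 1 ≤ g
  hgY : g ≤ Y
  hD : 1 ≤ D
  hDY : D ≤ Y
  hB : 1 ≤ B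
  hBY : B ≤ Y
  hR : 1 ≤ R
  hRY : R ≤ Y

theorem numE : ∃ κ : ℕ, ∀ ω : Cfg, ∀ (K₁ m₁ : ℕ) (B₁ R₁ E₁ V K : ℝ),
    K₁ = ω.k * ω.g * ω.g →
    m₁ = (ω.m ^ ω.g) ^ ω.g * ω.g →
    B₁ = (((ω.m ^ ω.g) ^ ω.g : ℕ) : ℝ) *
      (((((ω.m ^ ω.g : ℕ) : ℝ) * (ω.m * ω.B) ^ ω.g) ^ ω.g) * (ω.g * 1)) →
    R₁ = ω.g * (ω.g * ω.R) + ω.g * (ω.g * ω.R) →
    E₁ = (ω.m * (ω.B * Real.exp ω.R)) ^ ω.g *
        ((((ω.m ^ ω.g : ℕ) : ℝ) * ((ω.m * ω.B) ^ ω.g * Real.exp (ω.g * ω.R))) ^ ω.g) *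
        (ω.g * (ω.g * 1 * Real.exp (ω.g * (ω.g * ω.R)))) →
    V = m₁ * ((ω.D : ℝ) ^ K₁ * B₁) → K = (2 * ω.D * R₁) ^ m₁ →
    ∃ p : ℕ, p.Prime ∧ K < p ∧ V < p ∧ ω.D < p ∧
      2 * ((ω.D : ℝ) ^ (p * m₁) * (V * (Real.exp R₁ * Real.exp R₁ * (R₁ * K) ^ p))) ≤
        ((p - 1) ! : ℕ) ∧
      2 * ((ω.D : ℝ) ^ (p * m₁) *
        (((p * (m₁ + 1)) ! : ℕ) * (2 ^ (p * (m₁ + 1)) * K ^ p))) *
        ((ω.D : ℝ) ^ K₁ * E₁) ≤ tow κ ω.Y := by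
  classical
  let Y : Cfg → ℕ := fun ω => ω.Y
  have hY : ∀ ω, 2 ≤ Y ω := fun ω => ω.hY
  have pY : EL Y (fun ω => (Y ω : ℝ)) := EL.base
  have pk : EL Y (fun ω => (ω.k : ℝ)) := pY.of_le (fun ω => by positivity)
    (fun ω => by exact_mod_cast ω.hk)
  have pm : EL Y (fun ω => (ω.m : ℝ)) := pY.of_le (fun ω => by positivity)
    (fun ω => by exact_mod_cast ω.hmY)
  have pg : EL Y (fun ω => (ω.g : ℝ)) := pY.of_le (fun ω => by positivity)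
    (fun ω => by exact_mod_cast ω.hgY)
  have pD : EL Y (fun ω => (ω.D : ℝ)) := pY.of_le (fun ω => by positivity)
    (fun ω => by exact_mod_cast ω.hDY)
  have pB : EL Y (fun ω => ω.B) := pY.of_le (fun ω => by linarith [ω.hB]) (fun ω => ω.hBY)
  have pR : EL Y (fun ω => ω.R) := pY.of_le (fun ω => by linarith [ω.hR]) (fun ω => ω.hRY)
  have p1 : EL Y (fun _ => (1 : ℝ)) := EL.const 1 (by norm_num)
  have p2 : EL Y (fun _ => (2 : ℝ)) := EL.const 2 (by norm_num)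
  let fK₁ : Cfg → ℕ := fun ω => ω.k * ω.g * ω.g
  let fmg : Cfg → ℕ := fun ω => ω.m ^ ω.g
  let fmgg : Cfg → ℕ := fun ω => (ω.m ^ ω.g) ^ ω.g
  let fm₁ : Cfg → ℕ := fun ω => (ω.m ^ ω.g) ^ ω.g * ω.g
  let fB₁ : Cfg → ℝ := fun ω => (((ω.m ^ ω.g) ^ ω.g : ℕ) : ℝ) *
      (((((ω.m ^ ω.g : ℕ) : ℝ) * (ω.m * ω.B) ^ ω.g) ^ ω.g) * (ω.g * 1))
  let fR₁ : Cfg → ℝ := fun ω => ω.g * (ω.g * ω.R) + ω.g * (ω.g * ω.R)
  let fE₁ : Cfg → ℝ := fun ω => (ω.m * (ω.B * Real.exp ω.R)) ^ ω.g *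
        ((((ω.m ^ ω.g : ℕ) : ℝ) * ((ω.m * ω.B) ^ ω.g * Real.exp (ω.g * ω.R))) ^ ω.g) *
        (ω.g * (ω.g * 1 * Real.exp (ω.g * (ω.g * ω.R))))
  let fV : Cfg → ℝ := fun ω => fm₁ ω * ((ω.D : ℝ) ^ fK₁ ω * fB₁ ω)
  let fK : Cfg → ℝ := fun ω => (2 * ω.D * fR₁ ω) ^ fm₁ ω
  let fQ : Cfg → ℝ := fun ω => (ω.D : ℝ) ^ fm₁ ω * (fR₁ ω * fK ω)
  let fZ : Cfg → ℝ := fun ω => 21 * (fV ω * fQ ω * fR₁ ω) + fK ω + fV ω + ω.D
  have pK₁ : EL Y (fun ω => (fK₁ ω : ℝ)) :=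
    ((pk.mul pg).mul pg).of_le (fun ω => by positivity) (fun ω => by simp [fK₁])
  have pmg : EL Y (fun ω => (fmg ω : ℝ)) :=
    (pm.npow (fun ω => ω.g) pg).of_le (fun ω => by positivity) (fun ω => by simp [fmg])
  have pmgg : EL Y (fun ω => (fmgg ω : ℝ)) :=
    (pmg.npow (fun ω => ω.g) pg).of_le (fun ω => by positivity) (fun ω => by simp [fmg, fmgg])
  have pm₁ : EL Y (fun ω => (fm₁ ω : ℝ)) :=
    (pmgg.mul pg).of_le (fun ω => by positivity) (fun ω => by simp [fmgg, fm₁])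
  have pB₁ : EL Y fB₁ := pmgg.mul (((pmg.mul ((pm.mul pB).npow (fun ω => ω.g) pg)).npow
    (fun ω => ω.g) pg).mul (pg.mul p1))
  have pR₁ : EL Y fR₁ := (pg.mul (pg.mul pR)).add (pg.mul (pg.mul pR))
  have pV : EL Y fV := pm₁.mul ((pD.npow fK₁ pK₁).mul pB₁)
  have pK : EL Y fK := ((p2.mul pD).mul pR₁).npow fm₁ pm₁
  have pQ : EL Y fQ := (pD.npow fm₁ pm₁).mul (pR₁.mul pK)
  have pZ : EL Y fZ := ((((EL.const 21 (by norm_num)).mul ((pV.mul pQ).mul pR₁)).add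
    pK).add pV).add pD
  have pE₁ : EL Y fE₁ := (((pm.mul (pB.mul pR.exp)).npow (fun ω => ω.g) pg).mul
    ((pmg.mul (((pm.mul pB).npow (fun ω => ω.g) pg).mul (pg.mul pR).exp)).npow
      (fun ω => ω.g) pg)).mul (pg.mul ((pg.mul p1).mul (pg.mul (pg.mul pR)).exp))
  -- the prime number
  have hp : ∀ ω, ∃ p : ℕ, p.Prime ∧ ⌈fZ ω⌉₊ + 1 < p ∧ p ≤ 2 * (⌈fZ ω⌉₊ + 1) := fun ω =>
    Nat.exists_prime_lt_and_le_two_mul _ (by omega)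
  choose fp hpp hp1 hp2 using hp
  have hZ0 : ∀ ω, 0 ≤ fZ ω := fun ω => by
    obtain ⟨c, hc⟩ := pZ
    exact (hc ω).1
  have pp : EL Y (fun ω => (fp ω : ℝ)) := by
    have : EL Y (fun ω => 2 * (fZ ω + 2)) := p2.mul (pZ.add p2)
    refine this.of_le (fun ω => by positivity) fun ω => ?_
    have h1 : ((fp ω : ℕ) : ℝ) ≤ ((2 * (⌈fZ ω⌉₊ + 1) : ℕ) : ℝ) := by exact_mod_cast hp2 ω
    have h2 := (Nat.ceil_lt_add_one (hZ0 ω)).le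
    push_cast at h1
    linarith
  have pp' : EL Y (fun ω => ((fp ω * (fm₁ ω + 1) : ℕ) : ℝ)) := by
    refine (pp.mul (pm₁.add p1)).of_le (fun ω => by positivity) fun ω => ?_
    push_cast
    exact le_refl _
  have pp'' : EL Y (fun ω => ((fp ω * fm₁ ω : ℕ) : ℝ)) := by
    refine (pp.mul pm₁).of_le (fun ω => by positivity) fun ω => ?_
    push_cast
    exact le_refl _
  have eW : EL Y (fun ω => 2 * ((ω.D : ℝ) ^ (fp ω * fm₁ ω) *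
        (((fp ω * (fm₁ ω + 1)) ! : ℕ) * (2 ^ (fp ω * (fm₁ ω + 1)) * fK ω ^ fp ω))) *
        ((ω.D : ℝ) ^ fK₁ ω * fE₁ ω)) :=
    (p2.mul ((pD.npow (fun ω => fp ω * fm₁ ω) pp'').mul ((EL.factorial _ pp').mul
      ((p2.npow (fun ω => fp ω * (fm₁ ω + 1)) pp').mul (pK.npow fp pp))))).mul
      ((pD.npow fK₁ pK₁).mul pE₁)
  obtain ⟨κ, hκ⟩ := eW
  refine ⟨κ, fun ω K₁ m₁ B₁ R₁ E₁ V K hK₁ hm₁ hB₁ hR₁ hE₁ hV hK => ?_⟩
  subst hK₁ hm₁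
  have eB₁ : B₁ = fB₁ ω := hB₁
  have eR₁ : R₁ = fR₁ ω := hR₁
  have eE₁' : E₁ = fE₁ ω := hE₁
  have eV : V = fV ω := by rw [hV, eB₁]
  have eK : K = fK ω := by rw [hK, eR₁]
  have hgR : (1 : ℝ) ≤ ω.g := by exact_mod_cast ω.hg
  have hmR : (1 : ℝ) ≤ ω.m := by exact_mod_cast ω.hm
  have hm₁1 : 1 ≤ fm₁ ω := by
    have h1 : 1 ≤ (ω.m ^ ω.g) ^ ω.g := Nat.one_le_pow _ _ (Nat.one_le_pow _ _ ω.hm)
    exact one_le_mul_of_one_le_of_one_le h1 ω.hg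
  have hm₁R : (1 : ℝ) ≤ fm₁ ω := by exact_mod_cast hm₁1
  have hR₁1 : 1 ≤ R₁ := by
    rw [hR₁]
    have : 1 ≤ (ω.g : ℝ) * (ω.g * ω.R) := one_le_mul_of_one_le_of_one_le hgR
      (one_le_mul_of_one_le_of_one_le hgR ω.hR)
    linarith
  have hDR : (1 : ℝ) ≤ ω.D := by exact_mod_cast ω.hD
  have hK1 : 1 ≤ K := by
    rw [hK]
    refine one_le_pow₀ ?_
    nlinarith
  have hB₁1 : 1 ≤ B₁ := by
    rw [hB₁]
    have h1 : (1 : ℝ) ≤ (((ω.m ^ ω.g) ^ ω.g : ℕ) : ℝ) := by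
      exact_mod_cast Nat.one_le_pow _ _ (Nat.one_le_pow _ _ ω.hm)
    have h2 : (1 : ℝ) ≤ ((ω.m ^ ω.g : ℕ) : ℝ) := by exact_mod_cast Nat.one_le_pow _ _ ω.hm
    have h3 : (1 : ℝ) ≤ (ω.m * ω.B) ^ ω.g :=
      one_le_pow₀ (one_le_mul_of_one_le_of_one_le hmR ω.hB)
    have h4 : (1 : ℝ) ≤ (((ω.m ^ ω.g : ℕ) : ℝ) * (ω.m * ω.B) ^ ω.g) ^ ω.g :=
      one_le_pow₀ (one_le_mul_of_one_le_of_one_le h2 h3)
    exact one_le_mul_of_one_le_of_one_le h1 (one_le_mul_of_one_le_of_one_le h4 (by simpa using hgR))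
  have hV1 : 1 ≤ V := by
    rw [hV]
    exact one_le_mul_of_one_le_of_one_le hm₁R
      (one_le_mul_of_one_le_of_one_le (one_le_pow₀ hDR) hB₁1)
  have hQ1 : 1 ≤ (ω.D : ℝ) ^ fm₁ ω * (R₁ * K) :=
    one_le_mul_of_one_le_of_one_le (one_le_pow₀ hDR) (one_le_mul_of_one_le_of_one_le hR₁1 hK1)
  have hZ : fZ ω = 21 * (V * ((ω.D : ℝ) ^ fm₁ ω * (R₁ * K)) * R₁) + K + V + ω.D := by
    rw [eV, eK, eR₁]
  have hlt : fZ ω < (fp ω : ℝ) - 1 := by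
    have h1 : ((⌈fZ ω⌉₊ + 1 : ℕ) : ℝ) < (fp ω : ℝ) := by exact_mod_cast hp1 ω
    have h2 := Nat.le_ceil (fZ ω)
    push_cast at h1
    linarith
  have hpos : 0 ≤ 21 * (V * ((ω.D : ℝ) ^ fm₁ ω * (R₁ * K)) * R₁) := by positivity
  refine ⟨fp ω, hpp ω, ?_, ?_, ?_, ?_, ?_⟩
  · linarith
  · linarith
  · have : (ω.D : ℝ) < fp ω := by linarith
    exact_mod_cast this
  · have hp1' : 1 ≤ fp ω := (hpp ω).one_le
    have h1 := small (fp ω - 1) V ((ω.D : ℝ) ^ fm₁ ω * (R₁ * K)) R₁ hV1 hQ1 hR₁1 (by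
      rw [Nat.cast_sub hp1']
      push_cast
      linarith)
    rw [Nat.sub_add_cancel hp1'] at h1
    refine le_trans (le_of_eq ?_) h1
    have h2 : ((ω.D : ℝ) ^ fm₁ ω) ^ fp ω = (ω.D : ℝ) ^ (fp ω * fm₁ ω) := by
      rw [← pow_mul, mul_comm]
    change 2 * ((ω.D : ℝ) ^ (fp ω * fm₁ ω) * (V * (Real.exp R₁ * Real.exp R₁ *
      (R₁ * K) ^ fp ω))) = _
    rw [mul_pow ((ω.D : ℝ) ^ fm₁ ω), h2]
    ring
  · have h1 := (hκ ω).2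
    beta_reduce at h1
    rw [← eE₁', ← eK] at h1
    exact h1

end Pool.Agent.R347.LW
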